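import Pool.Agent.helper21.WS.Defs

/-! Small facts about coordinates. -/

namespace WildS

open Polynomial WildRat

variable {K : Type} [Field K] [Algebra ℂ K]

theorem aeval_X_E (p : ℂ[X]) : aeval (RatFunc.X : E) p = algebraMap ℂ[X] E p := by
  rw [← RatFunc.algebraMap_X, aeval_algebraMap_apply, aeval_X_left, AlgHom.id_apply]

theorem coord_poly (φ : E →ₐ[ℂ] K) (p : ℂ[X]) :
    φ (algebraMap ℂ[X] E p) = aeval (φ RatFunc.X) p := by
  rw [← aeval_X_E, aeval_algHom_apply]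

theorem coord_ext {φ ψ : E →ₐ[ℂ] K} (h : φ RatFunc.X = ψ RatFunc.X) : φ = ψ := by
  ext u
  rw [← RatFunc.num_div_denom u, map_div₀, map_div₀, coord_poly, coord_poly, coord_poly,
    coord_poly, h]

theorem coord_ne {φ ψ : E →ₐ[ℂ] K} (h : φ ≠ ψ) : φ RatFunc.X ≠ ψ RatFunc.X :=
  fun h1 => h (coord_ext h1)

theorem coord_inj (φ : E →ₐ[ℂ] K) : Function.Injective φ := φ.toRingHom.injective

theorem coord_C (φ : E →ₐ[ℂ] K) (c : ℂ) : φ (algebraMap ℂ E c) = algebraMap ℂ K c :=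
  φ.commutes c

theorem coord_nonConst (φ : E →ₐ[ℂ] K) : NonConst (φ RatFunc.X) := by
  intro c hc
  rw [← coord_C φ c] at hc
  exact ratFuncX_nonConst c (coord_inj φ hc)

theorem coord_sub_ne (φ : E →ₐ[ℂ] K) (c : ℂ) : φ RatFunc.X - algebraMap ℂ K c ≠ 0 :=
  sub_ne_zero.2 (coord_nonConst φ c)

theorem elt_eq (A : RF) : elt A = algebraMap ℂ[X] E A.P / algebraMap ℂ[X] E A.Q := by
  unfold elt RF.app
  rw [aeval_X_E, aeval_X_E]

theorem coord_elt (φ : E →ₐ[ℂ] K) (A : RF) : φ (elt A) = A.app (φ RatFunc.X) := app_map φ A _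

theorem elt_nonConst (A : RF) (hn : 1 ≤ A.n) : NonConst (elt A) :=
  A.app_nonConst hn ratFuncX_nonConst

theorem algC_E (c : ℂ) : algebraMap ℂ E c = algebraMap ℂ[X] E (C c) :=
  IsScalarTower.algebraMap_apply ℂ ℂ[X] E c

end WildS
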