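import Pool.Agent.helper21.WS.Transp

/-! The block identity. -/

namespace WildS

open Polynomial WildRat

variable {K : Type} [Field K] [Algebra ℂ K]

theorem Block_swap {L : Type} [Field L] (F : L[X]) (hF : F.Monic)
    (hs : F.Splits) (hnd : F.roots.Nodup) (τ : L →+* L) {a b : L} (ha : F.IsRoot a)
    (hb : F.IsRoot b) (hab : τ a = b) (hba : τ b = a)
    (h : ∀ z, z ≠ a → z ≠ b → F.IsRoot z → τ z = z) : F.map τ = F := by
  have hF0 : F ≠ 0 := hF.ne_zero
  have h1 : F.roots.map τ ≤ F.roots := by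
    rw [Multiset.le_iff_subset (hnd.map τ.injective)]
    intro z hz
    obtain ⟨w, hw, rfl⟩ := Multiset.mem_map.1 hz
    by_cases h2 : w = a
    · rw [h2, hab]
      exact (mem_roots hF0).2 hb
    · by_cases h3 : w = b
      · rw [h3, hba]
        exact (mem_roots hF0).2 ha
      · rw [h w h2 h3 ((mem_roots hF0).1 hw)]
        exact hw
  have h2 : F.roots.map τ = F.roots :=
    Multiset.eq_of_le_of_card_le h1 (by rw [Multiset.card_map])
  have h3 := hs.eq_prod_roots_of_monic hF
  calc F.map τ = ((F.roots.map (X - C ·)).prod).map τ := by rw [← h3]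
    _ = ((F.roots.map τ).map (X - C ·)).prod := by
        rw [Polynomial.map_multiset_prod, Multiset.map_map, Multiset.map_map]
        congr 1
        apply Multiset.map_congr rfl
        intro z _
        simp only [Function.comp_apply, Polynomial.map_sub, map_X, map_C]
    _ = F := by rw [h2, ← h3]

theorem Block_monic {φ ψ : E →ₐ[ℂ] K} (hφ : FinC φ) : (NN φ ψ).Monic := by
  unfold NN mu
  letI := φ.toRingHom.toAlgebra
  haveI : Module.Finite E K := hφ
  exact (monic_X_sub_C _).mul (minpoly.monic (Algebra.IsIntegral.isIntegral _))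

theorem Block_root1 {φ ψ : E →ₐ[ℂ] K} :
    ((NN φ ψ).map φ.toRingHom).IsRoot (φ RatFunc.X) := by
  unfold NN
  rw [Polynomial.map_mul, IsRoot.def, eval_mul, Polynomial.map_sub, map_X, map_C, eval_sub, eval_X,
    eval_C]
  have : φ.toRingHom RatFunc.X = φ RatFunc.X := rfl
  rw [this, sub_self, zero_mul]

theorem Block_root2 {φ ψ : E →ₐ[ℂ] K} :
    ((NN φ ψ).map φ.toRingHom).IsRoot (ψ RatFunc.X) := by
  unfold NN
  rw [Polynomial.map_mul, IsRoot.def, eval_mul]
  have h : ((mu φ (ψ RatFunc.X)).map φ.toRingHom).eval (ψ RatFunc.X) = 0 := by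
    unfold mu
    letI := φ.toRingHom.toAlgebra
    have h1 := minpoly.aeval E (ψ RatFunc.X : K)
    rw [aeval_def, eval₂_eq_eval_map] at h1
    exact h1
  rw [h, mul_zero]

theorem Block_GG (A : RF) (φ : E →ₐ[ℂ] K) :
    (GG A).map φ.toRingHom = A.P.map (algebraMap ℂ K) - C (φ (elt A)) *
      A.Q.map (algebraMap ℂ K) := by
  have h1 : φ.toRingHom.comp (algebraMap ℂ E) = algebraMap ℂ K := by
    ext c
    exact φ.commutes c
  unfold GG
  rw [Polynomial.map_sub, Polynomial.map_mul, map_C, Polynomial.map_map, Polynomial.map_map, h1]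
  rfl

/-- The block identity.  `N = (T - x) μ` divides `P(T) - A(x) Q(T)` (`NN_dvd`); over `Ω` the image
of `N` under `φ` is a product of `T - z` over different roots `z` of `P - t Q`
(`GG_separable`), among them `φ x` and `ψ x`.  The homomorphism `τ` maps this product to itself,
and it maps the image of `N` under `φ` to the image of `N` under `ψ`, because
`τ (φ c) = ψ c` for `c = x` and so for all `c ∈ ℂ(x)`. -/
theorem block_identity {A : RF} (hm : A.P.Monic) (hlt : A.Q.natDegree < A.P.natDegree) {q c : ℂ}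
    (hq : A.P.eval q = c * A.Q.eval q) (h2 : (A.P - C c * A.Q).rootMultiplicity q = 2)
    (h1 : ∀ w, w ≠ q → A.P.eval w = c * A.Q.eval w →
      (A.P - C c * A.Q).rootMultiplicity w = 1)
    {φ ψ : E →ₐ[ℂ] K} (hφ : FinC φ) (hne : φ ≠ ψ) (h : φ (elt A) = ψ (elt A)) {P : Pl K}
    (hP : P ∈ fib φ q) (hP' : P ∈ fib ψ q) :
    (NN φ ψ).map φ.toRingHom = (NN φ ψ).map ψ.toRingHom := by
  obtain ⟨τ, h3, h4, h5⟩ := exists_transp hm hlt hq h2 h1 hφ hne h hP hP'
  have hn : 1 ≤ A.n := by
    unfold RF.n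
    have := le_max_left A.P.natDegree A.Q.natDegree
    omega
  obtain ⟨ι, hι⟩ : ∃ ι : K →ₐ[ℂ] AlgebraicClosure K, ∀ x, ι x = algebraMap K _ x :=
    ⟨IsScalarTower.toAlgHom ℂ K (AlgebraicClosure K), fun _ => rfl⟩
  have hmap : ∀ χ : E →ₐ[ℂ] K, ∀ F : E[X], (F.map χ.toRingHom).map ι.toRingHom =
      F.map (ι.comp χ).toRingHom := fun χ F => by
    rw [Polynomial.map_map]
    rfl
  have hroot : ∀ (F : K[X]) (z : K), F.IsRoot z → (F.map ι.toRingHom).IsRoot (ι z) := by
    intro F z hz
    rw [IsRoot.def] at hz ⊢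
    have h6 : ι z = ι.toRingHom z := rfl
    rw [h6, eval_map_apply, hz, map_zero]
  have hmon : (((NN φ ψ).map φ.toRingHom).map ι.toRingHom).Monic :=
    ((Block_monic hφ).map _).map _
  have hdvd : ((NN φ ψ).map φ.toRingHom).map ι.toRingHom ∣
      ((GG A).map φ.toRingHom).map ι.toRingHom :=
    Polynomial.map_dvd _ (Polynomial.map_dvd _ (NN_dvd A hn hne h))
  have hsep : (((NN φ ψ).map φ.toRingHom).map ι.toRingHom).Separable :=
    Separable.of_dvd ((GG_separable A hn).map.map) hdvd
  have hτ : ((((NN φ ψ).map φ.toRingHom).map ι.toRingHom)).map τ.toRingHom =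
      ((NN φ ψ).map φ.toRingHom).map ι.toRingHom := by
    refine Block_swap _ hmon (IsAlgClosed.splits _) (nodup_roots hsep) τ.toRingHom
      (hroot _ _ Block_root1) (hroot _ _ Block_root2) ?_ ?_ ?_
    · rw [hι, hι]
      exact h3
    · rw [hι, hι]
      exact h4
    · intro z hz1 hz2 hz
      rw [hι] at hz1 hz2
      apply h5 z hz1 hz2
      have h6 : (((GG A).map φ.toRingHom).map ι.toRingHom).IsRoot z := hz.dvd hdvd
      rw [Block_GG, IsRoot.def, Polynomial.map_sub, Polynomial.map_mul, map_C, eval_sub, eval_mul,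
        eval_C, Polynomial.map_map, Polynomial.map_map] at h6
      have h7 : ι.toRingHom.comp (algebraMap ℂ K) = algebraMap ℂ (AlgebraicClosure K) := by
        ext c
        exact ι.commutes c
      rw [h7, eval_map_algebraMap, eval_map_algebraMap] at h6
      rw [← hι]
      exact sub_eq_zero.1 h6
  have hcomp : (τ.comp (ι.comp φ)) = ι.comp ψ := by
    apply coord_ext
    rw [AlgHom.comp_apply, AlgHom.comp_apply, AlgHom.comp_apply, hι, hι]
    exact h3
  have h8 : ((((NN φ ψ).map φ.toRingHom).map ι.toRingHom)).map τ.toRingHom =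
      ((NN φ ψ).map ψ.toRingHom).map ι.toRingHom := by
    rw [hmap, hmap, ← hcomp, Polynomial.map_map]
    rfl
  exact Polynomial.map_injective ι.toRingHom ι.toRingHom.injective (hτ.symm.trans h8)

end WildS
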