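import Pool.Agent.helper21.WS.PlBasic

/-! Places and maximal ideals of a Dedekind domain with fraction field `K`. -/

namespace WildS

open Polynomial WildRat IsDedekindDomain

variable {K : Type} [Field K] [Algebra ℂ K] {R : Type} [CommRing R] [IsDedekindDomain R]
  [Algebra R K] [IsFractionRing R K]

/-- Every maximal ideal gives a place. -/
theorem exists_pl_of_prime [Algebra ℂ R] [IsScalarTower ℂ R K] (p : HeightOneSpectrum R) :
    ∃ P : Pl K, P.v = p.valuation K := by
  refine ⟨⟨p.valuation K, p.valuation_surjective K, ?_⟩, rfl⟩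
  intro c hc
  rw [IsScalarTower.algebraMap_apply ℂ R K, HeightOneSpectrum.valuation_eq_one_iff_notMem]
  intro hmem
  have hu : IsUnit (algebraMap ℂ R c) := (IsUnit.mk0 c hc).map (algebraMap ℂ R)
  exact p.isPrime.ne_top (Ideal.eq_top_of_isUnit_mem _ hmem hu)

private theorem Chart_mul_lt {a b : WithZero (Multiplicative ℤ)} (ha : a ≤ 1) (hb : b < 1) :
    a * b < 1 := by
  calc a * b ≤ 1 * b := mul_le_mul' ha le_rfl
    _ = b := one_mul b
    _ < 1 := hb

omit [Algebra ℂ K] in
/-- equivalent surjective discrete valuations are equal -/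
private theorem Chart_eq {v w : Valuation K (WithZero (Multiplicative ℤ))}
    (hv : Function.Surjective v) (hw : Function.Surjective w) (h : v.IsEquiv w) : v = w := by
  obtain ⟨t, ht⟩ := hv (WithZero.exp (-1))
  obtain ⟨s, hs⟩ := hw (WithZero.exp (-1))
  have ht1 : w t < 1 := by
    rw [← h.lt_one_iff_lt_one, ht, ← WithZero.exp_zero, WithZero.exp_lt_exp]
    norm_num
  have hs1 : v s < 1 := by
    rw [h.lt_one_iff_lt_one, hs, ← WithZero.exp_zero, WithZero.exp_lt_exp]
    norm_num
  have ht0 : w t ≠ 0 := by
    rw [← (h.eq_zero).ne, ht]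
    exact WithZero.exp_ne_zero
  have hs0 : v s ≠ 0 := by
    rw [(h.eq_zero).ne, hs]
    exact WithZero.exp_ne_zero
  have key : ∀ a : WithZero (Multiplicative ℤ), a ≠ 0 → a < 1 → a ≤ WithZero.exp (-1) := by
    intro a ha ha1
    rw [← WithZero.exp_log ha] at ha1 ⊢
    rw [← WithZero.exp_zero, WithZero.exp_lt_exp] at ha1
    rw [WithZero.exp_le_exp]
    omega
  have h1 : w t ≤ w s := by
    rw [hs]
    exact key _ ht0 ht1
  have h2 : v s ≤ v t := by
    rw [ht]
    exact key _ hs0 hs1
  have h3 : w t = WithZero.exp (-1) := by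
    rw [← hs]
    exact le_antisymm h1 ((h.le_iff_le).mp h2)
  ext x
  by_cases hx : w x = 0
  · rw [hx, h.eq_zero]
    exact hx
  · have h4 : w x = w (t ^ (-(WithZero.log (w x)))) := by
      rw [map_zpow₀, h3, ← WithZero.exp_zsmul]
      rw [smul_eq_mul, neg_mul_neg, mul_one, WithZero.exp_log hx]
    have h5 := h.eq_iff.mpr h4
    rw [h5, map_zpow₀, ht]
    conv_rhs => rw [h4, map_zpow₀, h3]

/-- A place which is nonnegative on `R` comes from a maximal ideal of `R`.
Proof: `m = {r | 0 < ord r or r = 0}` is a prime ideal of `R`, not zero because `P.v` is not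
trivial.  By `HeightOneSpectrum.exists_primeCompl_mul_eq_of_integer` (or
`valuationSubringAtPrime_eq_valuationSubring`) an element `u` with `p.valuation K u ≤ 1` is a
quotient `r / s` with `s ∉ m`, hence has `P.v u ≤ 1`; for `p.valuation K u < 1` apply this to
`u` and a uniformizer `t` of `p`: `u = t ^ k * w` with `w` a unit for both valuations, so
`P.ord u = k * P.ord t`, and surjectivity of `P.v` gives `P.ord t = 1`. -/
theorem exists_prime_of_pl (P : Pl K) (h : ∀ r : R, 0 ≤ P.ord (algebraMap R K r)) :
    ∃ p : HeightOneSpectrum R, P.v = p.valuation K := by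
  have h1 : ∀ r : R, P.v (algebraMap R K r) ≤ 1 := fun r => (P.ord_nonneg_iff _).mp (h r)
  let m : Ideal R :=
    { carrier := {r | P.v (algebraMap R K r) < 1}
      add_mem' := by
        intro a b ha hb
        rw [Set.mem_ofPred_eq] at ha hb ⊢
        rw [map_add]
        exact (P.v.map_add _ _).trans_lt (max_lt ha hb)
      zero_mem' := by
        rw [Set.mem_ofPred_eq, map_zero, map_zero]
        exact zero_lt_one
      smul_mem' := by
        intro a b hb
        rw [Set.mem_ofPred_eq] at hb ⊢
        rw [smul_eq_mul, map_mul, map_mul]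
        exact Chart_mul_lt (h1 a) hb }
  have hm : ∀ r, r ∈ m ↔ P.v (algebraMap R K r) < 1 := fun r => Iff.rfl
  have hprime : m.IsPrime := by
    refine ⟨?_, ?_⟩
    · intro htop
      have : (1 : R) ∈ m := by rw [htop]; exact Submodule.mem_top
      rw [hm, map_one, map_one] at this
      exact lt_irrefl _ this
    · intro a b hab
      rw [hm, map_mul, map_mul] at hab
      by_contra hcon
      rw [not_or, hm, hm, not_lt, not_lt] at hcon
      have ha : P.v (algebraMap R K a) = 1 := le_antisymm (h1 a) hcon.1
      have hb : P.v (algebraMap R K b) = 1 := le_antisymm (h1 b) hcon.2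
      rw [ha, hb, one_mul] at hab
      exact lt_irrefl _ hab
  have hbot : m ≠ ⊥ := by
    intro hbot
    obtain ⟨t, ht⟩ := P.surj (WithZero.exp (-1))
    obtain ⟨a, b, hb, hab⟩ := IsFractionRing.div_surjective (A := R) t
    have hbne : P.v (algebraMap R K b) ≠ 0 := by
      rw [Valuation.ne_zero_iff]
      intro h0
      rw [map_eq_zero_iff _ (IsFractionRing.injective R K)] at h0
      exact nonZeroDivisors.ne_zero hb h0
    have hta : P.v (algebraMap R K a) = P.v t * P.v (algebraMap R K b) := by
      rw [← map_mul, ← hab, div_mul_cancel₀]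
      rwa [Valuation.ne_zero_iff] at hbne
    have hlt : P.v (algebraMap R K a) < 1 := by
      rw [hta, ht, mul_comm]
      apply Chart_mul_lt (h1 b)
      rw [← WithZero.exp_zero, WithZero.exp_lt_exp]
      norm_num
    have hmem : a ∈ m := (hm a).mpr hlt
    rw [hbot, Ideal.mem_bot] at hmem
    rw [hmem, map_zero, map_zero, ht] at hta
    exact (mul_ne_zero WithZero.exp_ne_zero hbne) hta.symm
  let p : HeightOneSpectrum R := ⟨m, hprime, hbot⟩
  have hle : HeightOneSpectrum.valuationSubringAtPrime K p ≤ P.v.valuationSubring := by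
    rw [HeightOneSpectrum.valuationSubringAtPrime_eq_valuationSubring]
    intro x hx
    rw [Valuation.mem_valuationSubring_iff] at hx ⊢
    obtain ⟨n, d, hnd⟩ := p.exists_primeCompl_mul_eq_of_integer x hx
    have hd : P.v (algebraMap R K d) = 1 := by
      apply le_antisymm (h1 d)
      have hd' : (d : R) ∉ m := d.2
      rw [hm, not_lt] at hd'
      exact hd'
    have h2 : P.v x * P.v (algebraMap R K d) = P.v (algebraMap R K n) := by
      rw [← map_mul, hnd]
    rw [hd, mul_one] at h2
    rw [h2]
    exact h1 n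
  have hne : P.v.valuationSubring ≠ ⊤ := by
    rw [ne_eq, Valuation.valuationSubring_eq_top_iff, not_not]
    obtain ⟨t, ht⟩ := P.surj (WithZero.exp (-1))
    refine ⟨t, ?_, ?_⟩
    · rw [ht]
      exact WithZero.exp_ne_zero
    · rw [ht, ← WithZero.exp_zero]
      intro hcon
      have := WithZero.exp_injective hcon
      norm_num at this
  have heq := ValuationSubring.eq_of_le_of_ne_top _ hle hne
  rw [HeightOneSpectrum.valuationSubringAtPrime_eq_valuationSubring] at heq
  refine ⟨p, ?_⟩
  apply Chart_eq P.surj (p.valuation_surjective K)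
  rw [Valuation.isEquiv_iff_valuationSubring]
  exact heq.symm

/-- an element of nonnegative order at such a place is a quotient `r / s` with `s` a unit -/
theorem exists_quot (P : Pl K) (h : ∀ r : R, 0 ≤ P.ord (algebraMap R K r)) {u : K}
    (hu : 0 ≤ P.ord u) :
    ∃ r s : R, algebraMap R K s ≠ 0 ∧ P.ord (algebraMap R K s) = 0 ∧
      u * algebraMap R K s = algebraMap R K r := by
  obtain ⟨p, hp⟩ := exists_prime_of_pl P h
  have hu' : p.valuation K u ≤ 1 := by
    rw [← hp]
    exact (P.ord_nonneg_iff u).mp hu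
  obtain ⟨n, d, hnd⟩ := p.exists_primeCompl_mul_eq_of_integer u hu'
  have hd : P.v (algebraMap R K d) = 1 := by
    rw [hp, HeightOneSpectrum.valuation_eq_one_iff_notMem]
    exact d.2
  refine ⟨n, d, ?_, ?_, hnd⟩
  · intro h0
    rw [h0, map_zero] at hd
    exact zero_ne_one hd
  · unfold Pl.ord
    rw [hd, WithZero.log_one, neg_zero]

end WildS
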