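import Pool.Agent.helper21.WS.Coord
import Pool.Agent.helper44.Wild.RHP1

/-! Values and indices of a composition. -/

namespace WildS

open Polynomial WildRat

/-- A rational function of degree zero takes a constant value. -/
private theorem CompF_const {A : RF} (hA : A.n = 0) {K : Type} [Field K] [Algebra ℂ K] (t : K) :
    ∃ c : ℂ, A.app t = algebraMap ℂ K c := by
  have h1 : A.P.natDegree = 0 := by
    have : A.P.natDegree ≤ A.n := le_max_left _ _
    omega
  have h2 : A.Q.natDegree = 0 := by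
    have : A.Q.natDegree ≤ A.n := le_max_right _ _
    omega
  refine ⟨A.P.coeff 0 / A.Q.coeff 0, ?_⟩
  unfold RF.app
  rw [eq_C_of_natDegree_eq_zero h1, eq_C_of_natDegree_eq_zero h2, aeval_C, aeval_C, map_div₀,
    coeff_C_zero, coeff_C_zero]

/-- Two rational functions which take the same value at a coordinate of degree one. -/
private theorem CompF_eq {A : RF} (hA : 1 ≤ A.n) {K : Type} [Field K] [Algebra ℂ K]
    {C₀ : CurveData K 2} {t : K} (ht : NonConst t) (hd : C₀.deg t = 1) :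
    C₀.deg (A.app t) = A.n ∧ (∀ p, C₀.ev (A.app t) p = A.val (C₀.ev t p)) ∧
      ∀ p, C₀.ram (A.app t) p = A.e (C₀.ev t p) * C₀.ram t p := by
  refine ⟨?_, fun p => A.ev_app hA C₀ ht p, fun p => A.ram_app hA C₀ ht p⟩
  rw [A.deg_app hA C₀ ht, hd, mul_one]

/-- In a curve with a coordinate `t` of degree one (`exists_coord`): `A(t) = B(C(t))`, every point
`z` of the sphere is the value of `t` at a place (as in `rh_of_coord`), and `ev_app`, `ram_app`,
`deg_app` for both sides. -/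
theorem comp_facts {A B C : RF} (h : A.IsComp B C) (hA : 1 ≤ A.n) (hC : 1 ≤ C.n) :
    1 ≤ B.n ∧ A.n = B.n * C.n ∧ (∀ z, A.val z = B.val (C.val z)) ∧
      ∀ z, A.e z = B.e (C.val z) * C.e z := by
  obtain ⟨K, hK, hKA, C₀, t, ht, hd⟩ := exists_coord
  have happ := h.app_eq ht
  have hCt := C.app_nonConst hC ht
  have hB : 1 ≤ B.n := by
    by_contra hB
    obtain ⟨c, hc⟩ := CompF_const (A := B) (by omega) (C.app t)
    rw [← happ] at hc
    exact A.app_nonConst hA ht c hc
  obtain ⟨a1, a2, a3⟩ := CompF_eq hA (C₀ := C₀) ht hd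
  obtain ⟨c1, c2, c3⟩ := CompF_eq hC (C₀ := C₀) ht hd
  refine ⟨hB, ?_, ?_, ?_⟩
  · have h1 := B.deg_app hB C₀ hCt
    rw [← happ, a1, c1] at h1
    exact_mod_cast h1
  · intro z
    obtain ⟨p, hp⟩ := C₀.exists_ev ht z
    rw [← hp, ← a2 p, ← c2 p, happ, B.ev_app hB C₀ hCt p]
  · intro z
    obtain ⟨p, hp⟩ := C₀.exists_ev ht z
    have h1 := B.ram_app hB C₀ hCt p
    rw [← happ, a3 p, c3 p, c2 p, hp, ← mul_assoc] at h1
    have h2 : C₀.ram t p ≠ 0 := by
      have := C₀.one_le_ram ht p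
      omega
    have h3 := mul_right_cancel₀ h2 h1
    exact_mod_cast h3

theorem exists_comp (B C : RF) (hB : 1 ≤ B.n) (hC : 1 ≤ C.n) :
    ∃ A : RF, A.IsComp B C ∧ 1 ≤ A.n := by
  obtain ⟨u, hu⟩ : ∃ u : RatFunc ℂ, u = B.app (C.app (RatFunc.X : RatFunc ℂ)) := ⟨_, rfl⟩
  have hnc : NonConst u := by
    rw [hu]
    exact B.app_nonConst hB (C.app_nonConst hC ratFuncX_nonConst)
  have happ : RF.app ⟨u.num, u.denom, RatFunc.isCoprime_num_denom u⟩ (RatFunc.X : RatFunc ℂ) =
      u := by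
    unfold RF.app
    rw [aeval_X_E, aeval_X_E]
    exact RatFunc.num_div_denom u
  refine ⟨⟨u.num, u.denom, RatFunc.isCoprime_num_denom u⟩, ?_, ?_⟩
  · unfold RF.IsComp
    rw [← hu]
    exact happ
  · by_contra hn
    obtain ⟨c, hc⟩ := CompF_const (A := ⟨u.num, u.denom, RatFunc.isCoprime_num_denom u⟩)
      (by omega) (RatFunc.X : RatFunc ℂ)
    rw [happ] at hc
    exact hnc c hc

/-- Values and indices depend only on the element of `ℂ(x)`. -/
theorem congr_elt {A B : RF} (h : elt A = elt B) (hA : 1 ≤ A.n) (hB : 1 ≤ B.n) :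
    A.n = B.n ∧ (∀ z, A.val z = B.val z) ∧ ∀ z, A.e z = B.e z := by
  obtain ⟨K, hK, hKA, C₀, t, ht, hd⟩ := exists_coord
  have happ : A.app t = B.app t := by
    obtain ⟨s, hs⟩ := exists_subst ht
    have h1 := congrArg s h
    unfold elt at h1
    rw [app_map, app_map, hs] at h1
    exact h1
  obtain ⟨a1, a2, a3⟩ := CompF_eq hA (C₀ := C₀) ht hd
  obtain ⟨b1, b2, b3⟩ := CompF_eq hB (C₀ := C₀) ht hd
  refine ⟨?_, ?_, ?_⟩
  · rw [happ, b1] at a1
    exact_mod_cast a1.symm
  · intro z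
    obtain ⟨p, hp⟩ := C₀.exists_ev ht z
    rw [← hp, ← a2 p, ← b2 p, happ]
  · intro z
    obtain ⟨p, hp⟩ := C₀.exists_ev ht z
    have h1 := a3 p
    rw [happ, b3 p, hp] at h1
    have h2 : C₀.ram t p ≠ 0 := by
      have := C₀.one_le_ram ht p
      omega
    have h3 := mul_right_cancel₀ h2 h1
    exact_mod_cast h3.symm

end WildS
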