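import Pool.Agent.helper21.WS.Finite

/-! The derivation `d / d(φ x)` of `K`. -/

namespace WildS

open Polynomial WildRat

variable {K : Type} [Field K] [Algebra ℂ K]

/-- A derivation which vanishes on `ψ x` vanishes. -/
theorem Deriv_eq_zero (ψ : E →ₐ[ℂ] K) (hψ : FinC ψ) (D : Derivation ℂ K K)
    (h : D (ψ RatFunc.X) = 0) : ∀ u, D u = 0 := by
  have hpoly : ∀ p : ℂ[X], D (ψ (algebraMap ℂ[X] E p)) = 0 := by
    intro p
    rw [coord_poly, Derivation.map_aeval, h, smul_zero]
  have hE : ∀ a : E, D (ψ a) = 0 := by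
    intro a
    rw [← RatFunc.num_div_denom a, map_div₀, Derivation.leibniz_div, hpoly, hpoly]
    simp
  letI : Algebra E K := ψ.toRingHom.toAlgebra
  haveI : Module.Finite E K := hψ
  let D' : Derivation E K K := Derivation.mk'
    { toFun := D
      map_add' := fun a b => map_add D a b
      map_smul' := fun a b => by
        rw [Algebra.smul_def, Algebra.smul_def, Derivation.leibniz]
        have e : algebraMap E K a = ψ a := rfl
        rw [e, hE a, smul_zero, add_zero, smul_eq_mul]
        rfl }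
    (fun a b => D.leibniz a b)
  haveI : Algebra.FormallyEtale E K := Algebra.FormallyEtale.of_isSeparable E K
  intro u
  have h1 : D' u = D'.liftKaehlerDifferential (KaehlerDifferential.D E K u) := by
    rw [Derivation.liftKaehlerDifferential_comp_D]
  have h2 : KaehlerDifferential.D E K u = 0 := Subsingleton.elim _ _
  change D' u = 0
  rw [h1, h2, map_zero]

/-- The derivation of `ℂ[X]` with values in `K` extends to `K`, because `K` is formally etale over
`ℂ[X]` (localization, then finite separable extension).  `D (ψ x) ≠ 0`: otherwise `D` vanishes on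
`ℂ(ψ x)` and hence on the algebraic extension `K`. -/
theorem exists_deriv (φ : E →ₐ[ℂ] K) (hφ : FinC φ) : ∃ D : Derivation ℂ K K,
    D (φ RatFunc.X) = 1 ∧ ∀ ψ : E →ₐ[ℂ] K, D (ψ RatFunc.X) ≠ 0 := by
  have hex : ∃ D : Derivation ℂ K K, D (φ RatFunc.X) = 1 := by
    letI : Algebra E K := φ.toRingHom.toAlgebra
    haveI : Module.Finite E K := hφ
    letI : Algebra ℂ[X] K := ((algebraMap E K).comp (algebraMap ℂ[X] E)).toAlgebra
    haveI : IsScalarTower ℂ[X] E K := IsScalarTower.of_algebraMap_eq' rfl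
    haveI : IsScalarTower ℂ ℂ[X] K := IsScalarTower.of_algebraMap_eq fun c => by
      change algebraMap ℂ K c = φ (algebraMap ℂ[X] E (algebraMap ℂ ℂ[X] c))
      rw [← IsScalarTower.algebraMap_apply ℂ ℂ[X] E, φ.commutes]
    haveI : Algebra.FormallyEtale E K := Algebra.FormallyEtale.of_isSeparable E K
    haveI : Algebra.FormallyEtale ℂ[X] E :=
      Algebra.FormallyEtale.of_isLocalization (nonZeroDivisors ℂ[X])
    haveI : Algebra.FormallyEtale ℂ[X] K := Algebra.FormallyEtale.comp ℂ[X] E K
    let d0 : Derivation ℂ ℂ[X] K := mkDerivation ℂ (1 : K)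
    let L : (TensorProduct ℂ[X] K (Ω[ℂ[X]⁄ℂ])) →ₗ[K] K :=
      LinearMap.liftBaseChange K d0.liftKaehlerDifferential
    let e := KaehlerDifferential.tensorKaehlerEquivOfFormallyEtale ℂ ℂ[X] K
    refine ⟨(L ∘ₗ e.symm.toLinearMap).compDer (KaehlerDifferential.D ℂ K), ?_⟩
    have hX : φ RatFunc.X = algebraMap ℂ[X] K X := by
      change φ RatFunc.X = φ (algebraMap ℂ[X] E X)
      rw [RatFunc.algebraMap_X]
    rw [hX]
    change L (e.symm (KaehlerDifferential.D ℂ K (algebraMap ℂ[X] K X))) = 1
    rw [KaehlerDifferential.tensorKaehlerEquivOfFormallyEtale_symm_D_algebraMap]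
    change LinearMap.liftBaseChange K d0.liftKaehlerDifferential (1 ⊗ₜ KaehlerDifferential.D ℂ ℂ[X] X) = 1
    rw [LinearMap.liftBaseChange_tmul, Derivation.liftKaehlerDifferential_comp_D, one_smul]
    exact mkDerivation_X _ _
  obtain ⟨D, hD⟩ := hex
  refine ⟨D, hD, fun ψ hψ => ?_⟩
  have h0 := Deriv_eq_zero ψ (finC_all φ hφ ψ) D hψ (φ RatFunc.X)
  rw [hD] at h0
  exact one_ne_zero h0

end WildS
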