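import Pool.Agent.helper21.WS.Fibre
import Pool.Agent.helper21.WS.Deriv

/-! A derivation which preserves the elements integral over `ℂ[x]` and over `ℂ[1/x]` preserves
all valuation rings. -/

namespace WildS

open Polynomial WildRat

variable {K : Type} [Field K] [Algebra ℂ K]

/-- A polynomial in an element without pole has no pole. -/
theorem DInt_aeval (P : Pl K) {z : K} (hz : 0 ≤ P.ord z) (p : ℂ[X]) : 0 ≤ P.ord (aeval z p) := by
  induction p using Polynomial.induction_on' with
  | add p q hp hq => rw [map_add]; exact P.ord_nonneg_add hp hq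
  | monomial n c =>
    rw [aeval_monomial]
    refine P.ord_nonneg_mul (le_of_eq (P.ord_C c).symm) ?_
    rw [P.ord_pow]
    positivity

/-- An element integral over `ℂ[z]` has no pole where `z` has none. -/
theorem DInt_integ (P : Pl K) {z u : K} (hz : 0 ≤ P.ord z) (hu : Integ z u) : 0 ≤ P.ord u := by
  have hv : P.v.Integers P.v.integer := Valuation.integer.integers P.v
  rw [P.ord_nonneg_iff]
  obtain ⟨f, hf, hfu⟩ := hu
  have hmem : ∀ p : ℂ[X], (aeval z : ℂ[X] →ₐ[ℂ] K).toRingHom p ∈ P.v.integer := by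
    intro p
    rw [Valuation.mem_integer_iff, ← P.ord_nonneg_iff]
    exact DInt_aeval P hz p
  let j : ℂ[X] →+* P.v.integer := (aeval z : ℂ[X] →ₐ[ℂ] K).toRingHom.codRestrict P.v.integer hmem
  have hint : IsIntegral P.v.integer u := by
    refine ⟨f.map j, hf.map j, ?_⟩
    rw [eval₂_map]
    exact hfu
  exact (Valuation.mem_integer_iff P.v u).mp (hv.mem_of_integral hint)

/-- The case where the coordinate has no pole. -/
theorem DInt_aux (φ : E →ₐ[ℂ] K) (hφ : FinC φ) (D : Derivation ℂ K K)
    (h1 : ∀ u, Integ (φ RatFunc.X) u → Integ (φ RatFunc.X) (D u)) (P : Pl K)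
    (hP : 0 ≤ P.ord (φ RatFunc.X)) (u : K) (hu : 0 ≤ P.ord u) : 0 ≤ P.ord (D u) := by
  let _ : Algebra E K := φ.toRingHom.toAlgebra
  let _ : Algebra ℂ[X] K := (φ.toRingHom.comp (algebraMap ℂ[X] E)).toAlgebra
  have : IsScalarTower ℂ[X] E K := IsScalarTower.of_algebraMap_eq' rfl
  have : FiniteDimensional E K := hφ
  have : CharZero E := inferInstance
  have : Algebra.IsSeparable E K := inferInstance
  have : IsDedekindDomain (integralClosure ℂ[X] K) :=
    integralClosure.isDedekindDomain ℂ[X] E K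
  have : IsFractionRing (integralClosure ℂ[X] K) K :=
    integralClosure.isFractionRing_of_finite_extension E K
  have hmap : algebraMap ℂ[X] K = (aeval (φ RatFunc.X) : ℂ[X] →ₐ[ℂ] K).toRingHom := by
    apply RingHom.ext
    intro p
    exact coord_poly φ p
  have hB : ∀ w : K, IsIntegral ℂ[X] w ↔ Integ (φ RatFunc.X) w := by
    intro w
    unfold IsIntegral Integ
    rw [hmap]
  have hnon : ∀ r : integralClosure ℂ[X] K,
      0 ≤ P.ord (algebraMap (integralClosure ℂ[X] K) K r) := by
    intro r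
    exact DInt_integ P hP ((hB _).mp r.2)
  obtain ⟨r, s, hs0, hs, hrs⟩ := exists_quot P hnon hu
  have hDr : 0 ≤ P.ord (D (algebraMap (integralClosure ℂ[X] K) K r)) :=
    DInt_integ P hP (h1 _ ((hB _).mp r.2))
  have hDs : 0 ≤ P.ord (D (algebraMap (integralClosure ℂ[X] K) K s)) :=
    DInt_integ P hP (h1 _ ((hB _).mp s.2))
  generalize algebraMap (integralClosure ℂ[X] K) K s = σ at *
  generalize algebraMap (integralClosure ℂ[X] K) K r = ρ at *
  have h3 : D ρ = u * D σ + σ * D u := by
    rw [← hrs, D.leibniz]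
    simp [smul_eq_mul]
  have h4 : D u = (D ρ - u * D σ) * σ⁻¹ := by
    rw [h3]
    field_simp
    ring
  rw [h4]
  refine P.ord_nonneg_mul (P.ord_nonneg_sub hDr (P.ord_nonneg_mul hu hDs)) ?_
  rw [P.ord_inv, hs, neg_zero]

/-- If `φ x` has no pole at `P`, then `P` is nonnegative on the integral closure `B` of `ℂ[φ x]`
and every `u` with `ord u ≥ 0` is a quotient of two elements of `B`, the denominator a unit at
`P` (`exists_quot`); the quotient rule.  If `φ x` has a pole, the same with `1 / φ x`, which is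
the coordinate `φ.comp invE`. -/
theorem dInt (φ : E →ₐ[ℂ] K) (hφ : FinC φ) (D : Derivation ℂ K K)
    (h1 : ∀ u, Integ (φ RatFunc.X) u → Integ (φ RatFunc.X) (D u))
    (h2 : ∀ u, Integ (φ RatFunc.X)⁻¹ u → Integ (φ RatFunc.X)⁻¹ (D u)) (P : Pl K) (u : K)
    (hu : 0 ≤ P.ord u) : 0 ≤ P.ord (D u) := by
  rcases le_or_gt 0 (P.ord (φ RatFunc.X)) with hP | hP
  · exact DInt_aux φ hφ D h1 P hP u hu
  · have hX : (φ.comp invE) RatFunc.X = (φ RatFunc.X)⁻¹ := by
      rw [AlgHom.comp_apply, invE_X, map_inv₀]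
    refine DInt_aux (φ.comp invE) (finC_comp hφ finC_invE) D ?_ P ?_ u hu
    · rw [hX]
      exact h2
    · rw [hX, P.ord_inv]
      omega

end WildS
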