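import Pool.Agent.helper44.Wild.Compose

/-!
# Places, coordinates, norms (helper21, MP_11236d_an)

`E = ℂ(x)`.  A coordinate of a field `K ⊇ ℂ` is a homomorphism `φ : E →ₐ[ℂ] K`; it is the same
thing as the nonconstant element `φ x` of `K`.  `Pl K` is the set of all places of `K`: the
surjective discrete valuations, trivial on `ℂ`.
-/

namespace WildS

open Polynomial WildRat

/-- The field `ℂ(x)`. -/
abbrev E : Type := RatFunc ℂ

/-- A place of `K`: a surjective discrete valuation, trivial on `ℂ`. -/
structure Pl (K : Type) [Field K] [Algebra ℂ K] where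
  v : Valuation K (WithZero (Multiplicative ℤ))
  surj : Function.Surjective v
  triv : ∀ c : ℂ, c ≠ 0 → v (algebraMap ℂ K c) = 1

variable {K : Type} [Field K] [Algebra ℂ K]

/-- The order of an element at a place (zero for the element `0`). -/
noncomputable def Pl.ord (P : Pl K) (u : K) : ℤ := - WithZero.log (P.v u)

/-- The coordinate is finite: `K` is a finite extension of `ℂ(φ x)`. -/
def FinC (φ : E →ₐ[ℂ] K) : Prop := φ.toRingHom.Finite

/-- The degree of a coordinate: `[K : ℂ(φ x)]`. -/
noncomputable def deg (φ : E →ₐ[ℂ] K) : ℕ :=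
  letI := φ.toRingHom.toAlgebra
  Module.finrank E K

/-- The norm from `K` to `E`. -/
noncomputable def nrm (φ : E →ₐ[ℂ] K) (u : K) : E :=
  letI := φ.toRingHom.toAlgebra
  Algebra.norm E u

/-- The minimal polynomial of `u` over `E`. -/
noncomputable def mu (φ : E →ₐ[ℂ] K) (u : K) : E[X] :=
  letI := φ.toRingHom.toAlgebra
  minpoly E u

/-- The places over the point `a` of the coordinate `φ`. -/
def fib (φ : E →ₐ[ℂ] K) (a : ℂ) : Set (Pl K) := {P | 0 < P.ord (φ RatFunc.X - algebraMap ℂ K a)}

/-- `u` is integral over `ℂ[z]`. -/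
def Integ (z u : K) : Prop := (aeval z : ℂ[X] →ₐ[ℂ] K).toRingHom.IsIntegralElem u

/-- `N(T) = (T - x) * μ(T)`, with `μ` the minimal polynomial of `ψ x` over `ℂ(φ x)`. -/
noncomputable def NN (φ ψ : E →ₐ[ℂ] K) : E[X] := (X - C RatFunc.X) * mu φ (ψ RatFunc.X)

/-- The element of `ℂ(x)` given by a rational function. -/
noncomputable def elt (A : RF) : E := A.app (RatFunc.X : E)

/-- What is used about a function field of genus at most one: all coordinates are finite, and the
Riemann-Hurwitz inequality. -/
structure Good (K : Type) [Field K] [Algebra ℂ K] : Prop where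
  fin : ∀ φ : E →ₐ[ℂ] K, FinC φ
  rh : ∀ (ψ : E →ₐ[ℂ] K) (T : Finset (Pl K)) (a : Pl K → ℂ), (∀ P ∈ T, P ∈ fib ψ (a P)) →
    ∑ P ∈ T, (P.ord (ψ RatFunc.X - algebraMap ℂ K (a P)) - 1) ≤ 2 * (deg ψ : ℤ)

/-- A normalised rational function with three simple critical values: `A(∞) = ∞`, infinity is
not a critical value, `c i` is a simple critical value with critical point `q i`. -/
structure Norm3 (A : RF) (c q : Fin 3 → ℂ) : Prop where
  monic : A.P.Monic
  lt : A.Q.natDegree < A.P.natDegree
  two : 2 ≤ A.P.natDegree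
  cinj : Function.Injective c
  qinj : Function.Injective q
  Qne : ∀ i, A.Q.eval (q i) ≠ 0
  val : ∀ i, A.P.eval (q i) = c i * A.Q.eval (q i)
  mult : ∀ i, (A.P - C (c i) * A.Q).rootMultiplicity (q i) = 2
  simple : ∀ i w, w ≠ q i → A.P.eval w = c i * A.Q.eval w →
    (A.P - C (c i) * A.Q).rootMultiplicity w = 1
  unram : ∀ z : P1, A.val z = none → A.e z = 1

end WildS
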