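import Pool.Agent.helper21.WS.RatOrd

/-! Degrees and norms. -/

namespace WildS

open Polynomial WildRat

variable {K : Type} [Field K] [Algebra ℂ K]

theorem Deg_tower {A B C : Type} [Field A] [Field B] [Field C] (f : A →+* B) (g : B →+* C) :
    (@Module.finrank A C _ _ (g.comp f).toAlgebra.toModule) =
      (@Module.finrank A B _ _ f.toAlgebra.toModule) *
        (@Module.finrank B C _ _ g.toAlgebra.toModule) := by
  let _ := f.toAlgebra
  let _ := g.toAlgebra
  let _ := (g.comp f).toAlgebra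
  have : IsScalarTower A B C := IsScalarTower.of_algebraMap_eq' rfl
  exact (Module.finrank_mul_finrank A B C).symm

theorem Deg_congr {A B C D : Type} [Field A] [Field B] [Field C] [Field D] (f : A →+* B)
    (g : C →+* D) (i : A ≃+* C) (j : B ≃+* D) (h : g.comp (i : A →+* C) = (j : B →+* D).comp f) :
    (@Module.finrank A B _ _ f.toAlgebra.toModule) =
      (@Module.finrank C D _ _ g.toAlgebra.toModule) := by
  let _ := f.toAlgebra
  let _ := g.toAlgebra
  exact Algebra.finrank_eq_of_equiv_equiv i j h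

theorem Deg_norm_congr {A B C D : Type} [Field A] [Field B] [Field C] [Field D] (f : A →+* B)
    (g : C →+* D) (i : A ≃+* C) (j : B ≃+* D) (h : g.comp (i : A →+* C) = (j : B →+* D).comp f)
    (u : B) :
    (@Algebra.norm A B _ _ f.toAlgebra) u =
      i.symm ((@Algebra.norm C D _ _ g.toAlgebra) (j u)) := by
  let _ := f.toAlgebra
  let _ := g.toAlgebra
  exact Algebra.norm_eq_of_equiv_equiv i j h u

theorem deg_pos {φ : E →ₐ[ℂ] K} (hφ : FinC φ) : 0 < deg φ := by
  unfold deg
  let _ := φ.toRingHom.toAlgebra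
  have : Module.Finite E K := hφ
  exact Module.finrank_pos

theorem deg_comp (φ : E →ₐ[ℂ] K) (α : E →ₐ[ℂ] E) : deg (φ.comp α) = deg α * deg φ :=
  Deg_tower α.toRingHom φ.toRingHom

theorem Deg_fieldRange (α : E →ₐ[ℂ] E) :
    α.fieldRange = IntermediateField.adjoin ℂ {α RatFunc.X} := by
  apply le_antisymm
  · rintro _ ⟨u, rfl⟩
    change α u ∈ _
    have hp : ∀ p : ℂ[X], aeval (α RatFunc.X) p ∈ IntermediateField.adjoin ℂ {α RatFunc.X} := by
      intro p
      exact IntermediateField.algebra_adjoin_le_adjoin ℂ _ (aeval_mem_adjoin_singleton ℂ _)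
    rw [← RatFunc.num_div_denom u, map_div₀, coord_poly, coord_poly]
    exact div_mem (hp _) (hp _)
  · rw [IntermediateField.adjoin_simple_le_iff]
    exact ⟨RatFunc.X, rfl⟩

/-- `RatFunc.finrank_eq_max_natDegree` -/
theorem deg_E (α : E →ₐ[ℂ] E) :
    deg α = max (α RatFunc.X).num.natDegree (α RatFunc.X).denom.natDegree := by
  rw [← RatFunc.finrank_eq_max_natDegree (α RatFunc.X)]
  exact Deg_congr α.toRingHom (algebraMap (IntermediateField.adjoin ℂ {α RatFunc.X}) E)
    (α.equivFieldRange.trans (IntermediateField.equivOfEq (Deg_fieldRange α))).toRingEquiv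
    (RingEquiv.refl E) (by
      ext u
      rfl)

/-- The degree of `A` as an element of `ℂ(x)`. -/
theorem deg_elt (A : RF) (hn : 1 ≤ A.n) (α : E →ₐ[ℂ] E) (h : α RatFunc.X = elt A) :
    deg α = A.n := by
  rw [deg_E, h]
  set f := elt A with hf
  have hQ : A.Q ≠ 0 := A.Q_ne_zero hn
  have h1 : algebraMap ℂ[X] E A.P * algebraMap ℂ[X] E f.denom =
      algebraMap ℂ[X] E f.num * algebraMap ℂ[X] E A.Q := by
    have h2 : algebraMap ℂ[X] E A.P / algebraMap ℂ[X] E A.Q =
        algebraMap ℂ[X] E f.num / algebraMap ℂ[X] E f.denom := by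
      rw [RatFunc.num_div_denom, hf, elt_eq]
    rwa [div_eq_div_iff (RatFunc.algebraMap_ne_zero hQ)
      (RatFunc.algebraMap_ne_zero f.denom_ne_zero)] at h2
  rw [← map_mul, ← map_mul] at h1
  have h2 : A.P * f.denom = f.num * A.Q := RatFunc.algebraMap_injective ℂ h1
  have hc := f.isCoprime_num_denom
  have a1 : A.P ∣ f.num := A.cop.dvd_of_dvd_mul_right (Dvd.intro _ h2)
  have a2 : f.num ∣ A.P := hc.dvd_of_dvd_mul_right (Dvd.intro _ h2.symm)
  have a3 : A.Q ∣ f.denom := A.cop.symm.dvd_of_dvd_mul_left (Dvd.intro_left _ h2.symm)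
  have a4 : f.denom ∣ A.Q := hc.symm.dvd_of_dvd_mul_left (Dvd.intro_left _ h2)
  have b1 : f.num.natDegree = A.P.natDegree :=
    natDegree_eq_natDegree (degree_eq_degree_of_associated (associated_of_dvd_dvd a2 a1))
  have b2 : f.denom.natDegree = A.Q.natDegree :=
    natDegree_eq_natDegree (degree_eq_degree_of_associated (associated_of_dvd_dvd a4 a3))
  rw [b1, b2]
  rfl

theorem finC_comp {φ : E →ₐ[ℂ] K} (hφ : FinC φ) {α : E →ₐ[ℂ] E} (hα : FinC α) :
    FinC (φ.comp α) :=
  RingHom.Finite.comp (g := φ.toRingHom) (f := α.toRingHom) hφ hα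

theorem finC_invE : FinC invE :=
  RingHom.Finite.of_surjective invE.toRingHom fun u => ⟨invE u, invE_invE u⟩

/-- The inversion as an equivalence. -/
noncomputable def Deg_inv : E ≃+* E where
  toFun := invE
  invFun := invE
  left_inv := invE_invE
  right_inv := invE_invE
  map_mul' := map_mul invE
  map_add' := map_add invE

theorem deg_comp_invE (φ : E →ₐ[ℂ] K) : deg (φ.comp invE) = deg φ :=
  Deg_congr (φ.comp invE).toRingHom φ.toRingHom Deg_inv (RingEquiv.refl K) (by
    ext u
    rfl)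

/-- `Algebra.norm_eq_of_equiv_equiv` -/
theorem nrm_comp_invE (φ : E →ₐ[ℂ] K) (u : K) : nrm (φ.comp invE) u = invE (nrm φ u) :=
  Deg_norm_congr (φ.comp invE).toRingHom φ.toRingHom Deg_inv (RingEquiv.refl K) (by
    ext u
    rfl) u

theorem nrm_ne_zero {φ : E →ₐ[ℂ] K} (hφ : FinC φ) {u : K} (hu : u ≠ 0) : nrm φ u ≠ 0 := by
  unfold nrm
  let _ := φ.toRingHom.toAlgebra
  have : Module.Finite E K := hφ
  exact Algebra.norm_ne_zero_iff.2 hu

theorem nrm_base (φ : E →ₐ[ℂ] K) (c : E) : nrm φ (φ c) = c ^ deg φ := by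
  unfold nrm deg
  let _ := φ.toRingHom.toAlgebra
  exact Algebra.norm_algebraMap c

/-- two coordinates with `A(φ x) = A(ψ x)` have the same degree -/
theorem deg_eq {φ ψ : E →ₐ[ℂ] K} (A : RF) (hn : 1 ≤ A.n) (h : φ (elt A) = ψ (elt A)) :
    deg φ = deg ψ := by
  obtain ⟨α, hα⟩ := exists_subst (elt_nonConst A hn)
  have h1 : φ.comp α = ψ.comp α := by
    apply coord_ext
    rw [AlgHom.comp_apply, AlgHom.comp_apply, hα, h]
  have h2 := deg_comp φ α
  rw [h1, deg_comp, deg_elt A hn α hα] at h2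
  exact (Nat.eq_of_mul_eq_mul_left (by omega) h2).symm

end WildS
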