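import Pool.Agent.helper21.WS.Fibre

/-! The pair of values `(φ x, ψ x)` at a place. -/

namespace WildS

open Polynomial WildRat

variable {K : Type} [Field K] [Algebra ℂ K]

/-- the order of `A - c` at the point `a` of `ℂ(x)` -/
theorem Pair_ord (A : RF) (hlt : A.Q.natDegree < A.P.natDegree) (a c : ℂ) :
    (elt A - algebraMap ℂ E c ≠ 0) ∧ A.P - C c * A.Q ≠ 0 ∧ A.Q ≠ 0 ∧
    elt A - algebraMap ℂ E c =
      algebraMap ℂ[X] E (A.P - C c * A.Q) / algebraMap ℂ[X] E A.Q ∧
    (plE a).ord (elt A - algebraMap ℂ E c) =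
      ((A.P - C c * A.Q).rootMultiplicity a : ℤ) - (A.Q.rootMultiplicity a : ℤ) := by
  have hn : 1 ≤ A.n := by
    unfold RF.n
    have := le_max_left A.P.natDegree A.Q.natDegree
    omega
  have hQ : A.Q ≠ 0 := A.Q_ne_zero hn
  have hG : A.P - C c * A.Q ≠ 0 := A.F_ne_zero hn (some c)
  have hinj : Function.Injective (algebraMap ℂ[X] E) := IsFractionRing.injective ℂ[X] E
  have hQ' : algebraMap ℂ[X] E A.Q ≠ 0 := by
    intro h
    exact hQ (hinj (by rw [h, map_zero]))
  have hG' : algebraMap ℂ[X] E (A.P - C c * A.Q) ≠ 0 := by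
    intro h
    exact hG (hinj (by rw [h, map_zero]))
  have heq : elt A - algebraMap ℂ E c =
      algebraMap ℂ[X] E (A.P - C c * A.Q) / algebraMap ℂ[X] E A.Q := by
    rw [elt_eq, algC_E, map_sub, map_mul, sub_div, mul_div_assoc, div_self hQ', mul_one]
  have hne : elt A - algebraMap ℂ E c ≠ 0 := by
    rw [heq]
    exact div_ne_zero hG' hQ'
  refine ⟨hne, hG, hQ, heq, ?_⟩
  rw [heq, (plE a).ord_div hG' hQ', plE_poly a hG, plE_poly a hQ]

/-- `A(∞) = ∞`.  If `φ x` has the value `a` at `P` with `A(a) = c` finite, then `ψ x` has a value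
`b` with `A(b) = c`, and `e_a ord (φ x - a) = e_b ord (ψ x - b)`: both sides are the order of
`A(φ x) - c = A(ψ x) - c`.  (`ord_coord` for the elements `elt A - c` and `A.Q`; a pole of `ψ x`
would be a pole of `A(ψ x)`.) -/
theorem place_pair (A : RF) (hlt : A.Q.natDegree < A.P.natDegree)
    {φ ψ : E →ₐ[ℂ] K} (hψ : FinC ψ) (h : φ (elt A) = ψ (elt A)) {P : Pl K} {a c : ℂ}
    (ha : P ∈ fib φ a) (hQ : A.Q.eval a ≠ 0) (hc : A.P.eval a = c * A.Q.eval a) :
    ∃ b, P ∈ fib ψ b ∧ A.Q.eval b ≠ 0 ∧ A.P.eval b = c * A.Q.eval b ∧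
      ((A.P - C c * A.Q).rootMultiplicity a : ℤ) * P.ord (φ RatFunc.X - algebraMap ℂ K a) =
        (A.P - C c * A.Q).rootMultiplicity b * P.ord (ψ RatFunc.X - algebraMap ℂ K b) := by
  obtain ⟨hne, hG, hQ0, heq, hord⟩ := Pair_ord A hlt a c
  have hcommon : φ (elt A - algebraMap ℂ E c) = ψ (elt A - algebraMap ℂ E c) := by
    rw [map_sub, map_sub, h, coord_C, coord_C]
  have hma : 0 < (A.P - C c * A.Q).rootMultiplicity a := by
    rw [rootMultiplicity_pos hG, IsRoot.def, eval_sub, eval_mul, eval_C, hc, sub_self]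
  have hqa : A.Q.rootMultiplicity a = 0 := by
    rw [rootMultiplicity_eq_zero_iff]
    intro hr
    exact absurd hr hQ
  have hφpos : 0 < P.ord (φ RatFunc.X - algebraMap ℂ K a) := ha
  have h1 : P.ord (φ (elt A - algebraMap ℂ E c)) =
      ((A.P - C c * A.Q).rootMultiplicity a : ℤ) * P.ord (φ RatFunc.X - algebraMap ℂ K a) := by
    rw [ord_coord ha hne, hord, hqa]
    simp
  have hpos : 0 < P.ord (ψ (elt A - algebraMap ℂ E c)) := by
    rw [← hcommon, h1]
    exact mul_pos (by exact_mod_cast hma) hφpos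
  have hnn : 0 ≤ P.ord (ψ RatFunc.X) := by
    by_contra hneg
    push Not at hneg
    have hinj : Function.Injective (algebraMap ℂ[X] E) := IsFractionRing.injective ℂ[X] E
    have hQ' : ψ (algebraMap ℂ[X] E A.Q) ≠ 0 := by
      intro h0
      apply hQ0
      apply hinj
      rw [map_zero]
      exact coord_inj ψ (by rw [h0, map_zero])
    have hG' : ψ (algebraMap ℂ[X] E (A.P - C c * A.Q)) ≠ 0 := by
      intro h0
      apply hG
      apply hinj
      rw [map_zero]
      exact coord_inj ψ (by rw [h0, map_zero])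
    have hdeg : (A.P - C c * A.Q).natDegree = A.P.natDegree := by
      apply natDegree_sub_eq_left_of_natDegree_lt
      exact lt_of_le_of_lt (natDegree_C_mul_le c A.Q) hlt
    rw [heq, map_div₀, P.ord_div hG' hQ', ord_coord_pole hneg hG, ord_coord_pole hneg hQ0,
      hdeg] at hpos
    have hlt' : (A.Q.natDegree : ℤ) < A.P.natDegree := by exact_mod_cast hlt
    nlinarith
  obtain ⟨b, hb⟩ := exists_value ψ hψ P hnn
  obtain ⟨-, -, -, -, hordb⟩ := Pair_ord A hlt b c
  have hψpos : 0 < P.ord (ψ RatFunc.X - algebraMap ℂ K b) := hb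
  have h2 : P.ord (ψ (elt A - algebraMap ℂ E c)) =
      (((A.P - C c * A.Q).rootMultiplicity b : ℤ) - (A.Q.rootMultiplicity b : ℤ)) *
        P.ord (ψ RatFunc.X - algebraMap ℂ K b) := by
    rw [ord_coord hb hne, hordb]
  have h3 : (A.Q.rootMultiplicity b : ℤ) < (A.P - C c * A.Q).rootMultiplicity b := by
    by_contra hcon
    push Not at hcon
    rw [h2] at hpos
    have : (((A.P - C c * A.Q).rootMultiplicity b : ℤ) - (A.Q.rootMultiplicity b : ℤ)) *
        P.ord (ψ RatFunc.X - algebraMap ℂ K b) ≤ 0 :=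
      mul_nonpos_of_nonpos_of_nonneg (by linarith) hψpos.le
    linarith
  have hmb : 0 < (A.P - C c * A.Q).rootMultiplicity b := by omega
  have hroot : A.P.eval b = c * A.Q.eval b := by
    have := (rootMultiplicity_pos hG).mp hmb
    rw [IsRoot.def, eval_sub, eval_mul, eval_C] at this
    linear_combination this
  have hQb : A.Q.eval b ≠ 0 := by
    intro h0
    rw [h0, mul_zero] at hroot
    obtain ⟨u, v, huv⟩ := A.cop
    have := congrArg (eval b) huv
    rw [eval_add, eval_mul, eval_mul, h0, hroot, mul_zero, mul_zero, add_zero, eval_one] at this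
    exact zero_ne_one this
  have hqb : A.Q.rootMultiplicity b = 0 := by
    rw [rootMultiplicity_eq_zero_iff]
    intro hr
    exact absurd hr hQb
  refine ⟨b, hb, hQb, hroot, ?_⟩
  rw [← h1, hcommon, h2, hqb]
  simp

end WildS
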