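import Pool.Agent.helper21.WS.Gauss
import Pool.Agent.helper21.WS.Pair

/-! The component has degree at least two. -/

namespace WildS

open Polynomial WildRat

variable {K : Type} [Field K] [Algebra ℂ K]

theorem DegOne_root (φ : E →ₐ[ℂ] K) (u : K) (hm : (mu φ u).Monic)
    (h1 : (mu φ u).natDegree = 1) : ∃ r : E, u = φ r := by
  letI := φ.toRingHom.toAlgebra
  have h2 : (mu φ u) = X + C ((mu φ u).coeff 0) := hm.eq_X_add_C h1
  have h3 : aeval u (mu φ u) = 0 := minpoly.aeval E u
  rw [h2, map_add, aeval_X, aeval_C] at h3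
  refine ⟨-(mu φ u).coeff 0, ?_⟩
  rw [map_neg]
  exact eq_neg_of_add_eq_zero_left h3

theorem DegOne_ord {r : E} {a b : ℂ} (hrb : r ≠ algebraMap ℂ E b) :
    r.num - C b * r.denom ≠ 0 ∧ (plE a).ord (r - algebraMap ℂ E b) =
      ((r.num - C b * r.denom).rootMultiplicity a : ℤ) - (r.denom.rootMultiplicity a : ℤ) := by
  have hd : r.denom ≠ 0 := RatFunc.denom_ne_zero r
  have hd' : algebraMap ℂ[X] E r.denom ≠ 0 := RatFunc.algebraMap_ne_zero hd
  have he : r - algebraMap ℂ E b =
      algebraMap ℂ[X] E (r.num - C b * r.denom) / algebraMap ℂ[X] E r.denom := by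
    rw [map_sub, map_mul, ← algC_E, sub_div, mul_div_assoc, div_self hd', mul_one,
      RatFunc.num_div_denom]
  have hn : r.num - C b * r.denom ≠ 0 := by
    intro h0
    rw [h0, map_zero, zero_div] at he
    exact hrb (sub_eq_zero.1 he)
  refine ⟨hn, ?_⟩
  rw [he, (plE a).ord_div (RatFunc.algebraMap_ne_zero hn) hd', plE_poly a hn, plE_poly a hd]

/-- If `d = 1` then `ψ x = φ r` with `r ∈ ℂ(x)`, and `ψ = φ.comp α` with `α x = r`,
so `deg α = 1` (`deg_comp`, `deg_eq`) and `r` has numerator and denominator of degree at most one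
(`deg_E`).  Let `P` be a place over `q i` for `φ`.  `num(φ x) = ψ x * denom(φ x)`, so
`denom(q i) ≠ 0` and, with `b` the value of `ψ x` (`place_pair`), `num - b denom` (degree at most
one, not zero) vanishes at `q i` and `ord (ψ x - b) = ord (φ x - q i)`.  If `b ≠ q i` then
`place_pair` gives `ord (ψ x - b) = 2 ord (φ x - q i)`, a contradiction.  So `b = q i` for
`i = 0, 1, 2`: the polynomial `num - X * denom` of degree at most two has three roots, hence
`r = x` and `φ = ψ`. -/
theorem deg_ne_one (hK : Good K) {A : RF} {c q : Fin 3 → ℂ} (hA : Norm3 A c q)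
    {φ ψ : E →ₐ[ℂ] K} (hne : φ ≠ ψ) (h : φ (elt A) = ψ (elt A)) :
    (mu φ (ψ RatFunc.X)).natDegree ≠ 1 := by
  intro h1
  have hφ := hK.fin φ
  have hψ := hK.fin ψ
  have hn : 1 ≤ A.n := by
    have h2 := hA.two
    have h3 : A.P.natDegree ≤ A.n := le_max_left _ _
    omega
  obtain ⟨r, hr⟩ := DegOne_root φ (ψ RatFunc.X) (mu_pos φ hφ _).1 h1
  have hrN : NonConst r := by
    intro b hb
    rw [hb, coord_C] at hr
    exact coord_nonConst ψ b hr
  obtain ⟨α, hα⟩ := exists_subst hrN
  have hψα : ψ = φ.comp α := by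
    apply coord_ext
    rw [hr, AlgHom.comp_apply, hα]
  have hdα : deg α = 1 := by
    have e1 := deg_eq A hn h
    rw [hψα, deg_comp] at e1
    have e2 := deg_pos hφ
    have e3 : deg φ * 1 = deg φ * deg α := by rw [mul_one, mul_comm]; exact e1
    exact (Nat.eq_of_mul_eq_mul_left e2 e3).symm
  rw [deg_E, hα] at hdα
  have hnum : r.num.natDegree ≤ 1 := hdα ▸ le_max_left _ _
  have hden : r.denom.natDegree ≤ 1 := hdα ▸ le_max_right _ _
  have key : ∀ i, (r.num - X * r.denom).eval (q i) = 0 := by
    intro i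
    have hs := sum_self φ hφ (q i)
    have hfne : (fibS φ hφ (q i)).Nonempty := by
      rw [Finset.nonempty_iff_ne_empty]
      intro h0
      rw [h0, Finset.sum_empty] at hs
      have := deg_pos hφ
      omega
    obtain ⟨P, hP⟩ := hfne
    have hP' : P ∈ fib φ (q i) := mem_fibS.1 hP
    obtain ⟨b, hPb, hQb, hPb', hmul⟩ := place_pair A hA.lt hψ h hP' (hA.Qne i) (hA.val i)
    have hm0 : 0 < P.ord (φ RatFunc.X - algebraMap ℂ K (q i)) := hP'
    have hb0 : 0 < P.ord (ψ RatFunc.X - algebraMap ℂ K b) := hPb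
    have hrb : r ≠ algebraMap ℂ E b := hrN b
    obtain ⟨hF, hord⟩ := DegOne_ord (a := q i) hrb
    have h2 : P.ord (ψ RatFunc.X - algebraMap ℂ K b) =
        (plE (q i)).ord (r - algebraMap ℂ E b) *
          P.ord (φ RatFunc.X - algebraMap ℂ K (q i)) := by
      rw [← ord_coord hP' (sub_ne_zero.2 hrb), map_sub, coord_C, ← hr]
    have hle : (r.num - C b * r.denom).rootMultiplicity (q i) ≤ 1 := by
      rw [← count_roots]
      refine (Multiset.count_le_card _ _).trans ((card_roots' _).trans ?_)
      refine (natDegree_sub_le _ _).trans (max_le hnum ?_)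
      exact (natDegree_C_mul_le _ _).trans hden
    have hbq : b = q i := by
      by_contra hne'
      rw [hA.mult i, hA.simple i b hne' hPb'] at hmul
      rw [h2] at hmul
      have h3 : (2 : ℤ) = (plE (q i)).ord (r - algebraMap ℂ E b) := by
        have h4 : (2 : ℤ) * P.ord (φ RatFunc.X - algebraMap ℂ K (q i)) =
            (plE (q i)).ord (r - algebraMap ℂ E b) *
              P.ord (φ RatFunc.X - algebraMap ℂ K (q i)) := by
          have h5 := hmul
          push_cast at h5
          linarith
        exact mul_right_cancel₀ hm0.ne' h4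
      omega
    have hpos : 0 < (plE (q i)).ord (r - algebraMap ℂ E b) := by
      rw [h2] at hb0
      exact (mul_pos_iff_of_pos_right hm0).1 hb0
    have hroot : (r.num - C b * r.denom).IsRoot (q i) := by
      rw [← rootMultiplicity_pos hF]
      omega
    have h6 : (r.num - C b * r.denom).eval (q i) = 0 := hroot
    rw [eval_sub, eval_mul, eval_C, hbq] at h6
    rw [eval_sub, eval_mul, eval_X]
    exact h6
  have hzero : r.num - X * r.denom = 0 := by
    apply eq_zero_of_natDegree_lt_card_of_eval_eq_zero _ hA.qinj key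
    rw [Fintype.card_fin]
    have h7 : (X * r.denom).natDegree ≤ 2 := by
      refine natDegree_mul_le.trans ?_
      rw [natDegree_X]
      omega
    have h8 := natDegree_sub_le r.num (X * r.denom)
    have h9 : max r.num.natDegree (X * r.denom).natDegree ≤ 2 := max_le (by omega) h7
    omega
  have hrX : r = RatFunc.X := by
    have hd' : algebraMap ℂ[X] E r.denom ≠ 0 :=
      RatFunc.algebraMap_ne_zero (RatFunc.denom_ne_zero r)
    rw [← RatFunc.num_div_denom r, sub_eq_zero.1 hzero, map_mul, RatFunc.algebraMap_X,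
      mul_div_assoc, div_self hd', mul_one]
  apply hne
  apply coord_ext
  rw [hr, hrX]

end WildS
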