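import Pool.Agent.helper21.WS.Norm
import Pool.Agent.helper21.WS.Deg

/-! Values of a coordinate and sums over its fibres. -/

namespace WildS

open Polynomial WildRat

variable {K : Type} [Field K] [Algebra ℂ K]

/-- order of a polynomial in `x`, from its roots -/
theorem Fibre_poly (P : Pl K) (x : K) (e : ℂ → ℤ) (hne : ∀ b : ℂ, x - algebraMap ℂ K b ≠ 0)
    (he : ∀ b : ℂ, P.ord (x - algebraMap ℂ K b) = e b) {p : ℂ[X]} (hp : p ≠ 0) :
    P.ord (aeval x p) = (p.roots.map e).sum := by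
  have h1 : ∀ s : Multiset ℂ, (s.map fun b => x - algebraMap ℂ K b).prod ≠ 0 ∧
      P.ord (s.map fun b => x - algebraMap ℂ K b).prod = (s.map e).sum := by
    intro s
    induction s using Multiset.induction_on with
    | empty =>
      refine ⟨?_, ?_⟩
      · rw [Multiset.map_zero, Multiset.prod_zero]
        exact one_ne_zero
      · rw [Multiset.map_zero, Multiset.prod_zero, Multiset.map_zero, Multiset.sum_zero, P.ord_one]
    | cons b s ih =>
      refine ⟨?_, ?_⟩
      · rw [Multiset.map_cons, Multiset.prod_cons]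
        exact mul_ne_zero (hne b) ih.1
      · rw [Multiset.map_cons, Multiset.prod_cons, Multiset.map_cons, Multiset.sum_cons,
          P.ord_mul (hne b) ih.1, ih.2, he b]
  have h2 : aeval x p = algebraMap ℂ K p.leadingCoeff *
      (p.roots.map fun b => x - algebraMap ℂ K b).prod := by
    conv_lhs => rw [(IsAlgClosed.splits p).eq_prod_roots]
    rw [map_mul, aeval_C, map_multiset_prod, Multiset.map_map]
    congr 2
    apply Multiset.map_congr rfl
    intro b _
    simp
  have h3 : algebraMap ℂ K p.leadingCoeff ≠ 0 := by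
    rw [Ne, map_eq_zero]
    exact leadingCoeff_ne_zero.2 hp
  rw [h2, P.ord_mul h3 (h1 _).1, P.ord_C, (h1 _).2, zero_add]

/-- a rational function as a quotient -/
theorem Fibre_quot {φ : E →ₐ[ℂ] K} (P : Pl K) {c : E} (hc : c ≠ 0) :
    P.ord (φ c) = P.ord (φ (algebraMap ℂ[X] E c.num)) - P.ord (φ (algebraMap ℂ[X] E c.denom)) := by
  have h1 : algebraMap ℂ[X] E c.num ≠ 0 := by
    rw [Ne, FaithfulSMul.algebraMap_eq_zero_iff]
    exact RatFunc.num_ne_zero hc
  have h2 : algebraMap ℂ[X] E c.denom ≠ 0 := by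
    rw [Ne, FaithfulSMul.algebraMap_eq_zero_iff]
    exact RatFunc.denom_ne_zero c
  have h3 : φ (algebraMap ℂ[X] E c.num) ≠ 0 := fun h => h1 (coord_inj φ (by rw [h, map_zero]))
  have h4 : φ (algebraMap ℂ[X] E c.denom) ≠ 0 := fun h => h2 (coord_inj φ (by rw [h, map_zero]))
  conv_lhs => rw [← RatFunc.num_div_denom c]
  rw [map_div₀, P.ord_div h3 h4]

/-- At a place a coordinate has a pole or a value in `ℂ`: if it has no pole then the place is
nonnegative on the integral closure `B` of `ℂ[φ x]`, so it comes from a maximal ideal of `B`,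
which lies over some `(X - C a)`. -/
theorem exists_value (φ : E →ₐ[ℂ] K) (hφ : FinC φ) (P : Pl K) (h : 0 ≤ P.ord (φ RatFunc.X)) :
    ∃ a, P ∈ fib φ a := by
  by_contra hno
  push Not at hno
  have h0 : ∀ a : ℂ, P.ord (φ RatFunc.X - algebraMap ℂ K a) = 0 := by
    intro a
    have h1 : ¬ 0 < P.ord (φ RatFunc.X - algebraMap ℂ K a) := hno a
    have h2 : 0 ≤ P.ord (φ RatFunc.X - algebraMap ℂ K a) :=
      P.ord_nonneg_sub h (by rw [P.ord_C])
    omega
  have hpoly : ∀ p : ℂ[X], p ≠ 0 → P.ord (φ (algebraMap ℂ[X] E p)) = 0 := by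
    intro p hp
    rw [coord_poly, Fibre_poly P (φ RatFunc.X) (fun _ => 0) (coord_sub_ne φ) h0 hp]
    simp
  have hall : ∀ c : E, 0 ≤ P.ord (φ c) := by
    intro c
    by_cases hc : c = 0
    · rw [hc, map_zero, P.ord_zero]
    · rw [Fibre_quot P hc, hpoly _ (RatFunc.num_ne_zero hc), hpoly _ (RatFunc.denom_ne_zero c)]
      simp
  -- the valuation ring is integrally closed
  obtain ⟨t, ht0, ht1⟩ := P.exists_unif
  have hint : φ.toRingHom.IsIntegralElem t⁻¹ := hφ.to_isIntegral t⁻¹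
  obtain ⟨p, hp, hpt⟩ := hint
  let ψ : E →+* P.v.integer := φ.toRingHom.codRestrict P.v.integer fun c =>
    (P.ord_nonneg_iff (φ c)).1 (hall c)
  have hI : IsIntegral P.v.integer t⁻¹ := by
    refine ⟨p.map ψ, hp.map ψ, ?_⟩
    rw [eval₂_map]
    exact hpt
  have hmem : t⁻¹ ∈ P.v.integer := (Valuation.integer.integers P.v).mem_of_integral hI
  have h3 : P.v t⁻¹ ≤ 1 := hmem
  have h4 := (P.ord_nonneg_iff t⁻¹).2 h3
  rw [P.ord_inv, ht1] at h4
  omega

theorem mem_fib_inv (φ : E →ₐ[ℂ] K) (P : Pl K) :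
    P ∈ fib (φ.comp invE) 0 ↔ P.ord (φ RatFunc.X) < 0 := by
  have h1 : (φ.comp invE) RatFunc.X = (φ RatFunc.X)⁻¹ := by
    rw [AlgHom.comp_apply, invE_X, map_inv₀]
  have h2 : P ∈ fib (φ.comp invE) 0 ↔
      0 < P.ord ((φ.comp invE) RatFunc.X - algebraMap ℂ K 0) := Iff.rfl
  rw [h2, h1, map_zero, sub_zero, P.ord_inv]
  omega

/-- norm formula for `u = φ x - a`, whose norm is `(x - a) ^ deg` -/
theorem sum_self (φ : E →ₐ[ℂ] K) (hφ : FinC φ) (a : ℂ) :
    ∑ P ∈ fibS φ hφ a, P.ord (φ RatFunc.X - algebraMap ℂ K a) = deg φ := by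
  rw [sum_fibS φ hφ a (coord_sub_ne φ a)]
  have h1 : φ RatFunc.X - algebraMap ℂ K a = φ (algebraMap ℂ[X] E (X - C a)) := by
    rw [coord_poly]
    simp
  rw [h1, nrm_base, (plE a).ord_pow, plE_poly a (X_sub_C_ne_zero a),
    rootMultiplicity_X_sub_C_self]
  simp

theorem sum_poles (φ : E →ₐ[ℂ] K) (hφ : FinC φ) (h : FinC (φ.comp invE)) :
    ∑ P ∈ fibS (φ.comp invE) h 0, P.ord (φ RatFunc.X) = - (deg φ : ℤ) := by
  rw [← deg_comp_invE, ← sum_self (φ.comp invE) h 0, ← Finset.sum_neg_distrib]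
  apply Finset.sum_congr rfl
  intro P _
  have h1 : (φ.comp invE) RatFunc.X = (φ RatFunc.X)⁻¹ := by
    rw [AlgHom.comp_apply, invE_X, map_inv₀]
  rw [h1, map_zero, sub_zero, P.ord_inv, neg_neg]

/-- the order of an element of `ℂ(φ x)` -/
theorem ord_coord {φ : E →ₐ[ℂ] K} {P : Pl K} {a : ℂ} (ha : P ∈ fib φ a) {c : E} (hc : c ≠ 0) :
    P.ord (φ c) = (plE a).ord c * P.ord (φ RatFunc.X - algebraMap ℂ K a) := by
  classical
  have ha' : 0 < P.ord (φ RatFunc.X - algebraMap ℂ K a) := ha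
  set m := P.ord (φ RatFunc.X - algebraMap ℂ K a) with hm
  have he : ∀ b : ℂ, P.ord (φ RatFunc.X - algebraMap ℂ K b) = if b = a then m else 0 := by
    intro b
    by_cases hb : b = a
    · rw [if_pos hb, hb]
    · rw [if_neg hb]
      exact (P.ord_sub_of_ne ha' (Ne.symm hb)).2
  have hsum : ∀ s : Multiset ℂ, (s.map fun b => if b = a then m else 0).sum = s.count a * m := by
    intro s
    induction s using Multiset.induction_on with
    | empty => simp
    | cons b s ih =>
      rw [Multiset.map_cons, Multiset.sum_cons, ih, Multiset.count_cons]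
      by_cases hb : b = a
      · rw [if_pos hb, if_pos hb.symm]
        push_cast
        ring
      · rw [if_neg hb, if_neg (Ne.symm hb)]
        simp
  have hpoly : ∀ p : ℂ[X], p ≠ 0 →
      P.ord (φ (algebraMap ℂ[X] E p)) = (plE a).ord (algebraMap ℂ[X] E p) * m := by
    intro p hp
    rw [coord_poly, Fibre_poly P (φ RatFunc.X) _ (coord_sub_ne φ) he hp, hsum, plE_poly a hp,
      count_roots]
  rw [Fibre_quot P hc, hpoly _ (RatFunc.num_ne_zero hc), hpoly _ (RatFunc.denom_ne_zero c),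
    ← sub_mul]
  congr 1
  have h2 := Fibre_quot (φ := AlgHom.id ℂ E) (plE a) hc
  simp only [AlgHom.id_apply] at h2
  exact h2.symm

/-- the order of a polynomial in `φ x` at a pole of `φ x` -/
theorem ord_coord_pole {φ : E →ₐ[ℂ] K} {P : Pl K} (h : P.ord (φ RatFunc.X) < 0) {p : ℂ[X]}
    (hp : p ≠ 0) :
    P.ord (φ (algebraMap ℂ[X] E p)) = p.natDegree * P.ord (φ RatFunc.X) := by
  rw [coord_poly, Fibre_poly P (φ RatFunc.X) (fun _ => P.ord (φ RatFunc.X)) (coord_sub_ne φ)
    (fun b => (P.ord_sub_of_pole h b).2) hp, Multiset.map_const', Multiset.sum_replicate,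
    ← (IsAlgClosed.splits p).natDegree_eq_card_roots, nsmul_eq_mul]

end WildS
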