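import Pool.Agent.helper21.WS.Coord

/-! One finite coordinate makes all coordinates finite. -/

namespace WildS

open Polynomial WildRat

variable {K : Type} [Field K] [Algebra ℂ K]

theorem Finite_essE : Algebra.EssFiniteType ℂ E := by
  have : Algebra.EssFiniteType ℂ[X] E :=
    Algebra.EssFiniteType.of_isLocalization E (nonZeroDivisors ℂ[X])
  exact Algebra.EssFiniteType.comp ℂ ℂ[X] E

/-- `K` has transcendence degree one over `ℂ` and is finitely generated; `ψ x` is transcendental,
so `K` is algebraic over `ℂ(ψ x)` and finitely generated as a field, hence finite.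
(A direct way: `ψ x` is algebraic over `ℂ(φ x)`; the relation has coefficients in `ℂ[φ x]` and
makes `φ x` algebraic over `ℂ(ψ x)`, because `ψ x` is transcendental over `ℂ`.) -/
theorem finC_all (φ : E →ₐ[ℂ] K) (hφ : FinC φ) (ψ : E →ₐ[ℂ] K) : FinC ψ := by
  have := Finite_essE
  have h0 : Algebra.trdeg ℂ K = Algebra.trdeg ℂ E ∧ Algebra.EssFiniteType ℂ K := by
    let := φ.toRingHom.toAlgebra
    have : IsScalarTower ℂ E K := IsScalarTower.of_algebraMap_eq fun c => (φ.commutes c).symm
    have : Module.Finite E K := hφ
    constructor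
    · have h5 : Algebra.trdeg E K = 0 := trdeg_eq_zero_iff.2 inferInstance
      rw [← trdeg_add_eq ℂ E (A := K), h5, add_zero]
    · exact Algebra.EssFiniteType.comp ℂ E K
  obtain ⟨h1, h2⟩ := h0
  show ψ.toRingHom.Finite
  let := ψ.toRingHom.toAlgebra
  have : IsScalarTower ℂ E K := IsScalarTower.of_algebraMap_eq fun c => (ψ.commutes c).symm
  have h3 : Algebra.trdeg E K = 0 := by
    have h4 := trdeg_add_eq ℂ E (A := K)
    rw [h1] at h4
    exact Cardinal.eq_of_add_eq_add_left (by rwa [add_zero]) (trdeg_lt_aleph0 ℂ E)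
  have : Algebra.IsAlgebraic E K := trdeg_eq_zero_iff.1 h3
  have : Algebra.EssFiniteType E K := Algebra.EssFiniteType.of_comp ℂ E K
  obtain ⟨s, hs⟩ := IntermediateField.fg_top E K
  have hfin : FiniteDimensional E (IntermediateField.adjoin E (s : Set K)) :=
    IntermediateField.finiteDimensional_adjoin fun x _ => Algebra.IsIntegral.isIntegral x
  rw [hs] at hfin
  exact Module.Finite.equiv (IntermediateField.topEquiv (F := E) (E := K)).toLinearEquiv

end WildS
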