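import Pool.Agent.helper21.WS.MuNorm

/-! `(T - x) μ(T)` divides `P(T) - A(x) Q(T)`; bounds for the order of `μ(b)`. -/

namespace WildS

open Polynomial WildRat

variable {K : Type} [Field K] [Algebra ℂ K]

/-- The polynomial `P(T) - A(x) Q(T)` over `ℂ(x)`. -/
noncomputable def GG (A : RF) : E[X] :=
  A.P.map (algebraMap ℂ E) - C (elt A) * A.Q.map (algebraMap ℂ E)

theorem GG_eval (A : RF) (b : ℂ) : (GG A).eval (algebraMap ℂ E b) =
    algebraMap ℂ E (A.P.eval b) - elt A * algebraMap ℂ E (A.Q.eval b) := by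
  unfold GG
  rw [eval_sub, eval_mul, eval_C, eval_map, eval_map, eval₂_at_apply, eval₂_at_apply]

/-- `GG A` is not zero -/
theorem Gauss_GG_ne (A : RF) (hn : 1 ≤ A.n) : GG A ≠ 0 := by
  intro h0
  have hQ := A.Q_ne_zero hn
  have hlc : A.Q.leadingCoeff ≠ 0 := leadingCoeff_ne_zero.2 hQ
  have h1 := congrArg (fun F : E[X] => F.coeff A.Q.natDegree) h0
  simp only [GG, coeff_sub, coeff_C_mul, coeff_map, coeff_zero] at h1
  apply elt_nonConst A hn (A.P.coeff A.Q.natDegree / A.Q.leadingCoeff)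
  rw [map_div₀, eq_div_iff (by rwa [Ne, map_eq_zero])]
  exact (sub_eq_zero.1 h1).symm

/-- two different monic irreducible polynomials are coprime -/
theorem Gauss_coprime {F : E[X]} (hF : Irreducible F) (hm : F.Monic) (z : E)
    (hne : (X - C z : E[X]) ≠ F) : IsCoprime (X - C z : E[X]) F := by
  refine (Irreducible.coprime_iff_not_dvd (R := (RatFunc ℂ)[X]) (irreducible_X_sub_C z)).2 ?_
  intro hd
  exact hne (eq_of_monic_of_associated (monic_X_sub_C _) hm
    ((irreducible_X_sub_C z).associated_of_dvd hF hd))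

/-- both `φ x` and `ψ x` are roots of `GG A` -/
theorem NN_dvd (A : RF) (hn : 1 ≤ A.n) {φ ψ : E →ₐ[ℂ] K} (hne : φ ≠ ψ)
    (h : φ (elt A) = ψ (elt A)) : NN φ ψ ∣ GG A := by
  have hQE : algebraMap ℂ[X] E A.Q ≠ 0 := by
    rw [Ne, map_eq_zero_iff _ (RatFunc.algebraMap_injective ℂ)]
    exact A.Q_ne_zero hn
  have hx0 : algebraMap ℂ[X] E A.P = elt A * algebraMap ℂ[X] E A.Q := by
    rw [elt_eq, div_mul_cancel₀ _ hQE]
  -- `x` is a root
  have hx : (X - C RatFunc.X : E[X]) ∣ GG A := by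
    rw [dvd_iff_isRoot, IsRoot.def]
    unfold GG
    rw [eval_sub, eval_mul, eval_C, eval_map, eval_map]
    have e1 : ∀ p : ℂ[X], eval₂ (algebraMap ℂ E) RatFunc.X p = algebraMap ℂ[X] E p := fun p => by
      rw [← aeval_X_E]
      rfl
    rw [e1, e1, hx0, sub_self]
  let _ := φ.toRingHom.toAlgebra
  have halg : ∀ u : E, algebraMap E K u = φ u := fun u => rfl
  -- `ψ x` is a root
  have hy : aeval (ψ RatFunc.X) (GG A) = 0 := by
    unfold GG
    rw [map_sub, map_mul, aeval_C, halg, h]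
    have e2 : ∀ p : ℂ[X], aeval (R := E) (ψ RatFunc.X) (p.map (algebraMap ℂ E)) =
        ψ (algebraMap ℂ[X] E p) := fun p => by
      rw [coord_poly, aeval_def, eval₂_map, aeval_def]
      congr 1
      ext c
      exact φ.commutes c
    rw [e2, e2, hx0, map_mul, sub_self]
  have hmu : mu φ (ψ RatFunc.X) ∣ GG A := minpoly.dvd E _ hy
  have hint : IsIntegral E (ψ RatFunc.X) := by
    have : IsAlgebraic E (ψ RatFunc.X) := ⟨GG A, Gauss_GG_ne A hn, hy⟩
    exact this.isIntegral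
  have hirr : Irreducible (mu φ (ψ RatFunc.X)) := minpoly.irreducible hint
  have hcop : IsCoprime (X - C RatFunc.X : E[X]) (mu φ (ψ RatFunc.X)) := by
    refine Gauss_coprime hirr (minpoly.monic hint) _ fun heq => ?_
    have h1 : aeval (R := E) (ψ RatFunc.X) (X - C RatFunc.X : E[X]) = 0 := by
      rw [heq]
      exact minpoly.aeval E _
    rw [map_sub, aeval_X, aeval_C, halg, sub_eq_zero] at h1
    exact coord_ne hne h1.symm
  exact hcop.mul_dvd hx hmu

/-- Gauss: a monic divisor over `ℂ(x)` of a monic polynomial with coefficients of nonnegative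
order at `a` has coefficients of nonnegative order at `a` (the valuation ring is integrally closed:
`IsIntegrallyClosed.eq_map_mul_C_of_dvd` for `(plE a).v.valuationSubring`). -/
theorem gauss (a : ℂ) {F G : E[X]} (hF : F.Monic) (hG : G.Monic) (hd : G ∣ F)
    (hc : ∀ i, 0 ≤ (plE a).ord (F.coeff i)) : ∀ i, 0 ≤ (plE a).ord (G.coeff i) := by
  have hmem : ∀ u : E, 0 ≤ (plE a).ord u ↔ u ∈ (plE a).v.valuationSubring := fun u => by
    rw [Pl.ord_nonneg_iff, Valuation.mem_valuationSubring_iff]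
  have hlift : F ∈ lifts (algebraMap (plE a).v.valuationSubring E) := by
    rw [lifts_iff_coeff_lifts]
    intro i
    exact ⟨⟨F.coeff i, (hmem _).1 (hc i)⟩, rfl⟩
  obtain ⟨f, hf, _, hfm⟩ := lifts_and_natDegree_eq_and_monic hlift hF
  rw [← hf] at hd
  obtain ⟨g, hg⟩ := IsIntegrallyClosed.eq_map_mul_C_of_dvd E hfm hd
  rw [hG.leadingCoeff, C_1, mul_one] at hg
  intro i
  rw [← hg, coeff_map, hmem]
  exact (g.coeff i).2

/-- order of `GG A` at a constant: if `b` lies in the fibre of `a` then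
`ord_a (GG A)(b)` is the multiplicity of `a` -/
theorem ord_GG (A : RF) (hn : 1 ≤ A.n) {a b c : ℂ} (ha : A.P.eval a = c * A.Q.eval a)
    (hQa : A.Q.eval a ≠ 0) (hb : A.P.eval b = c * A.Q.eval b) (hQb : A.Q.eval b ≠ 0) :
    (GG A).eval (algebraMap ℂ E b) ≠ 0 ∧ (plE a).ord ((GG A).eval (algebraMap ℂ E b)) =
      (A.P - C c * A.Q).rootMultiplicity a := by
  have hQ := A.Q_ne_zero hn
  have hF : A.P - C c * A.Q ≠ 0 := A.F_ne_zero hn (some c)
  have hQE : algebraMap ℂ[X] E A.Q ≠ 0 := by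
    rw [Ne, map_eq_zero_iff _ (RatFunc.algebraMap_injective ℂ)]
    exact hQ
  have hFE : algebraMap ℂ[X] E (A.P - C c * A.Q) ≠ 0 := by
    rw [Ne, map_eq_zero_iff _ (RatFunc.algebraMap_injective ℂ)]
    exact hF
  have hval : (GG A).eval (algebraMap ℂ E b) = algebraMap ℂ E (-A.Q.eval b) *
      (algebraMap ℂ[X] E (A.P - C c * A.Q) / algebraMap ℂ[X] E A.Q) := by
    rw [GG_eval, elt_eq, hb, map_mul, map_sub, map_mul, ← algC_E, map_neg]
    field_simp
    ring
  have hcb : algebraMap ℂ E (-A.Q.eval b) ≠ 0 := by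
    rw [Ne, map_eq_zero, neg_eq_zero]
    exact hQb
  rw [hval]
  refine ⟨mul_ne_zero hcb (div_ne_zero hFE hQE), ?_⟩
  rw [Pl.ord_mul _ hcb (div_ne_zero hFE hQE), Pl.ord_C, Pl.ord_div _ hFE hQE, plE_poly a hF,
    plE_poly a hQ, rootMultiplicity_eq_zero (p := A.Q) hQa]
  simp

/-- the value at a constant of a polynomial with coefficients of nonnegative order -/
theorem Gauss_eval_nonneg (a : ℂ) {G : E[X]} (hc : ∀ i, 0 ≤ (plE a).ord (G.coeff i)) (b : ℂ) :
    0 ≤ (plE a).ord (G.eval (algebraMap ℂ E b)) := by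
  rw [eval_eq_sum_range]
  refine Finset.sum_induction _ (fun u => 0 ≤ (plE a).ord u)
    (fun u w hu hw => Pl.ord_nonneg_add _ hu hw) (by rw [Pl.ord_zero]) fun i _ => ?_
  refine Pl.ord_nonneg_mul _ (hc i) ?_
  rw [← map_pow, Pl.ord_C]

/-- At a simple critical point `q`: `ord_q μ(q) ≤ 1`.  `GG A = (T - x) μ ρ` with `ρ` monic,
`ord_q GG(q) = 2`, `ord_q (q - x) = 1`, `ord_q ρ(q) ≥ 0` by `gauss`. -/
theorem mu_eval_le (A : RF) (hm : A.P.Monic) (hlt : A.Q.natDegree < A.P.natDegree)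
    {φ ψ : E →ₐ[ℂ] K} (hφ : FinC φ) (hne : φ ≠ ψ) (h : φ (elt A) = ψ (elt A)) {q c : ℂ}
    (hq : A.P.eval q = c * A.Q.eval q) (hQ : A.Q.eval q ≠ 0)
    (h2 : (A.P - C c * A.Q).rootMultiplicity q = 2) :
    (plE q).ord ((mu φ (ψ RatFunc.X)).eval (algebraMap ℂ E q)) ≤ 1 := by
  have hn : 1 ≤ A.n := by
    have h1 : A.P.natDegree ≤ A.n := le_max_left _ _
    omega
  have hQ0 := A.Q_ne_zero hn
  -- `GG A` is monic
  have hPm : (A.P.map (algebraMap ℂ E)).Monic := hm.map _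
  have hGm : (GG A).Monic := by
    unfold GG
    refine hPm.sub_of_left ?_
    rw [degree_C_mul (elt_nonConst A hn).ne_zero, degree_map, degree_map]
    exact degree_lt_degree hlt
  obtain ⟨ρ, hρ⟩ := NN_dvd A hn hne h
  have hmum := (mu_pos φ hφ (ψ RatFunc.X)).1
  have hNm : (NN φ ψ).Monic := (monic_X_sub_C _).mul hmum
  have hρm : ρ.Monic := hNm.of_mul_monic_left (by rw [← hρ]; exact hGm)
  -- the coefficients of `GG A` have nonnegative order
  have hQE : algebraMap ℂ[X] E A.Q ≠ 0 := by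
    rw [Ne, map_eq_zero_iff _ (RatFunc.algebraMap_injective ℂ)]
    exact hQ0
  have hPE : algebraMap ℂ[X] E A.P ≠ 0 := by
    rw [Ne, map_eq_zero_iff _ (RatFunc.algebraMap_injective ℂ)]
    exact hm.ne_zero
  have helt : 0 ≤ (plE q).ord (elt A) := by
    rw [elt_eq, Pl.ord_div _ hPE hQE, plE_poly q hm.ne_zero, plE_poly q hQ0,
      rootMultiplicity_eq_zero (p := A.Q) hQ]
    simp
  have hcoef : ∀ i, 0 ≤ (plE q).ord ((GG A).coeff i) := by
    intro i
    unfold GG
    rw [coeff_sub, coeff_C_mul, coeff_map, coeff_map]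
    refine Pl.ord_nonneg_sub _ (by rw [Pl.ord_C]) (Pl.ord_nonneg_mul _ helt (by rw [Pl.ord_C]))
  have hρc := gauss q hGm hρm ⟨NN φ ψ, by rw [hρ, mul_comm]⟩ hcoef
  have hρ0 := Gauss_eval_nonneg q hρc q
  obtain ⟨hne0, hord⟩ := ord_GG A hn hq hQ hq hQ
  rw [h2] at hord
  have hev : (GG A).eval (algebraMap ℂ E q) = ((algebraMap ℂ E q - RatFunc.X) *
      (mu φ (ψ RatFunc.X)).eval (algebraMap ℂ E q)) * ρ.eval (algebraMap ℂ E q) := by
    rw [hρ]
    unfold NN
    rw [eval_mul, eval_mul, eval_sub, eval_X, eval_C]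
  rw [hev] at hord hne0
  have n1 := left_ne_zero_of_mul hne0
  have n2 := right_ne_zero_of_mul hne0
  have n3 := left_ne_zero_of_mul n1
  have n4 := right_ne_zero_of_mul n1
  rw [Pl.ord_mul _ n1 n2, Pl.ord_mul _ n3 n4] at hord
  have hx1 : (plE q).ord (algebraMap ℂ E q - RatFunc.X) = 1 := by
    have e1 : algebraMap ℂ E q - RatFunc.X = -(algebraMap ℂ[X] E (X - C q)) := by
      rw [map_sub, RatFunc.algebraMap_X, ← algC_E]
      ring
    rw [e1, Pl.ord_neg, plE_poly q (X_sub_C_ne_zero q), rootMultiplicity_X_sub_C_self]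
    simp
  rw [hx1] at hord
  push_cast at hord
  linarith

end WildS
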