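import Pool.Agent.helper21.WS.HypK

/-! `ℂ(x)(√f)`, `f` a squarefree cubic, satisfies the Riemann-Hurwitz inequality. -/

namespace WildS

open Polynomial WildRat

/-- `[KF f : ℂ(x)] = 2`. -/
theorem finC_xKF (f : ℂ[X])
    [Fact (∀ r : RatFunc ℂ, r ^ 2 ≠ algebraMap ℂ[X] (RatFunc ℂ) f + 0 * r)] :
    FinC (xKF f) := by
  show (algebraMap (RatFunc ℂ) (KF f)).Finite
  rw [RingHom.finite_algebraMap]
  infer_instance

theorem GoodKF_self {K : Type} [Field K] [Algebra ℂ K] (z : K) (p : ℂ[X]) :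
    Integ z (aeval z p) :=
  RingHom.isIntegralElem_map (f := (aeval z : ℂ[X] →ₐ[ℂ] K).toRingHom)

theorem GoodKF_root {K : Type} [Field K] [Algebra ℂ K] {z w : K} (g : ℂ[X])
    (h : w ^ 2 = aeval z g) : Integ z w := by
  refine ⟨X ^ 2 - C g, monic_X_pow_sub_C _ two_ne_zero, ?_⟩
  rw [eval₂_sub, eval₂_pow, eval₂_X, eval₂_C, h]
  exact sub_self _

theorem GoodKF_flip {K : Type} [Field K] [Algebra ℂ K] {x : K} (hx : x ≠ 0) (n : ℕ) (p : ℂ[X])
    (hp : p.natDegree ≤ n) : ∃ G : ℂ[X], aeval x p * x⁻¹ ^ n = aeval x⁻¹ G := by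
  refine ⟨∑ i ∈ Finset.range (n + 1), C (p.coeff i) * X ^ (n - i), ?_⟩
  rw [aeval_eq_sum_range' (lt_of_le_of_lt hp (Nat.lt_succ_self n)), map_sum, Finset.sum_mul]
  refine Finset.sum_congr rfl fun i hi => ?_
  have hi' : i ≤ n := Nat.lt_succ_iff.mp (Finset.mem_range.mp hi)
  rw [map_mul, aeval_C, map_pow, aeval_X, Algebra.smul_def]
  have h1 : x⁻¹ ^ n = x⁻¹ ^ i * x⁻¹ ^ (n - i) := by rw [← pow_add, Nat.add_sub_cancel' hi']
  rw [h1, inv_pow x i]
  have hxi : x ^ i ≠ 0 := pow_ne_zero i hx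
  field_simp

/-- With `D0 x = 1` (`exists_deriv`) let `D = y D0`, so `D x = y`, `D y = f'(x) / 2`.  It maps
`ℂ[x] + ℂ[x] y` to itself.  With `z = 1 / x`, `w = y z ^ 2`: `D z = - w`,
`D w = f'(x) z ^ 2 / 2 - 2 w ^ 2 / z`, and both `f'(x) z ^ 2` and `w ^ 2 / z` are polynomials in
`z`.  So `D` preserves the elements integral over `ℂ[x]` and over `ℂ[z]`; `dInt`, `rh_ineq`. -/
theorem good_KF (f : ℂ[X]) (hf : f.natDegree = 3) (hsq : Squarefree f)
    [Fact (∀ r : RatFunc ℂ, r ^ 2 ≠ algebraMap ℂ[X] (RatFunc ℂ) f + 0 * r)] :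
    Good (KF f) := by
  have hfin : ∀ φ : E →ₐ[ℂ] KF f, FinC φ := fun φ => finC_all (xKF f) (finC_xKF f) φ
  refine ⟨hfin, ?_⟩
  obtain ⟨D0, hD0x, hD0⟩ := exists_deriv (xKF f) (finC_xKF f)
  have hx0 : xKF f RatFunc.X ≠ 0 := by
    rw [Ne, map_eq_zero]
    exact RatFunc.X_ne_zero
  have hyy := yKF_sq f
  rw [coord_poly] at hyy
  have hy0 : yKF f ≠ 0 := by
    intro h0
    have h1 := congrArg QuadraticAlgebra.im h0
    exact one_ne_zero h1
  have hI : ∀ h : KF f, Integ (xKF f RatFunc.X) h →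
      ∃ p q : ℂ[X], h = aeval (xKF f RatFunc.X) p + aeval (xKF f RatFunc.X) q * yKF f :=
    fun h hh => integ_kf f hsq hh
  have hI2 : ∀ h : KF f, Integ (xKF f RatFunc.X)⁻¹ h →
      ∃ p q : ℂ[X], h = aeval (xKF f RatFunc.X)⁻¹ p +
        aeval (xKF f RatFunc.X)⁻¹ q * (yKF f * (xKF f RatFunc.X)⁻¹ ^ 2) :=
    fun h hh => integ_kf_inv f hf hsq hh
  set x : KF f := xKF f RatFunc.X with hx
  set y : KF f := yKF f with hy
  have h2 : (2 : KF f) ≠ 0 := two_ne_zero
  -- the derivation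
  set D : Derivation ℂ (KF f) (KF f) := y • D0 with hD
  have hDa : ∀ u, D u = y * D0 u := fun u => rfl
  have hDx : D x = y := by rw [hDa, hD0x, mul_one]
  have hDy : D y = aeval x (C (1 / 2) * derivative f) := by
    have h3 : D0 (y * y) = aeval x (derivative f) := by
      rw [← pow_two, hyy, Derivation.map_aeval, hD0x, smul_eq_mul, mul_one]
    rw [Derivation.leibniz, smul_eq_mul] at h3
    rw [map_mul, aeval_C, hDa, ← h3]
    have h4 : algebraMap ℂ (KF f) (1 / 2) * 2 = 1 := by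
      have : (2 : KF f) = algebraMap ℂ (KF f) 2 := by rw [map_ofNat]
      rw [this, ← map_mul]
      norm_num
    linear_combination (-(y * D0 y)) * h4
  have hne : ∀ ψ : E →ₐ[ℂ] KF f, D (ψ RatFunc.X) ≠ 0 := fun ψ => by
    rw [hDa]
    exact mul_ne_zero hy0 (hD0 ψ)
  refine rh_ineq hfin D ?_ hne
  refine dInt (xKF f) (finC_xKF f) D ?_ ?_
  · -- integral elements over `ℂ[x]`
    intro u hu
    rw [← hx] at hu ⊢
    obtain ⟨p, q, rfl⟩ := hI u hu
    have hyI : Integ x y := GoodKF_root f hyy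
    have e : D (aeval x p + aeval x q * y) = aeval x (derivative p) * y +
        (aeval x q * aeval x (C (1 / 2) * derivative f) + y * (aeval x (derivative q) * y)) := by
      rw [map_add, Derivation.leibniz, Derivation.map_aeval, Derivation.map_aeval, hDx, hDy]
      simp only [smul_eq_mul]
    rw [e]
    exact RingHom.IsIntegralElem.add _
      (RingHom.IsIntegralElem.mul _ (GoodKF_self x _) hyI)
      (RingHom.IsIntegralElem.add _
        (RingHom.IsIntegralElem.mul _ (GoodKF_self x _) (GoodKF_self x _))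
        (RingHom.IsIntegralElem.mul _ hyI
          (RingHom.IsIntegralElem.mul _ (GoodKF_self x _) hyI)))
  · -- integral elements over `ℂ[1 / x]`
    intro u hu
    rw [← hx] at hu ⊢
    obtain ⟨p, q, rfl⟩ := hI2 u hu
    obtain ⟨G3, hG3⟩ := GoodKF_flip hx0 3 f hf.le
    obtain ⟨G2, hG2⟩ := GoodKF_flip hx0 2 (derivative f)
      ((natDegree_derivative_le f).trans (by omega))
    set z : KF f := x⁻¹ with hz
    set w : KF f := y * z ^ 2 with hw
    have hwI : Integ z w := by
      refine GoodKF_root (G3 * X) ?_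
      rw [map_mul, aeval_X, ← hG3, ← hyy, hw]
      ring
    have hDz : D z = -w := by
      rw [hz, Derivation.leibniz_inv, hDx, hw, smul_eq_mul]
      ring
    have hDw : D w = aeval z (C (1 / 2) * G2 - C 2 * G3) := by
      have h5 : D w = y * (2 * z * D z) + z ^ 2 * D y := by
        rw [hw, Derivation.leibniz, Derivation.leibniz_pow]
        simp only [smul_eq_mul, Nat.cast_ofNat, nsmul_eq_mul]
        ring
      rw [h5, hDz, hDy]
      simp only [map_sub, map_mul, aeval_C]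
      rw [← hG3, ← hG2, ← hyy, hw, map_ofNat]
      ring
    have e : D (aeval z p + aeval z q * w) = aeval z (derivative p) * (-w) +
        (aeval z q * aeval z (C (1 / 2) * G2 - C 2 * G3) + w * (aeval z (derivative q) * (-w))) := by
      rw [map_add, Derivation.leibniz, Derivation.map_aeval, Derivation.map_aeval, hDz, hDw]
      simp only [smul_eq_mul]
    rw [e]
    have hnw : Integ z (-w) := RingHom.IsIntegralElem.neg _ hwI
    exact RingHom.IsIntegralElem.add _
      (RingHom.IsIntegralElem.mul _ (GoodKF_self z _) hnw)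
      (RingHom.IsIntegralElem.add _
        (RingHom.IsIntegralElem.mul _ (GoodKF_self z _) (GoodKF_self z _))
        (RingHom.IsIntegralElem.mul _ hwI
          (RingHom.IsIntegralElem.mul _ (GoodKF_self z _) hnw)))

end WildS
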