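import Pool.Agent.helper21.WS.RatK
import Pool.Agent.helper44.Wild.Hyper1

/-! Integral elements of `ℂ(x)(√f)` over `ℂ[x]` and over `ℂ[1/x]`. -/

namespace WildS

open Polynomial WildRat

/-- If `g` is squarefree and `g β ^ 2` is a polynomial then `β` is a polynomial. -/
theorem sq_poly {g p : ℂ[X]} (hg : Squarefree g) {β : E}
    (h : algebraMap ℂ[X] E g * β ^ 2 = algebraMap ℂ[X] E p) : ∃ q : ℂ[X], β = algebraMap ℂ[X] E q := by
  have hD0 : algebraMap ℂ[X] E β.denom ≠ 0 :=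
    RatFunc.algebraMap_ne_zero (RatFunc.denom_ne_zero β)
  have h1 : β * algebraMap ℂ[X] E β.denom = algebraMap ℂ[X] E β.num := by
    nth_rewrite 1 [← RatFunc.num_div_denom β]
    exact div_mul_cancel₀ _ hD0
  have h2 : algebraMap ℂ[X] E (g * β.num ^ 2) = algebraMap ℂ[X] E (p * β.denom ^ 2) := by
    rw [map_mul, map_pow, ← h1, map_mul, map_pow, ← h]
    ring
  have h3 : g * β.num ^ 2 = p * β.denom ^ 2 := RatFunc.algebraMap_injective ℂ h2
  have hcop : IsCoprime (β.denom ^ 2) (β.num ^ 2) :=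
    ((RatFunc.isCoprime_num_denom β).symm).pow
  have h4 : β.denom ^ 2 ∣ g := by
    refine hcop.dvd_of_dvd_mul_right ?_
    rw [h3]
    exact Dvd.intro_left _ rfl
  have h5 : IsUnit β.denom := hg _ (by rw [← pow_two]; exact h4)
  have h6 : β.denom = 1 := (RatFunc.monic_denom β).eq_one_of_isUnit h5
  refine ⟨β.num, ?_⟩
  rw [← h1, h6, map_one, mul_one]

/-- The coordinate `x` of `ℂ(x)(√f)`. -/
noncomputable def xKF (f : ℂ[X]) : RatFunc ℂ →ₐ[ℂ] KF f :=
  { algebraMap (RatFunc ℂ) (KF f) with commutes' := fun _ => rfl }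

/-- The element `√f`. -/
noncomputable def yKF (f : ℂ[X]) : KF f := ⟨0, 1⟩

theorem yKF_sq (f : ℂ[X]) : yKF f ^ 2 = xKF f (algebraMap ℂ[X] (RatFunc ℂ) f) := by
  rw [pow_two]
  change yKF f * yKF f = algebraMap (RatFunc ℂ) (KF f) _
  apply QuadraticAlgebra.ext
  · rw [QuadraticAlgebra.re_mul, QuadraticAlgebra.algebraMap_re]
    simp [yKF]
  · rw [QuadraticAlgebra.im_mul, QuadraticAlgebra.algebraMap_im]
    simp [yKF]

theorem kf_decomp (f : ℂ[X]) (h : KF f) : h = xKF f h.re + xKF f h.im * yKF f := by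
  change h = algebraMap (RatFunc ℂ) (KF f) h.re + algebraMap (RatFunc ℂ) (KF f) h.im * yKF f
  apply QuadraticAlgebra.ext
  · rw [QuadraticAlgebra.re_add, QuadraticAlgebra.re_mul, QuadraticAlgebra.algebraMap_re,
      QuadraticAlgebra.algebraMap_re, QuadraticAlgebra.algebraMap_im]
    simp [yKF]
  · rw [QuadraticAlgebra.im_add, QuadraticAlgebra.im_mul, QuadraticAlgebra.algebraMap_re,
      QuadraticAlgebra.algebraMap_im, QuadraticAlgebra.algebraMap_im]
    simp [yKF]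

theorem HypK_x_re (f : ℂ[X]) (u : RatFunc ℂ) : (xKF f u).re = u :=
  QuadraticAlgebra.algebraMap_re u

theorem HypK_x_im (f : ℂ[X]) (u : RatFunc ℂ) : (xKF f u).im = 0 :=
  QuadraticAlgebra.algebraMap_im u

/-- The conjugation of `ℂ(x)(√f)`. -/
noncomputable def HypK_conj (f : ℂ[X]) : KF f →ₐ[ℂ] KF f where
  toFun h := ⟨h.re, -h.im⟩
  map_one' := by
    apply QuadraticAlgebra.ext
    · rfl
    · change -QuadraticAlgebra.im (1 : KF f) = QuadraticAlgebra.im (1 : KF f)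
      rw [QuadraticAlgebra.im_one, neg_zero]
  map_mul' a b := by
    apply QuadraticAlgebra.ext
    · rw [QuadraticAlgebra.re_mul, QuadraticAlgebra.re_mul]
      ring
    · rw [QuadraticAlgebra.im_mul, QuadraticAlgebra.im_mul]
      ring
  map_zero' := by
    apply QuadraticAlgebra.ext <;> simp
  map_add' a b := by
    apply QuadraticAlgebra.ext
    · rw [QuadraticAlgebra.re_add, QuadraticAlgebra.re_add]
    · rw [QuadraticAlgebra.im_add, QuadraticAlgebra.im_add]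
      ring
  commutes' c := by
    change (⟨(xKF f (algebraMap ℂ (RatFunc ℂ) c)).re, -(xKF f (algebraMap ℂ (RatFunc ℂ) c)).im⟩ : KF f) =
      xKF f (algebraMap ℂ (RatFunc ℂ) c)
    apply QuadraticAlgebra.ext
    · rfl
    · simp only [HypK_x_im, neg_zero]

theorem HypK_conj_x (f : ℂ[X]) (u : RatFunc ℂ) : HypK_conj f (xKF f u) = xKF f u := by
  apply QuadraticAlgebra.ext
  · rfl
  · change -(xKF f u).im = (xKF f u).im
    rw [HypK_x_im, neg_zero]

theorem HypK_tr (f : ℂ[X]) (h : KF f) : h + HypK_conj f h = xKF f (2 * h.re) := by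
  apply QuadraticAlgebra.ext
  · rw [QuadraticAlgebra.re_add, HypK_x_re]
    change h.re + h.re = _
    ring
  · rw [QuadraticAlgebra.im_add, HypK_x_im]
    change h.im + -h.im = 0
    ring

theorem HypK_nm (f : ℂ[X]) (h : KF f) : h * HypK_conj f h =
    xKF f (h.re ^ 2 - algebraMap ℂ[X] (RatFunc ℂ) f * h.im ^ 2) := by
  apply QuadraticAlgebra.ext
  · rw [QuadraticAlgebra.re_mul, HypK_x_re]
    change h.re * h.re + algebraMap ℂ[X] (RatFunc ℂ) f * h.im * -h.im = _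
    ring
  · rw [QuadraticAlgebra.im_mul, HypK_x_im]
    change h.re * -h.im + h.im * h.re + 0 * h.im * -h.im = 0
    ring

theorem HypK_integ_map {K L : Type} [Field K] [Algebra ℂ K] [Field L] [Algebra ℂ L]
    (s : K →ₐ[ℂ] L) {z u : K} (h : Integ z u) : Integ (s z) (s u) := by
  obtain ⟨P, hP, h0⟩ := h
  refine ⟨P, hP, ?_⟩
  have h1 : (aeval (s z) : ℂ[X] →ₐ[ℂ] L).toRingHom =
      (s.toRingHom).comp (aeval z : ℂ[X] →ₐ[ℂ] K).toRingHom := by
    exact RingHom.ext fun p => aeval_algHom_apply s z p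
  rw [h1]
  have h2 := congrArg s.toRingHom h0
  rw [Polynomial.hom_eval₂, map_zero] at h2
  exact h2

theorem HypK_integ_desc {K L : Type} [Field K] [Algebra ℂ K] [Field L] [Algebra ℂ L]
    (s : K →ₐ[ℂ] L) {z u : K} (h : Integ (s z) (s u)) : Integ z u := by
  obtain ⟨P, hP, h0⟩ := h
  refine ⟨P, hP, ?_⟩
  have h1 : (aeval (s z) : ℂ[X] →ₐ[ℂ] L).toRingHom =
      (s.toRingHom).comp (aeval z : ℂ[X] →ₐ[ℂ] K).toRingHom := by
    exact RingHom.ext fun p => aeval_algHom_apply s z p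
  rw [h1] at h0
  apply s.toRingHom.injective
  rw [Polynomial.hom_eval₂, map_zero]
  exact h0

/-- Trace and norm of an integral element are integral elements of `ℂ(x)`. -/
theorem HypK_trnm (f : ℂ[X])
    [Fact (∀ r : RatFunc ℂ, r ^ 2 ≠ algebraMap ℂ[X] (RatFunc ℂ) f + 0 * r)] {z : E} {h : KF f}
    (hi : Integ (xKF f z) h) :
    Integ z (2 * h.re) ∧ Integ z (h.re ^ 2 - algebraMap ℂ[X] (RatFunc ℂ) f * h.im ^ 2) := by
  have hc : Integ (xKF f z) (HypK_conj f h) := by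
    have := HypK_integ_map (HypK_conj f) hi
    rwa [HypK_conj_x] at this
  constructor
  · apply HypK_integ_desc (xKF f)
    rw [← HypK_tr]
    exact RingHom.IsIntegralElem.add _ hi hc
  · apply HypK_integ_desc (xKF f)
    rw [← HypK_nm]
    exact RingHom.IsIntegralElem.mul _ hi hc

theorem HypK_half {u : E} {p : ℂ[X]} {s : ℂ[X] →ₐ[ℂ] E} (h : 2 * u = s p) :
    u = s (C (1 / 2) * p) := by
  have h5 : s (C (1 / 2)) * 2 = 1 := by
    rw [← map_ofNat s 2, ← map_mul]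
    have : (C (1 / 2) * 2 : ℂ[X]) = 1 := by
      rw [← C_ofNat, ← C_mul]
      norm_num
    rw [this, map_one]
  rw [map_mul, ← h]
  linear_combination (-u) * h5

/-- Elements integral over `ℂ[x]`: trace `2 h.re` and norm `h.re ^ 2 - f h.im ^ 2` are integral
elements of `ℂ(x)`, hence polynomials (`integ_X`), so `f h.im ^ 2` is a polynomial; `sq_poly`.
(If `h` satisfies a monic equation over `ℂ[x]` then so does its conjugate.) -/
theorem integ_kf (f : ℂ[X]) (hsq : Squarefree f)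
    [Fact (∀ r : RatFunc ℂ, r ^ 2 ≠ algebraMap ℂ[X] (RatFunc ℂ) f + 0 * r)] {h : KF f}
    (hi : Integ (xKF f RatFunc.X) h) :
    ∃ p q : ℂ[X], h = aeval (xKF f RatFunc.X) p + aeval (xKF f RatFunc.X) q * yKF f := by
  obtain ⟨h1, h2⟩ := HypK_trnm f hi
  obtain ⟨p1, hp1⟩ := integ_X h1
  obtain ⟨p2, hp2⟩ := integ_X h2
  have hre : h.re = algebraMap ℂ[X] E (C (1 / 2) * p1) := by
    have h3 : 2 * h.re = (aeval (RatFunc.X : E) : ℂ[X] →ₐ[ℂ] E) p1 := by
      rw [aeval_X_E, hp1]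
    rw [← aeval_X_E (C (1 / 2) * p1)]
    exact HypK_half h3
  have him : algebraMap ℂ[X] E f * h.im ^ 2 =
      algebraMap ℂ[X] E ((C (1 / 2) * p1) ^ 2 - p2) := by
    rw [map_sub, map_pow, ← hre, ← hp2]
    ring
  obtain ⟨q, hq⟩ := sq_poly hsq him
  refine ⟨C (1 / 2) * p1, q, ?_⟩
  rw [← coord_poly (xKF f), ← coord_poly (xKF f), ← hre, ← hq]
  exact kf_decomp f h

/-- The polynomial `g(z) = z ^ 4 f(1 / z)` of a squarefree cubic `f` is squarefree. -/
theorem HypK_sqfree (f : ℂ[X]) (hf : f.natDegree = 3) (hsq : Squarefree f) :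
    Squarefree (C (f.coeff 3) * X + C (f.coeff 2) * X ^ 2 + C (f.coeff 1) * X ^ 3 +
      C (f.coeff 0) * X ^ 4 : ℂ[X]) := by
  have hfe : f = C (f.coeff 0) + C (f.coeff 1) * X + C (f.coeff 2) * X ^ 2 +
      C (f.coeff 3) * X ^ 3 := by
    conv_lhs => rw [f.as_sum_range_C_mul_X_pow, hf]
    simp [Finset.sum_range_succ]
  have h3 : f.coeff 3 ≠ 0 := by
    rw [← hf]
    have : f ≠ 0 := hsq.ne_zero
    exact leadingCoeff_ne_zero.2 this
  have hs : f.Separable := (PerfectField.separable_iff_squarefree).2 hsq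
  have hs' := (Polynomial.isCoprime_iff_aeval_ne_zero_of_isAlgClosed ℂ ℂ f (derivative f)).1 hs
  apply Polynomial.Separable.squarefree
  apply (Polynomial.isCoprime_iff_aeval_ne_zero_of_isAlgClosed ℂ ℂ _ _).2
  intro r
  by_contra hcon
  push Not at hcon
  obtain ⟨h1, h2⟩ := hcon
  by_cases hr : r = 0
  · subst hr
    apply h3
    simpa using h2
  · have E1 : aeval r⁻¹ f = f.coeff 0 + f.coeff 1 * r⁻¹ + f.coeff 2 * r⁻¹ ^ 2 +
        f.coeff 3 * r⁻¹ ^ 3 := by
      conv_lhs => rw [hfe]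
      simp
    have E2 : aeval r⁻¹ (derivative f) = f.coeff 1 + 2 * f.coeff 2 * r⁻¹ +
        3 * f.coeff 3 * r⁻¹ ^ 2 := by
      conv_lhs => rw [hfe]
      simp
      ring
    have E3 : f.coeff 3 * r + f.coeff 2 * r ^ 2 + f.coeff 1 * r ^ 3 + f.coeff 0 * r ^ 4 = 0 := by
      rw [← h1]
      simp
    have E4 : f.coeff 3 + 2 * f.coeff 2 * r + 3 * f.coeff 1 * r ^ 2 + 4 * f.coeff 0 * r ^ 3 = 0 := by
      rw [← h2]
      simp
      ring
    have e1 : aeval r⁻¹ f = 0 := by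
      have : r ^ 4 * aeval r⁻¹ f = 0 := by
        rw [E1, ← E3]
        field_simp
        ring
      exact (mul_eq_zero.1 this).resolve_left (pow_ne_zero 4 hr)
    have e2 : aeval r⁻¹ (derivative f) = 0 := by
      have : r ^ 3 * aeval r⁻¹ (derivative f) = 0 := by
        have E5 : r ^ 3 * aeval r⁻¹ (derivative f) = 4 * (f.coeff 3 * r + f.coeff 2 * r ^ 2 +
            f.coeff 1 * r ^ 3 + f.coeff 0 * r ^ 4) - r * (f.coeff 3 + 2 * f.coeff 2 * r +
            3 * f.coeff 1 * r ^ 2 + 4 * f.coeff 0 * r ^ 3) := by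
          rw [E2]
          field_simp
          ring
        rw [E5, E3, E4]
        ring
      exact (mul_eq_zero.1 this).resolve_left (pow_ne_zero 3 hr)
    rcases hs' r⁻¹ with h | h
    · exact h e1
    · exact h e2

theorem HypK_invE_poly (p : ℂ[X]) : invE (aeval (RatFunc.X : E)⁻¹ p) = algebraMap ℂ[X] E p := by
  rw [← aeval_algHom_apply, map_inv₀, invE_X, inv_inv, aeval_X_E]

/-- Elements integral over `ℂ[z]`, `z = 1 / x`, for a squarefree cubic `f`: with `w = y z ^ 2`,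
`w ^ 2 = g(z)`, `g(z) = z ^ 4 f(1 / z)` squarefree (`g = X * reverse f`).  As before
`h.re` and `g(z) (x ^ 2 h.im) ^ 2` are integral elements of `ℂ(x)` over `ℂ[1 / x]`, that is
polynomials in `z` (`integ_X_inv`); apply `invE` and `sq_poly`. -/
theorem integ_kf_inv (f : ℂ[X]) (hf : f.natDegree = 3) (hsq : Squarefree f)
    [Fact (∀ r : RatFunc ℂ, r ^ 2 ≠ algebraMap ℂ[X] (RatFunc ℂ) f + 0 * r)] {h : KF f}
    (hi : Integ (xKF f RatFunc.X)⁻¹ h) :
    ∃ p q : ℂ[X], h = aeval (xKF f RatFunc.X)⁻¹ p +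
      aeval (xKF f RatFunc.X)⁻¹ q * (yKF f * (xKF f RatFunc.X)⁻¹ ^ 2) := by
  rw [← map_inv₀ (xKF f)] at hi ⊢
  obtain ⟨h1, h2⟩ := HypK_trnm f hi
  obtain ⟨p1, hp1⟩ := integ_X_inv h1
  obtain ⟨p2, hp2⟩ := integ_X_inv h2
  have hX : (RatFunc.X : E) ≠ 0 := RatFunc.X_ne_zero
  have hre : h.re = aeval (RatFunc.X : E)⁻¹ (C (1 / 2) * p1) := HypK_half hp1
  have hre' : invE h.re = algebraMap ℂ[X] E (C (1 / 2) * p1) := by
    rw [hre, HypK_invE_poly]
  have hfe : f = C (f.coeff 0) + C (f.coeff 1) * X + C (f.coeff 2) * X ^ 2 +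
      C (f.coeff 3) * X ^ 3 := by
    conv_lhs => rw [f.as_sum_range_C_mul_X_pow, hf]
    simp [Finset.sum_range_succ]
  have hinvf : invE (algebraMap ℂ[X] E f) * (RatFunc.X : E) ^ 4 =
      algebraMap ℂ[X] E (C (f.coeff 3) * X + C (f.coeff 2) * X ^ 2 + C (f.coeff 1) * X ^ 3 +
      C (f.coeff 0) * X ^ 4 : ℂ[X]) := by
    rw [← aeval_X_E, ← aeval_algHom_apply, invE_X, ← aeval_X_E]
    conv_lhs => rw [hfe]
    simp only [map_add, map_mul, map_pow, aeval_X, aeval_C]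
    field_simp
    ring
  have him : algebraMap ℂ[X] E (C (f.coeff 3) * X + C (f.coeff 2) * X ^ 2 +
      C (f.coeff 1) * X ^ 3 + C (f.coeff 0) * X ^ 4 : ℂ[X]) *
      (invE h.im * (RatFunc.X : E)⁻¹ ^ 2) ^ 2 =
      algebraMap ℂ[X] E ((C (1 / 2) * p1) ^ 2 - p2) := by
    have h3 := congrArg invE hp2
    rw [HypK_invE_poly, map_sub, map_mul, map_pow, map_pow, hre'] at h3
    rw [map_sub, map_pow, ← h3, ← hinvf]
    field_simp
    ring
  obtain ⟨q, hq⟩ := sq_poly (HypK_sqfree f hf hsq) him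
  have hq' : h.im = aeval (RatFunc.X : E)⁻¹ q * (RatFunc.X : E)⁻¹ ^ 2 := by
    have h4 : invE h.im = algebraMap ℂ[X] E q * RatFunc.X ^ 2 := by
      rw [← hq]
      field_simp
    have h5 := congrArg invE h4
    rw [invE_invE, map_mul, map_pow, invE_X, ← aeval_X_E q, ← aeval_algHom_apply, invE_X] at h5
    exact h5
  refine ⟨C (1 / 2) * p1, q, ?_⟩
  rw [aeval_algHom_apply, aeval_algHom_apply, ← hre]
  have h6 : xKF f h.im = xKF f (aeval (RatFunc.X : E)⁻¹ q) * xKF f (RatFunc.X : E)⁻¹ ^ 2 := by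
    rw [← map_pow, ← map_mul, ← hq']
  calc h = xKF f h.re + xKF f h.im * yKF f := kf_decomp f h
    _ = _ := by
      rw [h6]
      ring

end WildS
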