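import Pool.Agent.helper21.WS.Gauss

/-! The block identity gives a decomposition `A = B ∘ C`. -/

namespace WildS

open Polynomial WildRat

variable {K : Type} [Field K] [Algebra ℂ K]

theorem Luroth_mem_bot {u : E} (hu : NonConst u) : ¬ ∃ c, u = RatFunc.C c :=
  fun ⟨c, hc⟩ => hu c (by rw [hc]; rfl)

/-- A nonconstant element of `ℂ(x)` is a rational function. -/
theorem exists_RF (u : E) (hu : NonConst u) : ∃ C : RF, elt C = u ∧ 1 ≤ C.n ∧
    C.n = max u.num.natDegree u.denom.natDegree := by
  refine ⟨⟨u.num, u.denom, u.isCoprime_num_denom⟩, ?_, ?_, rfl⟩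
  · rw [elt_eq]
    exact RatFunc.num_div_denom u
  · by_contra h
    have h0 : max u.num.natDegree u.denom.natDegree = 0 := by
      have h1 : (⟨u.num, u.denom, u.isCoprime_num_denom⟩ : RF).n =
        max u.num.natDegree u.denom.natDegree := rfl
      omega
    exact Luroth_mem_bot hu ((RatFunc.eq_C_iff u).2 (Nat.max_eq_zero_iff.1 h0))

/-- the field of the elements at which the two coordinates agree -/
noncomputable def Luroth_F (φ ψ : E →ₐ[ℂ] K) : IntermediateField ℂ E where
  toSubalgebra := AlgHom.equalizer φ ψ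
  inv_mem' := fun x hx => by
    have h : φ x = ψ x := hx
    show φ x⁻¹ = ψ x⁻¹
    rw [map_inv₀, map_inv₀, h]

theorem Luroth_mem_F {φ ψ : E →ₐ[ℂ] K} {c : E} : c ∈ Luroth_F φ ψ ↔ φ c = ψ c := Iff.rfl

theorem Luroth_finrank_le {F : IntermediateField ℂ E} (hF : F ≠ ⊥) {N : E[X]} (hN : N.Monic)
    (hroot : N.eval (RatFunc.X : E) = 0) (hc : ∀ i, N.coeff i ∈ F) :
    Module.finrank F E ≤ N.natDegree := by
  have h1 : Module.finrank F E = (minpoly F (RatFunc.X : E)).natDegree := by
    rw [← (RatFunc.IntermediateField.adjoinXEquiv F).toLinearEquiv.finrank_eq,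
      IntermediateField.adjoin.finrank (RatFunc.IntermediateField.isAlgebraic_X hF).isIntegral]
  obtain ⟨N', hN'⟩ : ∃ N' : F[X], N'.map (algebraMap F E) = N := by
    have h2 : N ∈ Polynomial.lifts (algebraMap F E) := by
      rw [Polynomial.lifts_iff_coeff_lifts]
      intro i
      exact ⟨⟨N.coeff i, hc i⟩, rfl⟩
    exact (Polynomial.mem_lifts N).1 h2
  have h3 : N'.natDegree = N.natDegree := by
    rw [← hN', natDegree_map]
  have h4 : N' ≠ 0 := by
    rintro rfl
    rw [Polynomial.map_zero] at hN'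
    exact hN.ne_zero hN'.symm
  have h5 : aeval (RatFunc.X : E) N' = 0 := by
    rw [aeval_def, eval₂_eq_eval_map, hN', hroot]
  rw [h1, ← h3]
  exact natDegree_le_of_dvd (minpoly.dvd F _ h5) h4

theorem Luroth_finrank_congr {F G : IntermediateField ℂ E} (h : F = G) :
    Module.finrank F E = Module.finrank G E := by
  subst h
  rfl

theorem Luroth_exists_B {u v : E} (hu : NonConst u) (hv : v ∈ IntermediateField.adjoin ℂ {u}) :
    ∃ B : RF, B.app u = v := by
  obtain ⟨r, s, hrs⟩ := (IntermediateField.mem_adjoin_simple_iff ℂ v).1 hv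
  obtain ⟨σ, hσ⟩ := exists_subst hu
  obtain ⟨w, hw⟩ : ∃ w : E, w = algebraMap ℂ[X] E r / algebraMap ℂ[X] E s := ⟨_, rfl⟩
  refine ⟨⟨w.num, w.denom, w.isCoprime_num_denom⟩, ?_⟩
  rw [← hσ, ← app_map]
  have h1 : (⟨w.num, w.denom, w.isCoprime_num_denom⟩ : RF).app (RatFunc.X : E) = w := by
    have h2 := elt_eq ⟨w.num, w.denom, w.isCoprime_num_denom⟩
    unfold elt at h2
    rw [h2]
    exact RatFunc.num_div_denom w
  rw [h1, hw, map_div₀, coord_poly, coord_poly, hσ, hrs]

theorem Luroth_moebius (u : E) (hu : NonConst u) : ∃ C : RF, C.Q.natDegree < C.P.natDegree ∧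
    C.n = max u.num.natDegree u.denom.natDegree ∧
    elt C ∈ IntermediateField.adjoin ℂ {u} ∧ u ∈ IntermediateField.adjoin ℂ {elt C} := by
  by_cases hlt : u.denom.natDegree < u.num.natDegree
  · refine ⟨⟨u.num, u.denom, u.isCoprime_num_denom⟩, hlt, rfl, ?_⟩
    have h1 : elt ⟨u.num, u.denom, u.isCoprime_num_denom⟩ = u := by
      rw [elt_eq]
      exact RatFunc.num_div_denom u
    rw [h1]
    exact ⟨IntermediateField.mem_adjoin_simple_self ℂ u,
      IntermediateField.mem_adjoin_simple_self ℂ u⟩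
  · have hle : u.num.natDegree ≤ u.denom.natDegree := not_lt.1 hlt
    have hpos : 1 ≤ u.denom.natDegree := by
      by_contra h
      exact Luroth_mem_bot hu ((RatFunc.eq_C_iff u).2 ⟨by omega, by omega⟩)
    obtain ⟨c, hc⟩ : ∃ c : ℂ, c = u.num.coeff u.denom.natDegree := ⟨_, rfl⟩
    have hm : u.denom.Monic := RatFunc.monic_denom u
    have hcop : IsCoprime u.denom (u.num - C c * u.denom) := by
      have h1 : IsCoprime u.denom (u.num + u.denom * (- C c)) :=
        IsCoprime.add_mul_left_right_iff.2 u.isCoprime_num_denom.symm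
      have h2 : u.num - C c * u.denom = u.num + u.denom * (- C c) := by ring
      rw [h2]
      exact h1
    have hcoef : (u.num - C c * u.denom).coeff u.denom.natDegree = 0 := by
      rw [coeff_sub, coeff_C_mul, hm.coeff_natDegree, mul_one, hc, sub_self]
    have hdle : (u.num - C c * u.denom).natDegree ≤ u.denom.natDegree :=
      (natDegree_sub_le _ _).trans (max_le hle (natDegree_C_mul_le _ _))
    have hdlt : (u.num - C c * u.denom).natDegree < u.denom.natDegree := by
      rcases hdle.lt_or_eq with h1 | h1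
      · exact h1
      · exfalso
        have h2 : (u.num - C c * u.denom).leadingCoeff = 0 := by
          rw [leadingCoeff, h1, hcoef]
        rw [leadingCoeff_eq_zero] at h2
        rw [h2, natDegree_zero] at h1
        omega
    refine ⟨⟨u.denom, u.num - C c * u.denom, hcop⟩, hdlt, ?_, ?_⟩
    · show max u.denom.natDegree (u.num - C c * u.denom).natDegree = _
      omega
    · have hd0 : algebraMap ℂ[X] E u.denom ≠ 0 := RatFunc.algebraMap_ne_zero u.denom_ne_zero
      have huc : u - algebraMap ℂ E c ≠ 0 := sub_ne_zero.2 (hu c)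
      have h1 : elt ⟨u.denom, u.num - C c * u.denom, hcop⟩ = (u - algebraMap ℂ E c)⁻¹ := by
        rw [elt_eq]
        show algebraMap ℂ[X] E u.denom / algebraMap ℂ[X] E (u.num - C c * u.denom) = _
        rw [map_sub, map_mul, ← algC_E]
        have h2 : algebraMap ℂ[X] E u.num = u * algebraMap ℂ[X] E u.denom := by
          have h3 := RatFunc.num_div_denom u
          rw [div_eq_iff hd0] at h3
          exact h3
        rw [h2, ← sub_mul, div_mul_cancel_right₀ hd0]
      rw [h1]
      have hself := IntermediateField.mem_adjoin_simple_self ℂ u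
      have hself' := IntermediateField.mem_adjoin_simple_self ℂ (u - algebraMap ℂ E c)⁻¹
      refine ⟨inv_mem (sub_mem hself (IntermediateField.algebraMap_mem _ c)), ?_⟩
      have h3 := add_mem (inv_mem hself') (IntermediateField.algebraMap_mem
        (IntermediateField.adjoin ℂ {(u - algebraMap ℂ E c)⁻¹}) c)
      rwa [inv_inv, sub_add_cancel] at h3

/-- Let `F = {c ∈ ℂ(x) : φ c = ψ c}`, an intermediate field of `ℂ(x)/ℂ` which contains the
coefficients of `N` and the element `A(x)`.  By Luroth (`RatFunc.Luroth`) `F = ℂ(C(x))` with a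
rational function `C` of degree `[ℂ(x) : F]`; after a Moebius transformation on the left
`C(∞) = ∞`.  `x` is a root of `N`, of degree `d + 1`, so `[ℂ(x) : F] ≤ d + 1`.  And `ψ x` is a root
of `P_C(T) - C(x) Q_C(T)`, so `(T - x) μ` divides it (`NN_dvd`) and `d + 1 ≤ C.n`.
`A(x) ∈ ℂ(C(x))` gives `B`. -/
theorem luroth_step (A : RF) (hn : 1 ≤ A.n) {φ ψ : E →ₐ[ℂ] K} (hφ : FinC φ) (hne : φ ≠ ψ)
    (h : φ (elt A) = ψ (elt A))
    (hN : (NN φ ψ).map φ.toRingHom = (NN φ ψ).map ψ.toRingHom) :
    ∃ B C : RF, A.IsComp B C ∧ C.Q.natDegree < C.P.natDegree ∧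
      C.n = (mu φ (ψ RatFunc.X)).natDegree + 1 ∧ φ (elt C) = ψ (elt C) := by
  have hAF : elt A ∈ Luroth_F φ ψ := h
  have hFbot : Luroth_F φ ψ ≠ ⊥ := by
    intro hb
    rw [hb, IntermediateField.mem_bot] at hAF
    obtain ⟨c, hc⟩ := hAF
    exact elt_nonConst A hn c hc.symm
  have hmu := mu_pos φ hφ (ψ RatFunc.X)
  have hNm : (NN φ ψ).Monic := (monic_X_sub_C _).mul hmu.1
  have hNd : (NN φ ψ).natDegree = (mu φ (ψ RatFunc.X)).natDegree + 1 := by
    unfold NN
    rw [Monic.natDegree_mul (monic_X_sub_C _) hmu.1, natDegree_X_sub_C, add_comm]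
  have hNr : (NN φ ψ).eval (RatFunc.X : E) = 0 := by simp [NN]
  have hNc : ∀ i, (NN φ ψ).coeff i ∈ Luroth_F φ ψ := by
    intro i
    have h1 := congrArg (fun p => p.coeff i) hN
    simp only [coeff_map] at h1
    exact h1
  have hle := Luroth_finrank_le hFbot hNm hNr hNc
  have hgen := RatFunc.Luroth.eq_adjoin_generator (E := Luroth_F φ ψ)
  have hu : NonConst (RatFunc.Luroth.generator (Luroth_F φ ψ)) := fun c hc =>
    RatFunc.Luroth.generator_ne_C hFbot ⟨c, by rw [hc]; rfl⟩
  have huF : RatFunc.Luroth.generator (Luroth_F φ ψ) ∈ Luroth_F φ ψ :=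
    RatFunc.Luroth.generator_mem
  have hfin := Luroth_finrank_congr hgen
  rw [RatFunc.finrank_eq_max_natDegree] at hfin
  generalize RatFunc.Luroth.generator (Luroth_F φ ψ) = u at hgen hu huF hfin
  obtain ⟨C', hC1, hC2, hC3, hC4⟩ := Luroth_moebius u hu
  rw [← hgen] at hC3
  have hCF : φ (elt C') = ψ (elt C') := hC3
  have hCn : 1 ≤ C'.n := by
    have h1 : C'.n = max C'.P.natDegree C'.Q.natDegree := rfl
    omega
  have hAu : elt A ∈ IntermediateField.adjoin ℂ {elt C'} := by
    have h1 : elt A ∈ IntermediateField.adjoin ℂ {u} := by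
      rw [← hgen]
      exact hAF
    exact (IntermediateField.adjoin_simple_le_iff.2 hC4) h1
  obtain ⟨B, hB⟩ := Luroth_exists_B (elt_nonConst C' hCn) hAu
  refine ⟨B, C', ?_, hC1, ?_, hCF⟩
  · show elt A = B.app (elt C')
    exact hB.symm
  · have hCdeg : C'.n = C'.P.natDegree := by
      have h1 : C'.n = max C'.P.natDegree C'.Q.natDegree := rfl
      omega
    have hGG : (GG C').natDegree = C'.n := by
      unfold GG
      rw [hCdeg, natDegree_sub_eq_left_of_natDegree_lt, natDegree_map]
      calc (C (elt C') * C'.Q.map (algebraMap ℂ E)).natDegree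
          ≤ (C'.Q.map (algebraMap ℂ E)).natDegree := natDegree_C_mul_le _ _
        _ = C'.Q.natDegree := natDegree_map _
        _ < C'.P.natDegree := hC1
        _ = (C'.P.map (algebraMap ℂ E)).natDegree := (natDegree_map _).symm
    have hGG0 : GG C' ≠ 0 := by
      intro h1
      rw [h1, natDegree_zero] at hGG
      omega
    have h1 := natDegree_le_of_dvd (NN_dvd C' hCn hne hCF) hGG0
    rw [hNd, hGG] at h1
    rw [hNd] at hle
    omega

end WildS
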