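import Pool.Agent.helper21.WS.CompF
import Pool.Agent.helper21.WS.Luroth

/-! Normalisation by Moebius transformations. -/

namespace WildS

open Polynomial WildRat

theorem Normal_val_some (A : RF) {a t : ℂ} :
    A.val (some a) = some t ↔ A.Q.eval a ≠ 0 ∧ A.P.eval a = t * A.Q.eval a := by
  simp only [RF.val]
  split_ifs with h
  · simp [h]
  · rw [Option.some_inj, div_eq_iff h]
    exact ⟨fun h1 => ⟨h, h1⟩, fun h1 => h1.2⟩

theorem Normal_prop (A : RF) {a b : ℂ} (hab : a ≠ 0 ∨ b ≠ 0)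
    (h : A.P * C b = C a * A.Q) : A.n = 0 := by
  have hcop := A.cop
  unfold RF.n
  by_cases hb : b = 0
  · subst hb
    have ha : a ≠ 0 := by simpa using hab
    have hQ : A.Q = 0 := by
      have h0 : C a * A.Q = 0 := by rw [← h]; simp
      rcases mul_eq_zero.1 h0 with h1 | h1
      · exact absurd (C_eq_zero.1 h1) ha
      · exact h1
    rw [hQ] at hcop ⊢
    have hu : IsUnit A.P := isCoprime_zero_right.1 hcop
    rw [natDegree_eq_zero_of_isUnit hu]; simp
  · have h3 : (C b : ℂ[X]) * C b⁻¹ = 1 := by rw [← C_mul, mul_inv_cancel₀ hb, C_1]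
    have h2 : A.P * C b * C b⁻¹ = C a * A.Q * C b⁻¹ := by rw [h]
    rw [mul_assoc, h3, mul_one] at h2
    have hdvd : A.Q ∣ A.P := ⟨C a * C b⁻¹, by rw [h2]; ring⟩
    have hu : IsUnit A.Q := hcop.isUnit_of_dvd' hdvd dvd_rfl
    have hQ0 : A.Q.natDegree = 0 := natDegree_eq_zero_of_isUnit hu
    obtain ⟨q, hq⟩ := natDegree_eq_zero.1 hQ0
    have h1 : A.P = C (a * b⁻¹ * q) := by
      rw [h2, ← hq, ← C_mul, ← C_mul]; congr 1; ring
    rw [hQ0, h1, natDegree_C, max_self]

theorem Normal_mob1 {K : Type} [Field K] {a b c d U w : K} (hΔ : a * d - b * c ≠ 0)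
    (hw : w = -(c * U) + a) (hw0 : w ≠ 0) :
    (a * ((d * U - b) / w) + b) / (c * ((d * U - b) / w) + d) = U := by
  have h1 : a * ((d * U - b) / w) + b = (a * d - b * c) * U / w := by
    rw [eq_div_iff hw0, add_mul, mul_assoc, div_mul_cancel₀ _ hw0, hw]; ring
  have h2 : c * ((d * U - b) / w) + d = (a * d - b * c) / w := by
    rw [eq_div_iff hw0, add_mul, mul_assoc, div_mul_cancel₀ _ hw0, hw]; ring
  rw [h1, h2, div_eq_iff (div_ne_zero hΔ hw0)]
  ring

theorem Normal_mob2 {K : Type} [Field K] {a b c d U w : K} (hΔ : a * d - b * c ≠ 0)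
    (hw : w = c * U + d) (hw0 : w ≠ 0) :
    (d * ((a * U + b) / w) - b) / (-(c * ((a * U + b) / w)) + a) = U := by
  have h1 : d * ((a * U + b) / w) - b = (a * d - b * c) * U / w := by
    rw [eq_div_iff hw0, sub_mul, mul_assoc, div_mul_cancel₀ _ hw0, hw]; ring
  have h2 : -(c * ((a * U + b) / w)) + a = (a * d - b * c) / w := by
    rw [eq_div_iff hw0, add_mul, neg_mul, mul_assoc, div_mul_cancel₀ _ hw0, hw]; ring
  rw [h1, h2, div_eq_iff (div_ne_zero hΔ hw0)]
  ring

/-- The identity. -/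
noncomputable def Normal_id : RF := ⟨X, 1, isCoprime_one_right⟩

theorem Normal_id_n : Normal_id.n = 1 := by simp [Normal_id, RF.n]

theorem Normal_id_val (z : P1) : Normal_id.val z = z := by
  cases z with
  | none => simp [Normal_id, RF.val, RF.n, coeff_one]
  | some z => simp [Normal_id, RF.val]

theorem Normal_id_app {K : Type} [Field K] [Algebra ℂ K] (U : K) : Normal_id.app U = U := by
  simp [Normal_id, RF.app]

/-- A rational function of degree one: all indices are one, values are a bijection, and there is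
an inverse. -/
theorem moebius_facts (M : RF) (hM : M.n = 1) : (∀ z, M.e z = 1) ∧ Function.Bijective M.val ∧
    ∃ M' : RF, M'.n = 1 ∧ (∀ z, M'.val (M.val z) = z) ∧ (∀ z, M.val (M'.val z) = z) ∧
      ∀ (K : Type) [Field K] [Algebra ℂ K] (U : K), NonConst U →
        M.app (M'.app U) = U ∧ M'.app (M.app U) = U := by
  have hn : 1 ≤ M.n := by omega
  have he : ∀ z, M.e z = 1 := by
    intro z
    have h1 := M.one_le_e hn z
    have h2 := M.e_le hn z
    omega
  have hcard : ∀ c, (M.fiber_finite hn c).toFinset.card = 1 := by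
    intro c
    have h1 := M.sum_e hn c
    rw [hM, Finset.sum_congr rfl (fun z _ => he z)] at h1
    simpa using h1
  refine ⟨he, ⟨?_, ?_⟩, ?_⟩
  · intro z w hzw
    obtain ⟨a, ha⟩ := Finset.card_eq_one.1 (hcard (M.val w))
    have h1 : z ∈ (M.fiber_finite hn (M.val w)).toFinset := by simpa using hzw
    have h2 : w ∈ (M.fiber_finite hn (M.val w)).toFinset := by simp
    rw [ha, Finset.mem_singleton] at h1 h2
    rw [h1, h2]
  · intro c
    obtain ⟨a, ha⟩ := Finset.card_eq_one.1 (hcard c)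
    have h1 : a ∈ (M.fiber_finite hn c).toFinset := by rw [ha]; simp
    exact ⟨a, by simpa using h1⟩
  · have hPd : M.P.natDegree ≤ 1 := by rw [← hM]; exact le_max_left _ _
    have hQd : M.Q.natDegree ≤ 1 := by rw [← hM]; exact le_max_right _ _
    obtain ⟨a, b, hP⟩ := exists_eq_X_add_C_of_natDegree_le_one hPd
    obtain ⟨c, d, hQ⟩ := exists_eq_X_add_C_of_natDegree_le_one hQd
    have hac : a ≠ 0 ∨ c ≠ 0 := by
      by_contra hcon
      push Not at hcon
      have h1 : M.n = 0 := by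
        unfold RF.n
        rw [hP, hQ, hcon.1, hcon.2]; simp
      omega
    have hcd : c ≠ 0 ∨ d ≠ 0 := by
      by_contra hcon
      push Not at hcon
      have h1 := M.Q_ne_zero hn
      rw [hQ, hcon.1, hcon.2] at h1
      simp at h1
    have hΔ : a * d - b * c ≠ 0 := by
      intro h0
      have h1 : M.P * C c = C a * M.Q := by
        rw [hP, hQ]
        have h2 : (C a : ℂ[X]) * C d - C b * C c = 0 := by
          rw [← C_mul, ← C_mul, ← C_sub, h0, C_0]
        linear_combination -h2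
      have := Normal_prop M hac h1
      omega
    have hcop : IsCoprime (C d * X - C b : ℂ[X]) (-(C c * X) + C a) := by
      have h3 : (C (a * d - b * c) : ℂ[X]) * C (a * d - b * c)⁻¹ = 1 := by
        rw [← C_mul, mul_inv_cancel₀ hΔ, C_1]
      refine ⟨C c * C (a * d - b * c)⁻¹, C d * C (a * d - b * c)⁻¹, ?_⟩
      rw [C_sub, C_mul, C_mul] at h3
      linear_combination h3
    have hn' : RF.n ⟨C d * X - C b, -(C c * X) + C a, hcop⟩ = 1 := by
      unfold RF.n
      show max (C d * X - C b : ℂ[X]).natDegree (-(C c * X) + C a : ℂ[X]).natDegree = 1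
      have h1 : (C d * X - C b : ℂ[X]).natDegree = (C d * X : ℂ[X]).natDegree := natDegree_sub_C
      have h2 : (-(C c * X) + C a : ℂ[X]).natDegree = (C c * X : ℂ[X]).natDegree := by
        rw [natDegree_add_C, natDegree_neg]
      rw [h1, h2]
      rcases hcd with h | h
      · rw [natDegree_C_mul_X _ h]
        exact max_eq_right ((natDegree_C_mul_le _ _).trans natDegree_X_le)
      · rw [natDegree_C_mul_X _ h]
        exact max_eq_left ((natDegree_C_mul_le _ _).trans natDegree_X_le)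
    have hne : ∀ (K : Type) [Field K] [Algebra ℂ K] (U : K), NonConst U → ∀ r s : ℂ,
        (r ≠ 0 ∨ s ≠ 0) → algebraMap ℂ K r * U + algebraMap ℂ K s ≠ 0 := by
      intro K _ _ U hU r s hrs h0
      have h1 : aeval U (C r * X + C s : ℂ[X]) = 0 := by
        simpa using h0
      refine hU.aeval_ne_zero ?_ h1
      intro h2
      have h3 := congrArg (fun p => p.coeff 1) h2
      have h4 := congrArg (fun p => p.coeff 0) h2
      simp at h3 h4
      rcases hrs with h | h
      · exact h h3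
      · exact h h4
    have happ : ∀ (K : Type) [Field K] [Algebra ℂ K] (U : K), NonConst U →
        M.app (RF.app ⟨C d * X - C b, -(C c * X) + C a, hcop⟩ U) = U ∧
        RF.app ⟨C d * X - C b, -(C c * X) + C a, hcop⟩ (M.app U) = U := by
      intro K _ _ U hU
      have h1 := hne K U hU c d hcd
      have h2 := hne K U hU (-c) a (by
        rcases hac with h | h
        · exact Or.inr h
        · exact Or.inl (neg_ne_zero.2 h))
      rw [map_neg] at h2
      have h5 : (algebraMap ℂ K a) * algebraMap ℂ K d - algebraMap ℂ K b * algebraMap ℂ K c ≠ 0 := by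
        rw [← map_mul, ← map_mul, ← map_sub]
        intro h6
        exact hΔ ((algebraMap ℂ K).injective (by rw [h6, map_zero]))
      unfold RF.app
      rw [hP, hQ]
      simp only [map_add, map_mul, map_sub, map_neg, aeval_C, aeval_X]
      refine ⟨Normal_mob1 h5 rfl ?_, Normal_mob2 h5 rfl h1⟩
      convert h2 using 2; ring
    refine ⟨⟨C d * X - C b, -(C c * X) + C a, hcop⟩, hn', ?_, ?_, happ⟩
    · intro z
      have h1 : Normal_id.IsComp ⟨C d * X - C b, -(C c * X) + C a, hcop⟩ M := by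
        show Normal_id.app (RatFunc.X : RatFunc ℂ) = _
        rw [Normal_id_app, (happ _ _ ratFuncX_nonConst).2]
      have h2 := (comp_facts h1 (by rw [Normal_id_n]) hn).2.2.1 z
      rw [← h2, Normal_id_val]
    · intro z
      have h1 : Normal_id.IsComp M ⟨C d * X - C b, -(C c * X) + C a, hcop⟩ := by
        show Normal_id.app (RatFunc.X : RatFunc ℂ) = _
        rw [Normal_id_app, (happ _ _ ratFuncX_nonConst).1]
      have h2 := (comp_facts h1 (by rw [Normal_id_n]) (by rw [hn'])).2.2.1 z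
      rw [← h2, Normal_id_val]

/-- `S(x) = z0 + 1 / x`. -/
noncomputable def Normal_S (z0 : ℂ) : RF := ⟨C z0 * X + 1, X, ⟨1, -C z0, by ring⟩⟩

/-- `T(x) = 1 / (x - c0)`. -/
noncomputable def Normal_T (c0 : ℂ) : RF := ⟨1, X - C c0, isCoprime_one_left⟩

theorem Normal_S_n (z0 : ℂ) : (Normal_S z0).n = 1 := by
  unfold Normal_S RF.n
  show max (C z0 * X + 1 : ℂ[X]).natDegree (X : ℂ[X]).natDegree = 1
  rw [← C_1, natDegree_add_C, natDegree_X]
  exact max_eq_right ((natDegree_C_mul_le _ _).trans natDegree_X_le)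

theorem Normal_T_n (c0 : ℂ) : (Normal_T c0).n = 1 := by
  unfold Normal_T RF.n
  show max (1 : ℂ[X]).natDegree (X - C c0 : ℂ[X]).natDegree = 1
  rw [natDegree_one, natDegree_X_sub_C]
  rfl

theorem Normal_S_none (z0 : ℂ) : (Normal_S z0).val none = some z0 := by
  have h := Normal_S_n z0
  simp only [RF.val]
  rw [h]
  simp [Normal_S, coeff_one]

theorem Normal_T_some (c0 : ℂ) : (Normal_T c0).val (some c0) = none := by
  simp [Normal_T, RF.val]

/-- a finite point whose value is finite and not critical -/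
theorem Normal_exists_point (A : RF) (hn : 1 ≤ A.n) : ∃ z0 c0 : ℂ, A.val (some z0) = some c0 ∧
    ∀ w, A.val w = some c0 → A.e w = 1 := by
  classical
  have hfin : ({z : P1 | A.val z = none} ∪ ⋃ r ∈ (A.ramified_finite hn).toFinset,
      {z : P1 | A.val z = A.val r}).Finite := by
    refine (A.fiber_finite hn none).union ?_
    exact Set.Finite.biUnion (Finset.finite_toSet _) (fun r _ => A.fiber_finite hn (A.val r))
  have hinf : (Set.range (some : ℂ → P1)).Infinite :=
    Set.infinite_range_of_injective (Option.some_injective ℂ)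
  obtain ⟨z, ⟨z0, rfl⟩, hz⟩ := (hinf.sdiff hfin).nonempty
  rw [Set.mem_union, not_or] at hz
  obtain ⟨c0, hc0⟩ := Option.ne_none_iff_exists'.1 hz.1
  refine ⟨z0, c0, hc0, fun w hw => ?_⟩
  by_contra hne
  apply hz.2
  simp only [Set.mem_iUnion]
  exact ⟨w, by simpa using hne, by rw [Set.mem_ofPred_eq, hc0, hw]⟩

theorem Normal_elt_eq_iff {A : RF} {K : Type} [Field K] [Algebra ℂ K] (φ : E →ₐ[ℂ] K) :
    φ (elt A) = A.app (φ RatFunc.X) := coord_elt φ A

/-- make the numerator monic -/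
theorem Normal_monic (A : RF) (hn : 1 ≤ A.n) : ∃ A' : RF, elt A' = elt A ∧ A'.P.Monic ∧
    1 ≤ A'.n := by
  have hP : A.P ≠ 0 := by
    intro h0
    have h1 := A.cop
    rw [h0] at h1
    have h2 : IsUnit A.Q := isCoprime_zero_left.1 h1
    have h3 : A.n = 0 := by
      unfold RF.n
      rw [h0, natDegree_eq_zero_of_isUnit h2]; simp
    omega
  have hl : A.P.leadingCoeff ≠ 0 := leadingCoeff_ne_zero.2 hP
  have hu : IsUnit (C A.P.leadingCoeff⁻¹ : ℂ[X]) := by
    rw [isUnit_C]; exact (isUnit_iff_ne_zero.2 (inv_ne_zero hl))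
  refine ⟨⟨C A.P.leadingCoeff⁻¹ * A.P, C A.P.leadingCoeff⁻¹ * A.Q,
    (isCoprime_mul_unit_left hu A.P A.Q).2 A.cop⟩, ?_, ?_, ?_⟩
  · unfold elt RF.app
    simp only [map_mul, aeval_C]
    rw [mul_div_mul_left]
    intro h0
    exact inv_ne_zero hl ((algebraMap ℂ (RatFunc ℂ)).injective (by rw [h0, map_zero]))
  · show (C A.P.leadingCoeff⁻¹ * A.P).Monic
    rw [Monic, leadingCoeff_mul, leadingCoeff_C, inv_mul_cancel₀ hl]
  · show 1 ≤ max (C A.P.leadingCoeff⁻¹ * A.P).natDegree (C A.P.leadingCoeff⁻¹ * A.Q).natDegree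
    rw [natDegree_C_mul (inv_ne_zero hl), natDegree_C_mul (inv_ne_zero hl)]
    exact hn

/-- `A' = T ∘ A ∘ S` with Moebius transformations `S(x) = z0 + 1 / x`, `T(x) = 1 / (x - c0)`,
`A(z0) = c0` not a critical value; then scale to make `A'.P` monic. -/
theorem normalise (A : RF) (hn : 2 ≤ A.n) (c : Fin 3 → P1) (hc : Function.Injective c)
    (hs : ∀ i, A.SimpleVal (c i)) :
    ∃ (A' : RF) (c' q' : Fin 3 → ℂ), Norm3 A' c' q' ∧
      (∀ (K : Type) [Field K] [Algebra ℂ K] (φ ψ : E →ₐ[ℂ] K), φ ≠ ψ →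
        φ (elt A) = ψ (elt A) → ∃ φ' ψ' : E →ₐ[ℂ] K, φ' ≠ ψ' ∧
          φ' (elt A') = ψ' (elt A')) ∧
      ∀ B' C' : RF, A'.IsComp B' C' → 1 ≤ C'.n → ∃ B C : RF, A.IsComp B C ∧ C.n = C'.n ∧
        ((∃ z, C'.e z = 4) → ∃ z, C.e z = 4) := by
  have hn1 : 1 ≤ A.n := by omega
  obtain ⟨z0, c0, hz0, hc0⟩ := Normal_exists_point A hn1
  obtain ⟨hSe, hSb, S', hS'n, hS'S, hSS', hSapp⟩ := moebius_facts (Normal_S z0) (Normal_S_n z0)
  obtain ⟨hTe, hTb, T', hT'n, hT'T, hTT', hTapp⟩ := moebius_facts (Normal_T c0) (Normal_T_n c0)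
  have hSn : 1 ≤ (Normal_S z0).n := by rw [Normal_S_n]
  have hTn : 1 ≤ (Normal_T c0).n := by rw [Normal_T_n]
  have hS'n1 : 1 ≤ S'.n := by rw [hS'n]
  have hT'n1 : 1 ≤ T'.n := by rw [hT'n]
  obtain ⟨A1, hA1, hA1n⟩ := exists_comp A (Normal_S z0) hn1 hSn
  obtain ⟨A2, hA2, hA2n⟩ := exists_comp (Normal_T c0) A1 hTn hA1n
  obtain ⟨A3, hA3, hmon, hA3n⟩ := Normal_monic A2 hA2n
  obtain ⟨-, hn1', hv1, he1⟩ := comp_facts hA1 hA1n hSn
  obtain ⟨-, hn2', hv2, he2⟩ := comp_facts hA2 hA2n hA1n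
  obtain ⟨hn3, hv3, he3⟩ := congr_elt hA3 hA3n hA2n
  have hval : ∀ z, A3.val z = (Normal_T c0).val (A.val ((Normal_S z0).val z)) := by
    intro z; rw [hv3, hv2, hv1]
  have he : ∀ z, A3.e z = A.e ((Normal_S z0).val z) := by
    intro z; rw [he3, he2, he1, hTe, hSe, one_mul, mul_one]
  have hnn : A3.n = A.n := by
    rw [hn3, hn2', hn1', Normal_S_n, Normal_T_n]; ring
  have hlt : A3.Q.natDegree < A3.P.natDegree := by
    have h1 : A3.val none = none := by
      rw [hval, Normal_S_none, hz0, Normal_T_some]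
    have h2 : A3.Q.coeff A3.n = 0 := by
      by_contra h3
      simp only [RF.val] at h1
      rw [if_neg h3] at h1
      exact absurd h1 (by simp)
    have hQ0 := A3.Q_ne_zero hA3n
    by_contra hcon
    push Not at hcon
    have h3 : A3.n = A3.Q.natDegree := max_eq_right hcon
    rw [h3, coeff_natDegree] at h2
    exact hQ0 (leadingCoeff_eq_zero.1 h2)
  have hPn : A3.P.natDegree = A3.n := (max_eq_left hlt.le).symm
  choose p hpv hpe hpu using hs
  have hcne : ∀ i, c i ≠ some c0 := by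
    intro i h
    have := hc0 (p i) (by rw [hpv, h])
    rw [hpe] at this
    omega
  have hTc : ∀ i, ∃ t : ℂ, (Normal_T c0).val (c i) = some t := by
    intro i
    apply Option.ne_none_iff_exists'.1
    rw [← Normal_T_some c0]
    intro h
    exact hcne i (hTb.1 h)
  choose c' hc' using hTc
  have hpne : ∀ i, p i ≠ some z0 := by
    intro i h
    apply hcne i
    rw [← hpv i, h, hz0]
  have hSq : ∀ i, ∃ t : ℂ, S'.val (p i) = some t := by
    intro i
    apply Option.ne_none_iff_exists'.1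
    intro h
    apply hpne i
    rw [← hSS' (p i), h, Normal_S_none]
  choose q' hq' using hSq
  have hSq' : ∀ i, (Normal_S z0).val (some (q' i)) = p i := by
    intro i; rw [← hq', hSS']
  have hqv : ∀ i, A3.val (some (q' i)) = some (c' i) := by
    intro i; rw [hval, hSq', hpv, hc']
  refine ⟨A3, c', q', ⟨hmon, hlt, ?_, ?_, ?_, ?_, ?_, ?_, ?_, ?_⟩, ?_, ?_⟩
  · rw [hPn, hnn]; exact hn
  · intro i j hij
    apply hc
    apply hTb.1
    rw [hc', hc', hij]
  · intro i j hij
    apply hc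
    rw [← hpv i, ← hpv j, ← hSq', ← hSq', hij]
  · intro i
    exact ((Normal_val_some A3).1 (hqv i)).1
  · intro i
    exact ((Normal_val_some A3).1 (hqv i)).2
  · intro i
    have h1 := he (some (q' i))
    rw [hSq', hpe] at h1
    unfold RF.e at h1
    rw [hqv] at h1
    exact h1
  · intro i w hw hPw
    have hQw : A3.Q.eval w ≠ 0 := by
      intro h0
      rw [h0, mul_zero] at hPw
      obtain ⟨u, v, huv⟩ := A3.cop
      have h := congrArg (eval w) huv
      simp [h0, hPw] at h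
    have hvw : A3.val (some w) = some (c' i) := (Normal_val_some A3).2 ⟨hQw, hPw⟩
    have h1 := he (some w)
    have h2 : A.val ((Normal_S z0).val (some w)) = c i := by
      apply hTb.1
      rw [← hval, hvw, hc']
    rw [hpu i _ ?_ h2] at h1
    · unfold RF.e at h1
      rw [hvw] at h1
      exact h1
    · rw [← hSq' i]
      intro h
      exact hw (Option.some_injective _ (hSb.1 h))
  · intro z hz
    rw [he]
    apply hc0
    apply hTb.1
    rw [← hval, hz, Normal_T_some]
  · intro K _ _ φ ψ hne h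
    have hφ := coord_nonConst φ
    have hψ := coord_nonConst ψ
    obtain ⟨φ', hφ'⟩ := exists_subst (S'.app_nonConst hS'n1 hφ)
    obtain ⟨ψ', hψ'⟩ := exists_subst (S'.app_nonConst hS'n1 hψ)
    have hkey : ∀ (χ χ' : E →ₐ[ℂ] K), NonConst (χ RatFunc.X) →
        χ' RatFunc.X = S'.app (χ RatFunc.X) → χ' (elt A3) = (Normal_T c0).app (χ (elt A)) := by
      intro χ χ' hχ hχ'
      have hU : NonConst (S'.app (χ RatFunc.X)) := S'.app_nonConst hS'n1 hχ
      rw [hA3, coord_elt, coord_elt, hχ', hA2.app_eq hU, hA1.app_eq hU, (hSapp K _ hχ).1]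
    refine ⟨φ', ψ', ?_, ?_⟩
    · intro heq
      apply coord_ne hne
      rw [← (hSapp K _ hφ).1, ← (hSapp K _ hψ).1, ← hφ', ← hψ', heq]
    · rw [hkey φ φ' hφ hφ', hkey ψ ψ' hψ hψ', h]
  · intro B' C' hcomp hC'n
    obtain ⟨hB'n, -, -, -⟩ := comp_facts hcomp hA3n hC'n
    obtain ⟨C1, hC1, hC1n⟩ := exists_comp C' S' hC'n hS'n1
    obtain ⟨B1, hB1, hB1n⟩ := exists_comp T' B' hT'n1 hB'n
    obtain ⟨-, hC1n', hC1v, hC1e⟩ := comp_facts hC1 hC1n hS'n1
    refine ⟨B1, C1, ?_, ?_, ?_⟩
    · show A.app (RatFunc.X : RatFunc ℂ) = B1.app (C1.app (RatFunc.X : RatFunc ℂ))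
      have hX := ratFuncX_nonConst
      have hSX := S'.app_nonConst hS'n1 hX
      have hC1X := C1.app_nonConst hC1n hX
      have h1 : A3.app (S'.app (RatFunc.X : RatFunc ℂ)) =
          (Normal_T c0).app (A.app (RatFunc.X : RatFunc ℂ)) := by
        obtain ⟨σ, hσ⟩ := exists_subst hSX
        have h2 := congrArg σ hA3
        rw [coord_elt, coord_elt, hσ, hA2.app_eq hSX, hA1.app_eq hSX, (hSapp _ _ hX).1] at h2
        exact h2
      have h3 : A.app (RatFunc.X : RatFunc ℂ) =
          T'.app (A3.app (S'.app (RatFunc.X : RatFunc ℂ))) := by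
        rw [h1, (hTapp _ _ (A.app_nonConst hn1 hX)).2]
      rw [h3, hcomp.app_eq hSX, hB1.app_eq hC1X, hC1.app_eq hX]
    · rw [hC1n', hS'n, mul_one]
    · rintro ⟨z, hz⟩
      obtain ⟨hS'e, -⟩ := moebius_facts S' hS'n
      refine ⟨(Normal_S z0).val z, ?_⟩
      rw [hC1e, hS'e, hS'S, hz]

end WildS
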