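import Pool.Agent.helper21.WS.Gauss
import Pool.Agent.helper21.WS.Pair

/-! The degree of the component is at most three. -/

namespace WildS

open Polynomial WildRat

variable {K : Type} [Field K] [Algebra ℂ K]

open Classical in
/-- the value of a coordinate at a place -/
noncomputable def Numeric_val (ψ : E →ₐ[ℂ] K) (P : Pl K) : ℂ :=
  if h : ∃ b, P ∈ fib ψ b then h.choose else 0

theorem Numeric_val_eq {ψ : E →ₐ[ℂ] K} {P : Pl K} {b : ℂ} (hb : P ∈ fib ψ b) :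
    Numeric_val ψ P = b := by
  unfold Numeric_val
  have h : ∃ b, P ∈ fib ψ b := ⟨b, hb⟩
  rw [dif_pos h]
  exact P.value_unique h.choose_spec hb

theorem Numeric_n {A : RF} {c q : Fin 3 → ℂ} (hA : Norm3 A c q) : 1 ≤ A.n := by
  have h1 := hA.two
  have h2 : A.n = max A.P.natDegree A.Q.natDegree := rfl
  omega

/-- the situation at one place over `q i` -/
theorem Numeric_local (hK : Good K) {A : RF} {c q : Fin 3 → ℂ} (hA : Norm3 A c q)
    {φ ψ : E →ₐ[ℂ] K} (h : φ (elt A) = ψ (elt A)) {i : Fin 3} {P : Pl K}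
    (hP : P ∈ fib φ (q i)) :
    (P ∈ fib ψ (q i) → P.ord (ψ RatFunc.X - algebraMap ℂ K (q i)) =
      P.ord (φ RatFunc.X - algebraMap ℂ K (q i))) ∧
    (P ∉ fib ψ (q i) → P.ord (ψ RatFunc.X - algebraMap ℂ K (q i)) = 0 ∧
      ∃ b, P ∈ fib ψ b ∧ P.ord (ψ RatFunc.X - algebraMap ℂ K b) =
        2 * P.ord (φ RatFunc.X - algebraMap ℂ K (q i))) := by
  obtain ⟨b, hb1, hb2, hb3, hb4⟩ := place_pair A hA.lt (hK.fin ψ) h hP (hA.Qne i) (hA.val i)
  rw [hA.mult i] at hb4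
  constructor
  · intro hq
    have hbq : b = q i := P.value_unique hb1 hq
    subst hbq
    rw [hA.mult i] at hb4
    push_cast at hb4
    omega
  · intro hq
    have hbq : b ≠ q i := by
      rintro rfl
      exact hq hb1
    rw [hA.simple i b hbq hb3] at hb4
    push_cast at hb4
    refine ⟨(P.ord_sub_of_ne hb1 hbq).2, b, hb1, ?_⟩
    omega

open Classical in
/-- the common part of the fibres over `q` -/
noncomputable def Numeric_T (hK : Good K) (φ ψ : E →ₐ[ℂ] K) (q : ℂ) : Finset (Pl K) :=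
  (fibS φ (hK.fin φ) q).filter fun P => P ∈ fib ψ q

open Classical in
noncomputable def Numeric_S (hK : Good K) (φ ψ : E →ₐ[ℂ] K) (q : ℂ) : Finset (Pl K) :=
  (fibS φ (hK.fin φ) q).filter fun P => P ∉ fib ψ q

theorem Numeric_mem_T (hK : Good K) {φ ψ : E →ₐ[ℂ] K} {q : ℂ} {P : Pl K} :
    P ∈ Numeric_T hK φ ψ q ↔ P ∈ fib φ q ∧ P ∈ fib ψ q := by
  classical
  unfold Numeric_T
  rw [Finset.mem_filter, mem_fibS]

theorem Numeric_mem_S (hK : Good K) {φ ψ : E →ₐ[ℂ] K} {q : ℂ} {P : Pl K} :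
    P ∈ Numeric_S hK φ ψ q ↔ P ∈ fib φ q ∧ P ∉ fib ψ q := by
  classical
  unfold Numeric_S
  rw [Finset.mem_filter, mem_fibS]

/-- the number `k` -/
noncomputable def Numeric_k (hK : Good K) (φ ψ : E →ₐ[ℂ] K) (q : ℂ) : ℤ :=
  ∑ P ∈ Numeric_T hK φ ψ q, P.ord (φ RatFunc.X - algebraMap ℂ K q)

theorem Numeric_split (hK : Good K) (φ ψ : E →ₐ[ℂ] K) (q : ℂ) (f : Pl K → ℤ) :
    ∑ P ∈ fibS φ (hK.fin φ) q, f P = ∑ P ∈ Numeric_T hK φ ψ q, f P +
      ∑ P ∈ Numeric_S hK φ ψ q, f P := by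
  classical
  unfold Numeric_T Numeric_S
  rw [Finset.sum_filter_add_sum_filter_not]

theorem Numeric_k_eq (hK : Good K) {A : RF} {c q : Fin 3 → ℂ} (hA : Norm3 A c q)
    {φ ψ : E →ₐ[ℂ] K} (h : φ (elt A) = ψ (elt A)) (i : Fin 3) :
    Numeric_k hK φ ψ (q i) =
      ∑ P ∈ fibS φ (hK.fin φ) (q i), P.ord (ψ RatFunc.X - algebraMap ℂ K (q i)) := by
  rw [Numeric_split hK φ ψ (q i), Numeric_k]
  have h1 : ∑ P ∈ Numeric_S hK φ ψ (q i), P.ord (ψ RatFunc.X - algebraMap ℂ K (q i)) = 0 := by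
    refine Finset.sum_eq_zero fun P hP => ?_
    rw [Numeric_mem_S] at hP
    exact ((Numeric_local hK hA h hP.1).2 hP.2).1
  rw [h1, add_zero]
  refine Finset.sum_congr rfl fun P hP => ?_
  rw [Numeric_mem_T] at hP
  exact ((Numeric_local hK hA h hP.1).1 hP.2).symm

theorem Numeric_k_symm (hK : Good K) {A : RF} {c q : Fin 3 → ℂ} (hA : Norm3 A c q)
    {φ ψ : E →ₐ[ℂ] K} (h : φ (elt A) = ψ (elt A)) (i : Fin 3) :
    Numeric_k hK ψ φ (q i) = Numeric_k hK φ ψ (q i) := by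
  unfold Numeric_k
  have hT : Numeric_T hK ψ φ (q i) = Numeric_T hK φ ψ (q i) := by
    ext P
    rw [Numeric_mem_T, Numeric_mem_T, and_comm]
  rw [hT]
  refine Finset.sum_congr rfl fun P hP => ?_
  rw [Numeric_mem_T] at hP
  exact (Numeric_local hK hA h hP.1).1 hP.2

theorem Numeric_S_sum (hK : Good K) (φ ψ : E →ₐ[ℂ] K) (q : ℂ) :
    ∑ P ∈ Numeric_S hK φ ψ q, P.ord (φ RatFunc.X - algebraMap ℂ K q) =
      deg φ - Numeric_k hK φ ψ q := by
  have h1 := Numeric_split hK φ ψ q (fun P => P.ord (φ RatFunc.X - algebraMap ℂ K q))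
  rw [sum_self] at h1
  rw [Numeric_k]
  linarith

/-- the Riemann-Hurwitz inequality -/
theorem Numeric_rh (hK : Good K) {A : RF} {c q : Fin 3 → ℂ} (hA : Norm3 A c q)
    {φ ψ : E →ₐ[ℂ] K} (h : φ (elt A) = ψ (elt A)) (U : Finset (Pl K)) (b : Pl K → ℂ)
    (hU : ∀ P ∈ U, P ∈ fib ψ (b P)) (hU' : ∀ P ∈ U, ∀ i, P ∉ fib φ (q i)) :
    3 * (deg φ : ℤ) - ∑ i, Numeric_k hK φ ψ (q i) +
      ∑ P ∈ U, (P.ord (ψ RatFunc.X - algebraMap ℂ K (b P)) - 1) ≤ 2 * (deg ψ : ℤ) := by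
  classical
  set S : Fin 3 → Finset (Pl K) := fun i => Numeric_S hK φ ψ (q i) with hS
  have hdis : Disjoint (Finset.univ.biUnion S) U := by
    rw [Finset.disjoint_left]
    intro P hP hPU
    rw [Finset.mem_biUnion] at hP
    obtain ⟨i, _, hi⟩ := hP
    rw [hS] at hi
    exact hU' P hPU i ((Numeric_mem_S hK).1 hi).1
  have hpair : ∀ i ∈ (Finset.univ : Finset (Fin 3)), ∀ j ∈ (Finset.univ : Finset (Fin 3)),
      i ≠ j → Disjoint (S i) (S j) := by
    intro i _ j _ hij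
    rw [Finset.disjoint_left]
    intro P hi hj
    have h1 := ((Numeric_mem_S hK).1 hi).1
    have h2 := ((Numeric_mem_S hK).1 hj).1
    exact hij (hA.qinj (P.value_unique h1 h2))
  have hval : ∀ P ∈ Finset.univ.biUnion S ∪ U, P ∈ fib ψ (Numeric_val ψ P) := by
    intro P hP
    rw [Finset.mem_union, Finset.mem_biUnion] at hP
    rcases hP with ⟨i, _, hi⟩ | hP
    · obtain ⟨h1, h2⟩ := (Numeric_mem_S hK).1 hi
      obtain ⟨b, hb, _⟩ := ((Numeric_local hK hA h h1).2 h2).2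
      rw [Numeric_val_eq hb]
      exact hb
    · rw [Numeric_val_eq (hU P hP)]
      exact hU P hP
  have hrh := hK.rh ψ (Finset.univ.biUnion S ∪ U) (Numeric_val ψ) hval
  rw [Finset.sum_union hdis, Finset.sum_biUnion hpair] at hrh
  have hUs : ∑ P ∈ U, (P.ord (ψ RatFunc.X - algebraMap ℂ K (Numeric_val ψ P)) - 1) =
      ∑ P ∈ U, (P.ord (ψ RatFunc.X - algebraMap ℂ K (b P)) - 1) := by
    refine Finset.sum_congr rfl fun P hP => ?_
    rw [Numeric_val_eq (hU P hP)]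
  have hSs : ∀ i, (deg φ : ℤ) - Numeric_k hK φ ψ (q i) ≤
      ∑ P ∈ S i, (P.ord (ψ RatFunc.X - algebraMap ℂ K (Numeric_val ψ P)) - 1) := by
    intro i
    rw [← Numeric_S_sum]
    refine Finset.sum_le_sum fun P hP => ?_
    obtain ⟨h1, h2⟩ := (Numeric_mem_S hK).1 hP
    obtain ⟨b, hb, hb2⟩ := ((Numeric_local hK hA h h1).2 h2).2
    rw [Numeric_val_eq hb, hb2]
    have h3 : 0 < P.ord (φ RatFunc.X - algebraMap ℂ K (q i)) := h1
    omega
  have hsum := Finset.sum_le_sum (s := (Finset.univ : Finset (Fin 3))) (fun i _ => hSs i)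
  rw [Finset.sum_sub_distrib, Finset.sum_const, Finset.card_univ, Fintype.card_fin,
    nsmul_eq_mul] at hsum
  push_cast at hsum
  linarith

/-- Let `δ = deg φ = deg ψ = m d`, `S i` the places over `q i` for `φ` with `ψ x ≠ q i`,
`T i` the places over `q i` for `φ` and `ψ`, `k i = ∑_{T i} ord (φ x - q i)`.
`place_pair`: on `S i` `ord (ψ x - b) = 2 ord (φ x - q i)`, on `T i` the two orders are equal.
`sum_self`: `∑_{S i} ord (φ x - q i) = δ - k i`.  `mu_norm`, `mu_eval_le`: `k i ≤ m`.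
Riemann-Hurwitz for `ψ` and the union of the `S i` (the values `a P` of `ψ x` by choice):
`∑_i ∑_{S i} (2 ord (φ x - q i) - 1) ≤ 2 δ`, and `2 e - 1 ≥ e`.
So `3 δ - ∑ k i ≤ 2 δ`, `δ ≤ ∑ k i ≤ 3 m`, `d ≤ 3`, and some `T i` is not empty.
If `d = 3` all inequalities are equalities; adding one more place `P` to the set gives
`ord (ψ x - b) - 1 ≤ 0`.  The same with `φ` and `ψ` exchanged (`k i` is symmetric). -/
theorem numeric (hK : Good K) {A : RF} {c q : Fin 3 → ℂ} (hA : Norm3 A c q)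
    {φ ψ : E →ₐ[ℂ] K} (hne : φ ≠ ψ) (h : φ (elt A) = ψ (elt A)) :
    (mu φ (ψ RatFunc.X)).natDegree ≤ 3 ∧ (∃ i P, P ∈ fib φ (q i) ∧ P ∈ fib ψ (q i)) ∧
    ((mu φ (ψ RatFunc.X)).natDegree = 3 → ∀ P : Pl K, (∀ i, P ∉ fib φ (q i)) →
      (∀ i, P ∉ fib ψ (q i)) → ∀ a b, P ∈ fib φ a → P ∈ fib ψ b →
        P.ord (φ RatFunc.X - algebraMap ℂ K a) = 1 ∧
        P.ord (ψ RatFunc.X - algebraMap ℂ K b) = 1) := by
  have hn := Numeric_n hA
  have hdeg : deg φ = deg ψ := deg_eq A hn h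
  have hpos : 0 < deg φ := deg_pos (hK.fin φ)
  obtain ⟨m, hm, hmd, hm2⟩ := mu_norm φ (hK.fin φ) (ψ RatFunc.X)
  set d := (mu φ (ψ RatFunc.X)).natDegree with hd
  have hk : ∀ i, Numeric_k hK φ ψ (q i) ≤ m := by
    intro i
    have h1 := (hm2 (q i) (q i) (fun h0 => coord_sub_ne ψ (q i) (sub_eq_zero.2 h0))).2
    have h2 := mu_eval_le A hA.monic hA.lt (hK.fin φ) hne h (hA.val i) (hA.Qne i) (hA.mult i)
    rw [Numeric_k_eq hK hA h i, h1]
    have h3 : (0 : ℤ) < m := by exact_mod_cast hm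
    nlinarith
  have hksum : ∑ i, Numeric_k hK φ ψ (q i) ≤ 3 * m := by
    calc ∑ i, Numeric_k hK φ ψ (q i) ≤ ∑ _i : Fin 3, (m : ℤ) :=
          Finset.sum_le_sum fun i _ => hk i
      _ = 3 * m := by
        rw [Finset.sum_const, Finset.card_univ, Fintype.card_fin, nsmul_eq_mul]
        push_cast
        ring
  have hrh := Numeric_rh hK hA h ∅ (fun _ => 0) (by simp) (by simp)
  rw [Finset.sum_empty, add_zero, ← hdeg] at hrh
  have hmdz : (m : ℤ) * d = deg φ := by exact_mod_cast hmd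
  have hmz : (0 : ℤ) < m := by exact_mod_cast hm
  have hposz : (0 : ℤ) < deg φ := by exact_mod_cast hpos
  refine ⟨?_, ?_, ?_⟩
  · have h1 : (m : ℤ) * d ≤ m * 3 := by linarith
    have h2 : (d : ℤ) ≤ 3 := le_of_mul_le_mul_left h1 hmz
    exact_mod_cast h2
  · by_contra hcon
    push Not at hcon
    have h1 : ∀ i, Numeric_k hK φ ψ (q i) = 0 := by
      intro i
      unfold Numeric_k
      refine Finset.sum_eq_zero fun P hP => ?_
      rw [Numeric_mem_T] at hP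
      exact absurd hP.2 (hcon i P hP.1)
    have h2 : ∑ i, Numeric_k hK φ ψ (q i) = 0 := Finset.sum_eq_zero fun i _ => h1 i
    linarith
  · intro hd3 P hP1 hP2 a b ha hb
    have h3m : (deg φ : ℤ) = 3 * m := by
      rw [← hmdz, hd3]
      push_cast
      ring
    have hpa : 0 < P.ord (φ RatFunc.X - algebraMap ℂ K a) := ha
    have hpb : 0 < P.ord (ψ RatFunc.X - algebraMap ℂ K b) := hb
    have e1 := Numeric_rh hK hA h {P} (fun _ => b) (by simpa using hb) (by simpa using hP1)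
    have e2 := Numeric_rh hK hA h.symm {P} (fun _ => a) (by simpa using ha) (by simpa using hP2)
    rw [Finset.sum_singleton] at e1 e2
    have e3 : ∑ i, Numeric_k hK ψ φ (q i) = ∑ i, Numeric_k hK φ ψ (q i) :=
      Finset.sum_congr rfl fun i _ => Numeric_k_symm hK hA h i
    rw [e3] at e2
    rw [← hdeg] at e1 e2
    constructor
    · omega
    · omega

end WildS
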