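import Pool.Agent.helper21.WS.Gauss
import Pool.Agent.helper21.WS.Pair
import Pool.Agent.helper21.WS.CompF

/-! The case of degree four: a totally ramified point. -/

namespace WildS

open Polynomial WildRat

variable {K : Type} [Field K] [Algebra ℂ K]

/-- Two different points `a`, `b` of the same fibre of `C` are the values of `φ x` and `ψ x` at
some place: `NN φ ψ` and `GG C` have the same degree, so `GG C` is a constant multiple of
`(T - x) μ`; `ord_a GG(b) ≥ 1` (`ord_GG`), `ord_a (b - x) = 0`, so `ord_a μ(b) > 0` and `mu_norm`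
gives a place over `a` where `ψ x - b` has positive order. -/
theorem exists_place {C : RF} {φ ψ : E →ₐ[ℂ] K} (hφ : FinC φ) (hne : φ ≠ ψ)
    (hlt : C.Q.natDegree < C.P.natDegree) (hC : φ (elt C) = ψ (elt C))
    (hd : C.n = (mu φ (ψ RatFunc.X)).natDegree + 1) {a b c : ℂ} (hab : a ≠ b)
    (ha : C.P.eval a = c * C.Q.eval a) (hQa : C.Q.eval a ≠ 0)
    (hb : C.P.eval b = c * C.Q.eval b) (hQb : C.Q.eval b ≠ 0) :
    ∃ P : Pl K, P ∈ fib φ a ∧ P ∈ fib ψ b := by
  have hn : 1 ≤ C.n := by omega
  have hCn : C.n = C.P.natDegree := by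
    unfold RF.n; exact max_eq_left hlt.le
  obtain ⟨hmon, hpos⟩ := mu_pos φ hφ (ψ RatFunc.X)
  obtain ⟨g, hg⟩ := NN_dvd C hn hne hC
  obtain ⟨hG0, hGord⟩ := ord_GG C hn ha hQa hb hQb
  have hNmon : (NN φ ψ).Monic := (monic_X_sub_C _).mul hmon
  have hNdeg : (NN φ ψ).natDegree = C.n := by
    unfold NN
    rw [(monic_X_sub_C _).natDegree_mul hmon, natDegree_X_sub_C, hd]; ring
  have hGdeg : (GG C).natDegree ≤ C.n := by
    unfold GG
    refine (natDegree_sub_le _ _).trans (max_le ?_ ?_)
    · rw [natDegree_map]; omega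
    · refine (natDegree_C_mul_le _ _).trans ?_
      rw [natDegree_map]; omega
  have hGne : GG C ≠ 0 := by
    intro h0; apply hG0; rw [h0, eval_zero]
  have hg0 : g ≠ 0 := by
    rintro rfl; apply hGne; rw [hg, mul_zero]
  have hgdeg : g.natDegree = 0 := by
    have h1 : (GG C).natDegree = (NN φ ψ).natDegree + g.natDegree := by
      rw [hg, hNmon.natDegree_mul' hg0]
    omega
  obtain ⟨r, hr⟩ := natDegree_eq_zero.1 hgdeg
  have hr1 : r = algebraMap ℂ E (C.P.coeff C.n) := by
    have h1 : (GG C).coeff C.n = r := by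
      rw [hg, ← hr, coeff_mul_C, ← hNdeg]
      have h2 : (NN φ ψ).coeff (NN φ ψ).natDegree = 1 := hNmon.coeff_natDegree
      rw [h2, one_mul]
    rw [← h1]
    unfold GG
    rw [coeff_sub, coeff_C_mul, coeff_map, coeff_map, coeff_eq_zero_of_natDegree_lt (p := C.Q)]
    · simp
    · omega
  have hr0 : r ≠ 0 := by
    rintro rfl; apply hg0; rw [← hr, C_0]
  have hevalG : (GG C).eval (algebraMap ℂ E b) =
      (algebraMap ℂ E b - RatFunc.X) * (mu φ (ψ RatFunc.X)).eval (algebraMap ℂ E b) * r := by
    rw [hg, ← hr]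
    unfold NN
    rw [eval_mul, eval_mul, eval_sub, eval_X, eval_C, eval_C]
  have hne1 : (algebraMap ℂ E b - RatFunc.X : E) ≠ 0 := by
    intro h0; apply hG0; rw [hevalG, h0]; ring
  have hne2 : (mu φ (ψ RatFunc.X)).eval (algebraMap ℂ E b) ≠ 0 := by
    intro h0; apply hG0; rw [hevalG, h0]; ring
  have hord1 : (plE a).ord (algebraMap ℂ E b - RatFunc.X) = 0 := by
    have h1 : (algebraMap ℂ E b - RatFunc.X : E) = algebraMap ℂ[X] E (Polynomial.C b - X) := by
      rw [map_sub, RatFunc.algebraMap_X, algC_E]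
    have h2 : (Polynomial.C b - X : ℂ[X]) ≠ 0 := by
      intro h0; apply hne1; rw [h1, h0, map_zero]
    rw [h1, plE_poly a h2]
    have h3 : (Polynomial.C b - X : ℂ[X]).rootMultiplicity a = 0 := by
      apply rootMultiplicity_eq_zero
      simp only [IsRoot, eval_sub, eval_C, eval_X]
      exact sub_ne_zero.2 (Ne.symm hab)
    rw [h3]; rfl
  have hord2 : (plE a).ord r = 0 := by
    rw [hr1]; exact (plE a).ord_C _
  have hmult : 1 ≤ (C.P - Polynomial.C c * C.Q).rootMultiplicity a := by
    rw [Nat.one_le_iff_ne_zero, ← Nat.pos_iff_ne_zero, rootMultiplicity_pos]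
    · simp [IsRoot, ha]
    · exact C.F_ne_zero hn (some c)
  have hord3 : 0 < (plE a).ord ((mu φ (ψ RatFunc.X)).eval (algebraMap ℂ E b)) := by
    rw [hevalG, (plE a).ord_mul (mul_ne_zero hne1 hne2) hr0, (plE a).ord_mul hne1 hne2,
      hord1, hord2] at hGord
    have h1 : (1 : ℤ) ≤ (C.P - Polynomial.C c * C.Q).rootMultiplicity a := by exact_mod_cast hmult
    linarith
  obtain ⟨m, hm, hmd, hmu⟩ := mu_norm φ hφ (ψ RatFunc.X)
  obtain ⟨-, hsum⟩ := hmu a b (coord_nonConst ψ b)
  have hsumpos : 0 < ∑ P ∈ fibS φ hφ a, P.ord (ψ RatFunc.X - algebraMap ℂ K b) := by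
    rw [hsum]
    have h1 : (0 : ℤ) < m := by exact_mod_cast hm
    positivity
  obtain ⟨P, hP, hPpos⟩ := Finset.exists_lt_of_sum_lt (f := fun _ => (0 : ℤ))
    (by simpa using hsumpos)
  exact ⟨P, mem_fibS.1 hP, hPpos⟩

theorem Quad_val_some (A : RF) {a t : ℂ} :
    A.val (some a) = some t ↔ A.Q.eval a ≠ 0 ∧ A.P.eval a = t * A.Q.eval a := by
  simp only [RF.val]
  split_ifs with h
  · simp [h]
  · rw [Option.some_inj, div_eq_iff h]
    exact ⟨fun h1 => ⟨h, h1⟩, fun h1 => h1.2⟩

theorem Quad_val_none (A : RF) (hlt : A.Q.natDegree < A.P.natDegree) : A.val none = none := by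
  simp only [RF.val]
  rw [if_pos]
  apply coeff_eq_zero_of_natDegree_lt
  unfold RF.n
  exact lt_of_lt_of_le hlt (le_max_left _ _)

theorem Quad_norm {A : RF} {c q : Fin 3 → ℂ} (hA : Norm3 A c q) (i : Fin 3) :
    A.val (some (q i)) = some (c i) ∧ A.e (some (q i)) = 2 ∧
      ∀ w, w ≠ some (q i) → A.val w = some (c i) → A.e w = 1 := by
  have h1 : A.val (some (q i)) = some (c i) := (Quad_val_some A).2 ⟨hA.Qne i, hA.val i⟩
  refine ⟨h1, ?_, ?_⟩
  · unfold RF.e
    rw [h1]
    exact hA.mult i
  · intro w hw hv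
    cases w with
    | none =>
      rw [Quad_val_none A hA.lt] at hv
      exact absurd hv (by simp)
    | some w =>
      unfold RF.e
      rw [hv]
      refine hA.simple i w ?_ ((Quad_val_some A).1 hv).2
      rintro rfl
      exact hw rfl

theorem Quad_fibre (C : RF) (h4 : C.n = 4) (hn : 1 ≤ C.n) {a : P1}
    (h : ∀ b, C.val b = C.val a → C.e b = C.e a) (h2 : 2 ≤ C.e a) (hne : C.e a ≠ 4) :
    C.e a = 2 ∧ (C.fiber_finite hn (C.val a)).toFinset.card = 2 := by
  have h1 := C.sum_e hn (C.val a)
  have h3 : ∑ z ∈ (C.fiber_finite hn (C.val a)).toFinset, C.e z =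
      (C.fiber_finite hn (C.val a)).toFinset.card * C.e a := by
    rw [Finset.sum_congr rfl (g := fun _ => C.e a)]
    · simp
    · intro z hz
      exact h z (by simpa using hz)
  rw [h3, h4] at h1
  have h5 : C.e a ∣ 4 := ⟨_, by rw [← h1]; ring⟩
  have h6 : C.e a ≤ 4 := Nat.le_of_dvd (by norm_num) h5
  have h7 : C.e a = 2 := by
    interval_cases C.e a
    · rfl
    · omega
    · omega
  refine ⟨h7, ?_⟩
  rw [h7] at h1
  omega

/-- Let `C` have degree four.  Over `C(q i)` the fibre has one point of index two (`q i`) and two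
unramified points.  A ramified point `a` of `C` other than the `q i` is finite with `A(a)` finite
and different from the `c i`; all points `b` of its `C`-fibre are finite, and `exists_place`, the
hypothesis `hun` and `place_pair` for `C` give `C.e a = C.e b`.  If no point has index four, these
points have index two and come in pairs; but `rh_P1` for `C` says that
`∑ (C.e z - 1) = 6 = 3 + (number of these points)`. -/
theorem quad {A B C : RF} {c q : Fin 3 → ℂ} (hA : Norm3 A c q) (hcomp : A.IsComp B C)
    (hlt : C.Q.natDegree < C.P.natDegree) (h4 : C.n = 4) {φ ψ : E →ₐ[ℂ] K} (hφ : FinC φ)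
    (hψ : FinC ψ) (hne : φ ≠ ψ) (hC : φ (elt C) = ψ (elt C))
    (hd : (mu φ (ψ RatFunc.X)).natDegree = 3)
    (hun : ∀ P : Pl K, (∀ i, P ∉ fib φ (q i)) → (∀ i, P ∉ fib ψ (q i)) →
      ∀ a b, P ∈ fib φ a → P ∈ fib ψ b →
        P.ord (φ RatFunc.X - algebraMap ℂ K a) = 1 ∧
        P.ord (ψ RatFunc.X - algebraMap ℂ K b) = 1) :
    ∃ z, C.e z = 4 := by
  classical
  by_contra hno
  push Not at hno
  have hAn : 1 ≤ A.n := by
    have h1 := hA.two
    have h2 : A.P.natDegree ≤ A.n := le_max_left _ _
    omega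
  have hn : 1 ≤ C.n := by omega
  obtain ⟨hBn, hABC, hval, he⟩ := comp_facts hcomp hAn hn
  -- the points q i
  have hq : ∀ i, C.e (some (q i)) = 2 ∧ ∀ w, w ≠ some (q i) → C.val w = C.val (some (q i)) →
      C.e w = 1 := by
    intro i
    obtain ⟨h1, h2, h3⟩ := Quad_norm hA i
    have h4' : B.e (C.val (some (q i))) * C.e (some (q i)) = 2 := by rw [← he, h2]
    have h5 : ∀ w, w ≠ some (q i) → C.val w = C.val (some (q i)) →
        B.e (C.val (some (q i))) * C.e w = 1 := by
      intro w hw hv
      rw [← hv, ← he]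
      apply h3 w hw
      rw [hval w, hv, ← hval, h1]
    have h6 : ∃ w, w ≠ some (q i) ∧ C.val w = C.val (some (q i)) := by
      by_contra hcon
      push Not at hcon
      have h7 := C.sum_e hn (C.val (some (q i)))
      have h8 : (C.fiber_finite hn (C.val (some (q i)))).toFinset = {some (q i)} := by
        ext z
        simp only [Set.Finite.mem_toFinset, Set.mem_setOf_eq, Finset.mem_singleton]
        constructor
        · intro hz
          by_contra hne1
          exact hcon z hne1 hz
        · rintro rfl; rfl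
      rw [h8, Finset.sum_singleton, h4] at h7
      exact hno _ h7
    obtain ⟨w, hw, hv⟩ := h6
    have h7 := h5 w hw hv
    have h8 : B.e (C.val (some (q i))) = 1 := Nat.eq_one_of_mul_eq_one_right h7
    rw [h8, one_mul] at h4'
    refine ⟨h4', fun w' hw' hv' => ?_⟩
    have h9 := h5 w' hw' hv'
    rwa [h8, one_mul] at h9
  -- infinity
  have hinf : ∀ z, C.val z = none → C.e z = 1 := by
    intro z hz
    have h1 : A.val z = none := by
      have h2 : A.val none = none := Quad_val_none A hA.lt
      have h3 : C.val none = none := Quad_val_none C hlt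
      rw [hval, h3] at h2
      rw [hval, hz, h2]
    have h2 := hA.unram z h1
    rw [he] at h2
    exact Nat.eq_one_of_mul_eq_one_left h2
  -- other ramified points
  have hother : ∀ a, C.e a ≠ 1 → (∀ i, a ≠ some (q i)) →
      (∀ b, C.val b = C.val a → C.e b = C.e a ∧ ∀ i, b ≠ some (q i)) := by
    intro a hea haq b hb
    have hbq : ∀ i, b ≠ some (q i) := by
      rintro i rfl
      exact hea ((hq i).2 a (haq i) hb.symm)
    refine ⟨?_, hbq⟩
    by_cases hab : b = a
    · rw [hab]
    · have hta : C.val a ≠ none := fun h => hea (hinf a h)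
      obtain ⟨t, ht⟩ := Option.ne_none_iff_exists'.1 hta
      have hnone : C.val none = none := Quad_val_none C hlt
      cases a with
      | none => exact absurd hnone hta
      | some a =>
        cases b with
        | none => rw [hnone] at hb; exact absurd hb.symm hta
        | some b =>
          rw [ht] at hb
          obtain ⟨hQa, hPa⟩ := (Quad_val_some C).1 ht
          obtain ⟨hQb, hPb⟩ := (Quad_val_some C).1 hb
          have hab' : a ≠ b := by rintro rfl; exact hab rfl
          obtain ⟨P, hPφ, hPψ⟩ := exists_place hφ hne hlt hC (by rw [h4, hd]) hab' hPa hQa hPb hQb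
          have h1 : ∀ i, P ∉ fib φ (q i) := by
            intro i hi
            exact haq i (congrArg some (P.value_unique hPφ hi))
          have h2 : ∀ i, P ∉ fib ψ (q i) := by
            intro i hi
            exact hbq i (congrArg some (P.value_unique hPψ hi))
          obtain ⟨h3, h5⟩ := hun P h1 h2 a b hPφ hPψ
          obtain ⟨b', hb', hQb', hPb', hmul⟩ := place_pair C hlt hψ hC hPφ hQa hPa
          have hbb : b' = b := P.value_unique hb' hPψ
          subst hbb
          rw [h3, h5, mul_one, mul_one] at hmul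
          have h6 : C.e (some a) = (C.P - Polynomial.C t * C.Q).rootMultiplicity a := by
            unfold RF.e; rw [ht]; rfl
          have h7 : C.e (some b') = (C.P - Polynomial.C t * C.Q).rootMultiplicity b' := by
            unfold RF.e; rw [hb]; rfl
          rw [h6, h7]
          exact_mod_cast hmul.symm
  -- counting
  set R := (C.ramified_finite hn).toFinset with hR
  have hmemR : ∀ z, z ∈ R ↔ C.e z ≠ 1 := by intro z; simp [hR]
  set Q3 : Finset P1 := Finset.univ.image (fun i => (some (q i) : P1)) with hQ3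
  have hQ3card : Q3.card = 3 := by
    rw [hQ3, Finset.card_image_of_injective]
    · simp
    · intro i j hij
      exact hA.qinj (Option.some_injective _ hij)
  have hQ3sub : Q3 ⊆ R := by
    intro z hz
    obtain ⟨i, -, rfl⟩ := Finset.mem_image.1 hz
    rw [hmemR, (hq i).1]; norm_num
  have hsplit : R = Q3 ∪ (R \ Q3) := (Finset.union_sdiff_of_subset hQ3sub).symm
  have hR' : ∀ a ∈ R \ Q3, C.e a = 2 ∧
      ((R \ Q3).filter (fun z => C.val z = C.val a)).card = 2 := by
    intro a ha
    rw [Finset.mem_sdiff, hmemR] at ha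
    have haq : ∀ i, a ≠ some (q i) := by
      rintro i rfl
      exact ha.2 (Finset.mem_image_of_mem _ (Finset.mem_univ i))
    have h1 := hother a ha.1 haq
    have h2 : 2 ≤ C.e a := by
      have := C.one_le_e hn a
      have := ha.1
      omega
    obtain ⟨h3, h5⟩ := Quad_fibre C h4 hn (fun b hb => (h1 b hb).1) h2 (hno a)
    refine ⟨h3, ?_⟩
    rw [← h5]
    congr 1
    ext z
    simp only [Finset.mem_filter, Finset.mem_sdiff, hmemR, Set.Finite.mem_toFinset,
      Set.mem_setOf_eq]
    constructor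
    · exact fun h => h.2
    · intro hz
      obtain ⟨h6, h7⟩ := h1 z hz
      refine ⟨⟨by rw [h6, h3]; norm_num, ?_⟩, hz⟩
      intro hmem
      obtain ⟨i, -, hi⟩ := Finset.mem_image.1 hmem
      exact h7 i hi.symm
  have heven : 2 ∣ (R \ Q3).card := by
    rw [Finset.card_eq_sum_card_image C.val]
    apply Finset.dvd_sum
    intro t ht
    obtain ⟨a, ha, rfl⟩ := Finset.mem_image.1 ht
    rw [(hR' a ha).2]
  have hrh := rh_P1 C hn
  rw [← hR, h4] at hrh
  have hsum : ∑ z ∈ R, ((C.e z : ℤ) - 1) = R.card := by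
    rw [Finset.sum_congr rfl (g := fun _ => (1 : ℤ))]
    · simp
    · intro z hz
      rw [hsplit, Finset.mem_union] at hz
      rcases hz with hz | hz
      · obtain ⟨i, -, rfl⟩ := Finset.mem_image.1 hz
        rw [(hq i).1]; norm_num
      · rw [(hR' z hz).1]; norm_num
  rw [hsum] at hrh
  have hcard : R.card = 3 + (R \ Q3).card := by
    rw [Finset.card_sdiff_of_subset hQ3sub, hQ3card]
    have := Finset.card_le_card hQ3sub
    omega
  have h6 : R.card = 6 := by
    have : (R.card : ℤ) = 6 := by rw [hrh]; norm_num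
    exact_mod_cast this
  omega

end WildS
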