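import Pool.Agent.helper21.WS.GoodKF
import Pool.Agent.helper21.WS.Numeric
import Pool.Agent.helper21.WS.DegOne
import Pool.Agent.helper21.WS.Block
import Pool.Agent.helper21.WS.Quad
import Pool.Agent.helper21.WS.Normal

/-! Wild rational functions with three simple critical values. -/

namespace WildS

open Polynomial WildRat

variable {K : Type} [Field K] [Algebra ℂ K]

theorem Main_d_ne_zero {φ : E →ₐ[ℂ] K} (hφ : FinC φ) (u : K) : (mu φ u).natDegree ≠ 0 := by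
  let := φ.toRingHom.toAlgebra
  have : Module.Finite E K := hφ
  have h : IsIntegral E u := IsIntegral.of_finite E u
  exact (minpoly.natDegree_pos h).ne'

theorem main_norm (hK : Good K) {A : RF} {c q : Fin 3 → ℂ} (hA : Norm3 A c q)
    {φ ψ : E →ₐ[ℂ] K} (hne : φ ≠ ψ) (h : φ (elt A) = ψ (elt A)) :
    ∃ B C : RF, A.IsComp B C ∧ 1 ≤ C.n ∧ (C.n = 3 ∨ (C.n = 4 ∧ ∃ z, C.e z = 4)) := by
  obtain ⟨hd3, ⟨i, P, hP, hP'⟩, hun⟩ := numeric hK hA hne h
  have hd1 := deg_ne_one hK hA hne h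
  have hd0 := Main_d_ne_zero (hK.fin φ) (ψ RatFunc.X)
  have hn : 1 ≤ A.n := by
    have h2 := hA.two
    have h3 : A.P.natDegree ≤ A.n := le_max_left _ _
    omega
  have hN := block_identity hA.monic hA.lt (hA.val i) (hA.mult i) (hA.simple i) (hK.fin φ) hne h
    hP hP'
  obtain ⟨B, C, hcomp, hlt, hCn, hC⟩ := luroth_step A hn (hK.fin φ) hne h hN
  refine ⟨B, C, hcomp, by omega, ?_⟩
  have hd : (mu φ (ψ RatFunc.X)).natDegree = 2 ∨ (mu φ (ψ RatFunc.X)).natDegree = 3 := by omega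
  rcases hd with h2 | h3
  · left
    omega
  · right
    exact ⟨by omega, quad hA hcomp hlt (by omega) (hK.fin φ) (hK.fin ψ) hne hC h3 (hun h3)⟩

theorem main_good (hK : Good K) (A : RF) (hn : 2 ≤ A.n) (c : Fin 3 → P1)
    (hc : Function.Injective c) (hs : ∀ i, A.SimpleVal (c i)) (hsol : A.SolIn K) :
    ∃ B C : RF, A.IsComp B C ∧ (C.n = 3 ∨ (C.n = 4 ∧ ∃ z, C.e z = 4)) := by
  obtain ⟨U, V, hU, hUV, hE⟩ := hsol
  have hn1 : 1 ≤ A.n := by omega
  have hV : NonConst V := RF.Eqn.nonConst hn1 hU hE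
  obtain ⟨φ, hφ⟩ := exists_subst hU
  obtain ⟨ψ, hψ⟩ := exists_subst hV
  have hne : φ ≠ ψ := by
    rintro rfl
    exact hUV (hφ.symm.trans hψ)
  have h : φ (elt A) = ψ (elt A) := by
    rw [coord_elt, coord_elt, hφ, hψ]
    exact RF.Eqn.app_eq hn1 hU hE
  obtain ⟨A', c', q', hA', htr, hback⟩ := normalise A hn c hc hs
  obtain ⟨φ', ψ', hne', h'⟩ := htr K φ ψ hne h
  obtain ⟨B', C', hcomp', h1', hor⟩ := main_norm hK hA' hne' h'
  obtain ⟨B, C, hcomp, hCn, hez⟩ := hback B' C' hcomp' h1'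
  refine ⟨B, C, hcomp, ?_⟩
  rcases hor with h3 | ⟨h4, hz⟩
  · left
    omega
  · right
    exact ⟨by omega, hez hz⟩

/-- The hard direction. -/
theorem main_hard (A : RF) (hn : 2 ≤ A.n) (c : Fin 3 → P1)
    (hc : Function.Injective c) (hs : ∀ i, A.SimpleVal (c i)) (hw : A.Wild) :
    ∃ B C : RF, A.IsComp B C ∧ (C.n = 3 ∨ (C.n = 4 ∧ ∃ z, C.e z = 4)) := by
  rcases hw with hr | ⟨f, hf3, hsq, hsol⟩
  · exact main_good good_E A hn c hc hs hr
  · have := kf_fact f (by rw [hf3]; decide)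
    exact main_good (good_KF f hf3 hsq) A hn c hc hs hsol

end WildS
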