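import Pool.Agent.helper21.WS.Fibre

/-! The norm of `u - b` and the minimal polynomial of `u`. -/

namespace WildS

open Polynomial WildRat

variable {K : Type} [Field K] [Algebra ℂ K]

/-- the norm of `w` is a power of the constant coefficient of its minimal polynomial, up to sign -/
private theorem MuNorm_norm {F L : Type} [Field F] [Field L] [Algebra F L]
    [FiniteDimensional F L] [CharZero F] (w : L) :
    Algebra.norm F w = ((-1) ^ (minpoly F w).natDegree * (minpoly F w).coeff 0) ^
      Module.finrank (IntermediateField.adjoin F {w}) L := by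
  have hint : IsIntegral F w := Algebra.IsIntegral.isIntegral w
  rw [Algebra.norm_eq_norm_adjoin F w]
  congr 1
  have h := Algebra.PowerBasis.norm_gen_eq_coeff_zero_minpoly
    (IntermediateField.adjoin.powerBasis hint)
  rw [IntermediateField.adjoin.powerBasis_gen] at h
  rw [h, IntermediateField.minpoly_gen, IntermediateField.adjoin.powerBasis_dim]

private theorem MuNorm_coeff {F L : Type} [Field F] [Field L] [Algebra F L] (u : L) (b : F) :
    (minpoly F (u - algebraMap F L b)).natDegree = (minpoly F u).natDegree ∧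
    (minpoly F (u - algebraMap F L b)).coeff 0 = (minpoly F u).eval b := by
  rw [minpoly.sub_algebraMap]
  constructor
  · rw [natDegree_comp, natDegree_X_add_C, mul_one]
  · rw [coeff_zero_eq_eval_zero, eval_comp]
    simp

/-- `N (u - b) = ± μ(b) ^ m` with `m = [K : E(u)]`: `Algebra.norm_eq_norm_adjoin`,
`PowerBasis.norm_gen_eq_coeff_zero_minpoly` for `u - b` (its minimal polynomial is
`μ(T + b)`), and `m * deg μ = deg φ`; then the norm formula. -/
theorem mu_norm (φ : E →ₐ[ℂ] K) (hφ : FinC φ) (u : K) : ∃ m : ℕ, 0 < m ∧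
    m * (mu φ u).natDegree = deg φ ∧ ∀ a b : ℂ, u ≠ algebraMap ℂ K b →
      (mu φ u).eval (algebraMap ℂ E b) ≠ 0 ∧
      ∑ P ∈ fibS φ hφ a, P.ord (u - algebraMap ℂ K b) =
        m * (plE a).ord ((mu φ u).eval (algebraMap ℂ E b)) := by
  have key : ∃ m : ℕ, 0 < m ∧ m * (mu φ u).natDegree = deg φ ∧
      ∀ b : ℂ, u ≠ algebraMap ℂ K b → (mu φ u).eval (algebraMap ℂ E b) ≠ 0 ∧
        nrm φ (u - algebraMap ℂ K b) =
          ((-1) ^ (mu φ u).natDegree * (mu φ u).eval (algebraMap ℂ E b)) ^ m := by
    unfold mu deg nrm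
    let := φ.toRingHom.toAlgebra
    have : IsScalarTower ℂ E K := IsScalarTower.of_algebraMap_eq fun c => (φ.commutes c).symm
    have hfin : Module.Finite E K := hφ
    have hch : CharZero E := algebraRat.charZero E
    have hint : IsIntegral E u := Algebra.IsIntegral.isIntegral u
    have hd : 0 < (minpoly E u).natDegree := minpoly.natDegree_pos hint
    have hm : ∀ w : K, (minpoly E w).natDegree *
        Module.finrank (IntermediateField.adjoin E {w}) K = Module.finrank E K := by
      intro w
      rw [← IntermediateField.adjoin.finrank (Algebra.IsIntegral.isIntegral w)]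
      exact Module.finrank_mul_finrank E _ K
    refine ⟨Module.finrank (IntermediateField.adjoin E {u}) K, Module.finrank_pos, ?_, ?_⟩
    · rw [mul_comm]
      exact hm u
    · intro b hb
      have hb' : algebraMap ℂ K b = algebraMap E K (algebraMap ℂ E b) :=
        IsScalarTower.algebraMap_apply ℂ E K b
      obtain ⟨c1, c2⟩ := MuNorm_coeff (F := E) u (algebraMap ℂ E b)
      have hw : u - algebraMap ℂ K b ≠ 0 := sub_ne_zero.2 hb
      have hN : Algebra.norm E (u - algebraMap ℂ K b) ≠ 0 := Algebra.norm_ne_zero_iff.2 hw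
      have h1 := MuNorm_norm (F := E) (u - algebraMap ℂ K b)
      have h2 : Module.finrank (IntermediateField.adjoin E {u - algebraMap ℂ K b}) K =
          Module.finrank (IntermediateField.adjoin E {u}) K := by
        have e1 := hm (u - algebraMap ℂ K b)
        have e2 := hm u
        rw [hb', c1] at e1
        rw [← hb'] at e1
        exact Nat.eq_of_mul_eq_mul_left hd (e1.trans e2.symm)
      rw [h2] at h1
      rw [hb', c1, c2, ← hb'] at h1
      refine ⟨?_, h1⟩
      intro h0
      rw [h0, mul_zero, zero_pow Module.finrank_pos.ne'] at h1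
      exact hN h1
  obtain ⟨m, h0, h1, h2⟩ := key
  refine ⟨m, h0, h1, fun a b hb => ?_⟩
  obtain ⟨h3, h4⟩ := h2 b hb
  refine ⟨h3, ?_⟩
  rw [sum_fibS φ hφ a (sub_ne_zero.2 hb), h4, Pl.ord_pow,
    Pl.ord_mul _ (pow_ne_zero _ (neg_ne_zero.2 one_ne_zero)) h3, Pl.ord_pow, Pl.ord_neg,
    Pl.ord_one]
  ring

theorem mu_pos (φ : E →ₐ[ℂ] K) (hφ : FinC φ) (u : K) :
    (mu φ u).Monic ∧ 0 < (mu φ u).natDegree := by
  unfold mu
  let := φ.toRingHom.toAlgebra
  have hfin : Module.Finite E K := hφ
  have hint : IsIntegral E u := Algebra.IsIntegral.isIntegral u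
  exact ⟨minpoly.monic hint, minpoly.natDegree_pos hint⟩

end WildS
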