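import Pool.Agent.helper21.WS.RatOrd
import Pool.Agent.helper21.WS.Chart

/-! The norm formula `∑_{P over a} ord_P u = ord_a (N u)`. -/

namespace WildS

open Polynomial WildRat IsDedekindDomain

theorem Norm_ideal {R B : Type} [CommRing R] [IsDedekindDomain R] [CommRing B]
    [IsDedekindDomain B] [Algebra R B] [Module.Finite R B] [Module.IsTorsionFree R B]
    (hd : ∀ Q : Ideal B, Q.IsPrime → Q ≠ ⊥ → Ideal.relNorm R Q = Q.under R)
    (p : Ideal R) (hp : p.IsPrime) (hp0 : p ≠ ⊥) (s : Finset (Ideal B))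
    (hs : ∀ Q, Q ∈ s ↔ Q.IsPrime ∧ Q.under R = p) (I : Ideal B) (hI : I ≠ 0) :
    ∑ Q ∈ s, emultiplicity Q I = emultiplicity p (Ideal.relNorm R I) := by
  classical
  have hp1 : Prime p := Ideal.prime_of_isPrime hp0 hp
  have hs0 : ∀ Q ∈ s, Q ≠ ⊥ := by
    rintro Q hQ rfl
    have h1 := ((hs ⊥).1 hQ).2
    apply hp0
    rw [← h1]
    exact Ideal.under_bot R B
  have hsp : ∀ Q ∈ s, Prime Q := fun Q hQ => Ideal.prime_of_isPrime (hs0 Q hQ) ((hs Q).1 hQ).1
  induction I using UniqueFactorizationMonoid.induction_on_prime with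
  | h₁ => exact absurd rfl hI
  | h₂ I hu =>
    rw [Ideal.isUnit_iff] at hu
    subst hu
    rw [Ideal.relNorm_top, ← Ideal.one_eq_top, ← Ideal.one_eq_top]
    rw [emultiplicity_of_one_right hp1.not_isUnit]
    exact Finset.sum_eq_zero fun Q hQ => emultiplicity_of_one_right (hsp Q hQ).not_isUnit
  | h₃ I Q hI0 hQ ih =>
    have hQP : Q.IsPrime := Ideal.isPrime_of_prime hQ
    have hQ0 : Q ≠ ⊥ := hQ.ne_zero
    have hQm : Q.IsMaximal := hQP.isMaximal hQ0
    have e1 : ∑ Q' ∈ s, emultiplicity Q' (Q * I) =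
        ∑ Q' ∈ s, emultiplicity Q' Q + ∑ Q' ∈ s, emultiplicity Q' I := by
      rw [← Finset.sum_add_distrib]
      exact Finset.sum_congr rfl fun Q' hQ' => emultiplicity_mul (hsp Q' hQ')
    rw [e1, map_mul, emultiplicity_mul hp1, ih hI0, hd Q hQP hQ0]
    congr 1
    have hQu : (Q.under R).IsPrime := Ideal.IsPrime.under R Q
    have hQu0 : Q.under R ≠ ⊥ := by
      intro h
      apply hQ0
      have : Q.LiesOver (⊥ : Ideal R) := ⟨h.symm⟩
      exact Ideal.eq_bot_of_liesOver_bot R Q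
    have hQum : (Q.under R).IsMaximal := hQu.isMaximal hQu0
    by_cases hc : Q ∈ s
    · rw [← ((hs Q).1 hc).2]
      have e2 : emultiplicity (Q.under R) (Q.under R) = 1 :=
        (FiniteMultiplicity.of_prime_left (Ideal.prime_of_isPrime hQu0 hQu) hQu0).emultiplicity_self
      rw [e2, Finset.sum_eq_single Q]
      · exact (FiniteMultiplicity.of_prime_left hQ hQ0).emultiplicity_self
      · intro Q' hQ' hne
        rw [emultiplicity_eq_zero]
        intro h
        rw [Ideal.dvd_iff_le] at h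
        exact hne (hQm.eq_of_le ((hs Q').1 hQ').1.ne_top h).symm
      · exact fun h => absurd hc h
    · have h2 : Q.under R ≠ p := fun h => hc ((hs Q).2 ⟨hQP, h⟩)
      rw [Finset.sum_eq_zero, emultiplicity_eq_zero.2]
      · intro h
        rw [Ideal.dvd_iff_le] at h
        exact h2 (hQum.eq_of_le hp.ne_top h)
      · intro Q' hQ'
        rw [emultiplicity_eq_zero]
        intro h
        rw [Ideal.dvd_iff_le] at h
        have h3 := hQm.eq_of_le ((hs Q').1 hQ').1.ne_top h
        rw [h3] at hc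
        exact hc hQ'

theorem Norm_max (p : Ideal ℂ[X]) (hp : p.IsMaximal) (h0 : p ≠ ⊥) :
    ∃ a : ℂ, p = Ideal.span {X - C a} := by
  obtain ⟨g, hg⟩ := (IsPrincipalIdealRing.principal p).principal
  have hg' : p = Ideal.span {g} := hg
  have hg0 : g ≠ 0 := by
    rintro rfl
    apply h0
    rw [hg']
    simp
  have hdeg : g.degree ≠ 0 := by
    intro h
    apply hp.ne_top
    rw [hg', Ideal.span_singleton_eq_top, Polynomial.isUnit_iff_degree_eq_zero]
    exact h
  obtain ⟨a, ha⟩ := IsAlgClosed.exists_root g hdeg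
  refine ⟨a, ?_⟩
  have hpr : (Ideal.span {X - C a} : Ideal ℂ[X]).IsPrime := by
    rw [Ideal.span_singleton_prime (X_sub_C_ne_zero a)]
    exact prime_X_sub_C a
  refine hp.eq_of_le hpr.ne_top ?_
  rw [hg', Ideal.span_singleton_le_span_singleton]
  exact dvd_iff_isRoot.2 ha

theorem Norm_deg {B : Type} [CommRing B] [IsDedekindDomain B] [Algebra ℂ[X] B]
    [Module.Finite ℂ[X] B] [Module.IsTorsionFree ℂ[X] B] (Q : Ideal B) (hQ : Q.IsPrime)
    (h0 : Q ≠ ⊥) : Ideal.relNorm ℂ[X] Q = Q.under ℂ[X] := by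
  have hQm : Q.IsMaximal := hQ.isMaximal h0
  have hu : (Q.under ℂ[X]).IsMaximal := Ideal.isMaximal_comap_of_isIntegral_of_isMaximal Q
  have h1 := Ideal.relNorm_eq_pow_of_isMaximal Q (Q.under ℂ[X])
  rw [h1, Ideal.inertiaDeg_eq_of_isMaximal (Q.under ℂ[X]) Q]
  let _ : Field (B ⧸ Q) := Ideal.Quotient.field Q
  let _ : Field (ℂ[X] ⧸ Q.under ℂ[X]) := Ideal.Quotient.field _
  obtain ⟨a, ha⟩ := Norm_max (Q.under ℂ[X]) hu (by
    intro h
    apply h0
    have : Q.LiesOver (⊥ : Ideal ℂ[X]) := ⟨h.symm⟩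
    exact Ideal.eq_bot_of_liesOver_bot ℂ[X] Q)
  have hfin : Module.Finite (ℂ[X] ⧸ Q.under ℂ[X]) (B ⧸ Q) := inferInstance
  have hb : Function.Bijective (algebraMap (ℂ[X] ⧸ Q.under ℂ[X]) (B ⧸ Q)) := by
    have hac : IsAlgClosed (ℂ[X] ⧸ Q.under ℂ[X]) :=
      IsAlgClosed.of_ringEquiv ℂ _
        ((Ideal.quotEquivOfEq ha).trans (quotientSpanXSubCAlgEquiv a).toRingEquiv).symm
    exact IsAlgClosed.algebraMap_bijective_of_isIntegral
  have h2 : Module.finrank (ℂ[X] ⧸ Q.under ℂ[X]) (B ⧸ Q) = 1 := by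
    rw [← LinearEquiv.finrank_eq (LinearEquiv.ofBijective
      (Algebra.linearMap (ℂ[X] ⧸ Q.under ℂ[X]) (B ⧸ Q)) hb)]
    exact Module.finrank_self _
  rw [h2, pow_one]

theorem Norm_ord_alg {K : Type} [Field K] [Algebra ℂ K] {B : Type} [CommRing B]
    [IsDedekindDomain B] [Algebra B K] [IsFractionRing B K] (P : Pl K) (q : HeightOneSpectrum B)
    (h : P.v = q.valuation K) {b : B} (hb : b ≠ 0) :
    P.ord (algebraMap B K b) = multiplicity q.asIdeal (Ideal.span {b}) := by
  unfold Pl.ord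
  rw [h, HeightOneSpectrum.valuation_of_algebraMap,
    HeightOneSpectrum.intValuation_eq_exp_neg_multiplicity _ hb, WithZero.log_exp, neg_neg]

theorem Norm_root (a : ℂ) {f : ℂ[X]} (hf : f ≠ 0) :
    (emultiplicity (Ideal.span {X - C a} : Ideal ℂ[X]) (Ideal.span {f}) : ℕ∞) =
      (f.rootMultiplicity a : ℕ∞) := by
  classical
  rw [Ideal.emultiplicity_eq_emultiplicity_span, rootMultiplicity_eq_multiplicity, if_neg hf]
  exact (FiniteMultiplicity.of_prime_left (prime_X_sub_C a) hf).emultiplicity_eq_multiplicity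

theorem Norm_nonneg {K : Type} [Field K] [Algebra ℂ K] [Algebra ℂ[X] K] [IsScalarTower ℂ ℂ[X] K]
    {B : Type} [CommRing B] [Algebra ℂ[X] B] [Algebra B K] [IsScalarTower ℂ[X] B K]
    [Algebra.IsIntegral ℂ[X] B] (P : Pl K) {a : ℂ}
    (h : 0 < P.ord (algebraMap ℂ[X] K X - algebraMap ℂ K a)) (b : B) :
    0 ≤ P.ord (algebraMap B K b) := by
  have hx : 0 ≤ P.ord (algebraMap ℂ[X] K X) := by
    have h1 := P.ord_nonneg_add h.le (P.ord_C a).ge
    rwa [sub_add_cancel] at h1
  have hpoly : ∀ f : ℂ[X], P.v (algebraMap ℂ[X] K f) ≤ 1 := by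
    intro f
    rw [← P.ord_nonneg_iff]
    induction f using Polynomial.induction_on' with
    | add f g hf hg =>
      rw [map_add]
      exact P.ord_nonneg_add hf hg
    | monomial n c =>
      rw [← C_mul_X_pow_eq_monomial, map_mul, map_pow]
      refine P.ord_nonneg_mul ?_ ?_
      · have h2 : algebraMap ℂ[X] K (C c) = algebraMap ℂ K c :=
          (IsScalarTower.algebraMap_apply ℂ ℂ[X] K c).symm
        rw [h2, P.ord_C]
      · rw [P.ord_pow]
        positivity
  rw [P.ord_nonneg_iff]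
  have hint : IsIntegral ℂ[X] (algebraMap B K b) :=
    (Algebra.IsIntegral.isIntegral (R := ℂ[X]) b).algebraMap
  let g : ℂ[X] →+* P.v.integer := (algebraMap ℂ[X] K).codRestrict P.v.integer hpoly
  have hint2 : IsIntegral P.v.integer (algebraMap B K b) := by
    obtain ⟨f, hf1, hf2⟩ := hint
    refine ⟨f.map g, hf1.map g, ?_⟩
    rw [eval₂_map]
    exact hf2
  exact (Valuation.integer.integers P.v).mem_of_integral hint2

theorem Norm_gen {K : Type} [Field K] [Algebra ℂ K] [Algebra E K] [Algebra ℂ[X] K]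
    [IsScalarTower ℂ[X] E K] [IsScalarTower ℂ ℂ[X] K] [FiniteDimensional E K]
    {B : Type} [CommRing B] [IsDedekindDomain B] [Algebra ℂ[X] B] [Algebra B K]
    [IsScalarTower ℂ[X] B K] [IsFractionRing B K] [IsIntegralClosure B ℂ[X] K]
    [Module.Finite ℂ[X] B] [Module.IsTorsionFree ℂ[X] B] [Algebra ℂ B] [IsScalarTower ℂ B K]
    (a : ℂ) : ∃ s : Finset (Pl K),
    (∀ P, P ∈ s ↔ 0 < P.ord (algebraMap ℂ[X] K X - algebraMap ℂ K a)) ∧
      ∀ u : K, u ≠ 0 → ∑ P ∈ s, P.ord u = (plE a).ord (Algebra.norm E u) := by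
  classical
  obtain ⟨p, hpdef⟩ : ∃ p : Ideal ℂ[X], p = Ideal.span {X - C a} := ⟨_, rfl⟩
  have hp0 : p ≠ ⊥ := by
    rw [hpdef, ne_eq, Ideal.span_singleton_eq_bot]
    exact X_sub_C_ne_zero a
  have hpP : p.IsPrime := by
    rw [hpdef, Ideal.span_singleton_prime (X_sub_C_ne_zero a)]
    exact prime_X_sub_C a
  have hpm : p.IsMaximal := hpP.isMaximal hp0
  have hfin : (p.primesOver B).Finite := IsDedekindDomain.primesOver_finite p B
  obtain ⟨S, hS⟩ : ∃ S : Finset (Ideal B), ∀ Q, Q ∈ S ↔ Q.IsPrime ∧ Q.under ℂ[X] = p := by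
    refine ⟨hfin.toFinset, fun Q => ?_⟩
    rw [Set.Finite.mem_toFinset]
    constructor
    · rintro ⟨h1, h2⟩
      exact ⟨h1, h2.over.symm⟩
    · rintro ⟨h1, h2⟩
      exact ⟨h1, ⟨h2.symm⟩⟩
  have hS0 : ∀ Q ∈ S, Q ≠ ⊥ := by
    rintro Q hQ rfl
    apply hp0
    rw [← ((hS ⊥).1 hQ).2]
    exact Ideal.under_bot ℂ[X] B
  have hex : ∀ Q : {Q // Q ∈ S}, ∃ P : Pl K, ∃ q : HeightOneSpectrum B,
      q.asIdeal = Q.1 ∧ P.v = q.valuation K := by
    intro Q
    obtain ⟨P, hP⟩ := exists_pl_of_prime (K := K) (⟨Q.1, ((hS Q.1).1 Q.2).1, hS0 Q.1 Q.2⟩ :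
      HeightOneSpectrum B)
    exact ⟨P, _, rfl, hP⟩
  choose f q hq hf using hex
  have hinj : Function.Injective f := by
    intro Q1 Q2 h12
    have h1 : (q Q1).valuation K = (q Q2).valuation K := by rw [← hf, ← hf, h12]
    apply Subtype.ext
    rw [← hq, ← hq]
    ext b
    rw [← HeightOneSpectrum.valuation_lt_one_iff_mem (K := K), h1,
      HeightOneSpectrum.valuation_lt_one_iff_mem]
  have hxa : algebraMap ℂ[X] K X - algebraMap ℂ K a =
      algebraMap B K (algebraMap ℂ[X] B (X - C a)) := by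
    rw [← IsScalarTower.algebraMap_apply ℂ[X] B K, map_sub]
    congr 1
    exact IsScalarTower.algebraMap_apply ℂ ℂ[X] K a
  have hxa0 : algebraMap B K (algebraMap ℂ[X] B (X - C a)) ≠ 0 := by
    rw [← IsScalarTower.algebraMap_apply ℂ[X] B K]
    rw [IsScalarTower.algebraMap_apply ℂ[X] E K]
    exact (_root_.map_ne_zero _).2 ((map_ne_zero_iff _ (RatFunc.algebraMap_injective ℂ)).2
      (X_sub_C_ne_zero a))
  refine ⟨S.attach.image f, fun P => ?_, ?_⟩
  · rw [Finset.mem_image]
    constructor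
    · rintro ⟨Q, _, rfl⟩
      rw [hxa, Pl.ord_pos_iff _ hxa0, hf, HeightOneSpectrum.valuation_lt_one_iff_mem, hq]
      have h1 : X - C a ∈ Q.1.under ℂ[X] := by
        rw [((hS Q.1).1 Q.2).2, hpdef]
        exact Ideal.mem_span_singleton_self _
      exact h1
    · intro hP
      obtain ⟨q', hq'⟩ := exists_prime_of_pl (R := B) P (fun b => Norm_nonneg P hP b)
      have h1 : X - C a ∈ q'.asIdeal.under ℂ[X] := by
        rw [hxa, Pl.ord_pos_iff _ hxa0, hq', HeightOneSpectrum.valuation_lt_one_iff_mem] at hP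
        exact hP
      have h2 : q'.asIdeal.under ℂ[X] = p := by
        have h3 : (q'.asIdeal.under ℂ[X]).IsPrime := Ideal.IsPrime.under ℂ[X] q'.asIdeal
        refine (hpm.eq_of_le h3.ne_top ?_).symm
        rw [hpdef, Ideal.span_singleton_le_iff_mem]
        exact h1
      have h3 : q'.asIdeal ∈ S := (hS _).2 ⟨q'.isPrime, h2⟩
      refine ⟨⟨q'.asIdeal, h3⟩, Finset.mem_attach _ _, ?_⟩
      apply Pl.ext'
      intro u
      have h4 : q ⟨q'.asIdeal, h3⟩ = q' := HeightOneSpectrum.ext (hq ⟨q'.asIdeal, h3⟩)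
      rw [hf, h4, hq']
  · have hmain : ∀ b : B, b ≠ 0 → ∑ P ∈ S.attach.image f, P.ord (algebraMap B K b) =
        (plE a).ord (Algebra.norm E (algebraMap B K b)) := by
      intro b hb
      rw [Finset.sum_image fun x _ y _ h => hinj h]
      have h1 := Norm_ideal (R := ℂ[X]) (fun Q hQ h0 => Norm_deg Q hQ h0) p hpP hp0 S hS
        (Ideal.span {b}) (by simpa using hb)
      have hn0 : Algebra.intNorm ℂ[X] B b ≠ 0 := by
        simpa using hb
      rw [Ideal.relNorm_singleton, hpdef, Norm_root a hn0] at h1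
      rw [← Algebra.algebraMap_intNorm (A := ℂ[X]) (K := E) (L := K) (B := B) b, plE_poly a hn0]
      have h2 : ∑ Q ∈ S, (multiplicity Q (Ideal.span {b}) : ℕ∞) =
          ((Algebra.intNorm ℂ[X] B b).rootMultiplicity a : ℕ∞) := by
        rw [← h1]
        refine Finset.sum_congr rfl fun Q hQ => ?_
        have h3 : Prime Q := Ideal.prime_of_isPrime (hS0 Q hQ) ((hS Q).1 hQ).1
        exact (FiniteMultiplicity.of_prime_left h3
          (by simpa using hb)).emultiplicity_eq_multiplicity.symm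
      have h4 : ∑ Q ∈ S, multiplicity Q (Ideal.span {b}) =
          (Algebra.intNorm ℂ[X] B b).rootMultiplicity a := by exact_mod_cast h2
      rw [← h4, ← Finset.sum_attach S]
      push_cast
      refine Finset.sum_congr rfl fun Q _ => ?_
      rw [Norm_ord_alg (f Q) (q Q) (hf Q) hb, hq]
    intro u hu
    obtain ⟨b, c, hc, rfl⟩ := IsFractionRing.div_surjective (A := B) u
    have hc0 : c ≠ 0 := nonZeroDivisors.ne_zero hc
    have hb0 : b ≠ 0 := by
      rintro rfl
      simp at hu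
    have hbK : algebraMap B K b ≠ 0 := (map_ne_zero_iff _ (IsFractionRing.injective B K)).2 hb0
    have hcK : algebraMap B K c ≠ 0 := (map_ne_zero_iff _ (IsFractionRing.injective B K)).2 hc0
    have hm := hmain b hb0
    have hbc : algebraMap B K b = algebraMap B K b / algebraMap B K c * algebraMap B K c :=
      (div_mul_cancel₀ _ hcK).symm
    rw [hbc, map_mul, Pl.ord_mul _ (Algebra.norm_ne_zero_iff.2 hu) (Algebra.norm_ne_zero_iff.2 hcK),
      ← hmain c hc0] at hm
    have hm2 : ∀ P ∈ S.attach.image f, P.ord (algebraMap B K b / algebraMap B K c *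
        algebraMap B K c) = P.ord (algebraMap B K b / algebraMap B K c) +
        P.ord (algebraMap B K c) := fun P _ => P.ord_mul hu hcK
    rw [Finset.sum_congr rfl hm2, Finset.sum_add_distrib] at hm
    exact add_right_cancel hm

variable {K : Type} [Field K] [Algebra ℂ K]

/-- The norm formula.  With the algebra structure `φ.toRingHom.toAlgebra` let `B` be the integral
closure of `ℂ[X]` in `K` (`integralClosure.isDedekindDomain`, `Module.Finite ℂ[X] B`).  A place in
`fib φ a` is nonnegative on `B` (an element integral over a subring of the valuation ring), so it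
comes from a maximal ideal of `B` over `(X - C a)` (`exists_prime_of_pl`), and conversely; both
sides are multiplicative in `u`, so let `u ∈ B`.  Then
`relNorm (span {u}) = span {intNorm u}` (`Ideal.relNorm_singleton`), `span {u}` is the product of
the `P ^ (ord_P u)`, and `relNorm P = (X - C a)` for the maximal ideals over `a`
(`Ideal.relNorm_eq_pow_of_isMaximal`, the residue field is `ℂ`), `Algebra.algebraMap_intNorm`. -/
theorem norm_formula (φ : E →ₐ[ℂ] K) (hφ : FinC φ) (a : ℂ) : ∃ s : Finset (Pl K),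
    (∀ P, P ∈ s ↔ P ∈ fib φ a) ∧
      ∀ u : K, u ≠ 0 → ∑ P ∈ s, P.ord u = (plE a).ord (nrm φ u) := by
  classical
  let _ : Algebra E K := φ.toRingHom.toAlgebra
  let _ : Algebra ℂ[X] K := ((algebraMap E K).comp (algebraMap ℂ[X] E)).toAlgebra
  have _ : IsScalarTower ℂ[X] E K := IsScalarTower.of_algebraMap_eq fun _ => rfl
  have _ : IsScalarTower ℂ ℂ[X] K := IsScalarTower.of_algebraMap_eq fun c => by
    change algebraMap ℂ K c = φ (algebraMap ℂ[X] E (C c))
    rw [← algC_E, coord_C]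
  have _ : FiniteDimensional E K := hφ
  have _ : Algebra.IsSeparable E K := inferInstance
  have _ : IsDedekindDomain (integralClosure ℂ[X] K) :=
    integralClosure.isDedekindDomain ℂ[X] E K
  have _ : IsFractionRing (integralClosure ℂ[X] K) K :=
    integralClosure.isFractionRing_of_finite_extension E K
  have _ : Module.Finite ℂ[X] (integralClosure ℂ[X] K) :=
    IsIntegralClosure.finite ℂ[X] E K (integralClosure ℂ[X] K)
  have _ : Module.IsTorsionFree ℂ[X] K :=
    Module.isTorsionFree_iff_algebraMap_injective.2 (by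
      change Function.Injective (φ.toRingHom.comp (algebraMap ℂ[X] E))
      exact φ.toRingHom.injective.comp (RatFunc.algebraMap_injective ℂ))
  have _ : Module.IsTorsionFree ℂ[X] (integralClosure ℂ[X] K) :=
    IsIntegralClosure.isTorsionFree ℂ[X] K
  obtain ⟨s, h1, h2⟩ := Norm_gen (K := K) (B := integralClosure ℂ[X] K) a
  refine ⟨s, fun P => (h1 P).trans ?_, h2⟩
  have h3 : algebraMap ℂ[X] K X = φ RatFunc.X := by
    change φ (algebraMap ℂ[X] E X) = φ RatFunc.X
    rw [RatFunc.algebraMap_X]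
  rw [h3]
  rfl

/-- The places over `a`. -/
noncomputable def fibS (φ : E →ₐ[ℂ] K) (hφ : FinC φ) (a : ℂ) : Finset (Pl K) :=
  (norm_formula φ hφ a).choose

theorem mem_fibS {φ : E →ₐ[ℂ] K} {hφ : FinC φ} {a : ℂ} {P : Pl K} :
    P ∈ fibS φ hφ a ↔ P ∈ fib φ a :=
  (norm_formula φ hφ a).choose_spec.1 P

theorem sum_fibS (φ : E →ₐ[ℂ] K) (hφ : FinC φ) (a : ℂ) {u : K} (hu : u ≠ 0) :
    ∑ P ∈ fibS φ hφ a, P.ord u = (plE a).ord (nrm φ u) :=
  (norm_formula φ hφ a).choose_spec.2 u hu

end WildS
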