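import Pool.Agent.helper21.WS.Coord

/-! Basic rules for the order at a place. -/

namespace WildS

open Polynomial WildRat

variable {K : Type} [Field K] [Algebra ℂ K]

private theorem PlBasic_ne (P : Pl K) {u : K} (hu : u ≠ 0) : P.v u ≠ 0 :=
  (Valuation.ne_zero_iff P.v).2 hu

theorem Pl.ext' {P Q : Pl K} (h : ∀ u, P.v u = Q.v u) : P = Q := by
  obtain ⟨v, h1, h2⟩ := P
  obtain ⟨w, h3, h4⟩ := Q
  have hvw : v = w := Valuation.ext h
  subst hvw
  rfl

theorem Pl.ord_mul (P : Pl K) {u w : K} (hu : u ≠ 0) (hw : w ≠ 0) :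
    P.ord (u * w) = P.ord u + P.ord w := by
  unfold Pl.ord
  rw [map_mul, WithZero.log_mul (PlBasic_ne P hu) (PlBasic_ne P hw)]
  ring

theorem Pl.ord_zero (P : Pl K) : P.ord 0 = 0 := by
  unfold Pl.ord
  rw [map_zero, WithZero.log_zero, neg_zero]

theorem Pl.ord_one (P : Pl K) : P.ord 1 = 0 := by
  unfold Pl.ord
  rw [map_one, WithZero.log_one, neg_zero]

theorem Pl.ord_inv (P : Pl K) (u : K) : P.ord u⁻¹ = - P.ord u := by
  unfold Pl.ord
  rw [map_inv₀, WithZero.log_inv]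

theorem Pl.ord_neg (P : Pl K) (u : K) : P.ord (-u) = P.ord u := by
  unfold Pl.ord
  rw [Valuation.map_neg]

theorem Pl.ord_div (P : Pl K) {u w : K} (hu : u ≠ 0) (hw : w ≠ 0) :
    P.ord (u / w) = P.ord u - P.ord w := by
  rw [div_eq_mul_inv, P.ord_mul hu (inv_ne_zero hw), P.ord_inv]
  ring

theorem Pl.ord_pow (P : Pl K) (u : K) (n : ℕ) : P.ord (u ^ n) = n * P.ord u := by
  unfold Pl.ord
  rw [map_pow, WithZero.log_pow, nsmul_eq_mul]
  ring

private theorem PlBasic_zpow (P : Pl K) (u : K) (n : ℤ) : P.ord (u ^ n) = n * P.ord u := by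
  unfold Pl.ord
  rw [map_zpow₀, WithZero.log_zpow, zsmul_eq_mul, Int.cast_id]
  ring

theorem Pl.ord_prod (P : Pl K) {ι : Type} (s : Finset ι) (f : ι → K) (h : ∀ i ∈ s, f i ≠ 0) :
    P.ord (∏ i ∈ s, f i) = ∑ i ∈ s, P.ord (f i) := by
  classical
  induction s using Finset.induction_on with
  | empty => rw [Finset.prod_empty, Finset.sum_empty, P.ord_one]
  | insert a s ha ih =>
    rw [Finset.prod_insert ha, Finset.sum_insert ha,
      P.ord_mul (h a (Finset.mem_insert_self a s))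
        (Finset.prod_ne_zero_iff.2 fun i hi => h i (Finset.mem_insert_of_mem hi)),
      ih fun i hi => h i (Finset.mem_insert_of_mem hi)]

theorem Pl.ord_add (P : Pl K) {u w : K} (h : u + w ≠ 0) :
    min (P.ord u) (P.ord w) ≤ P.ord (u + w) ∨ u = 0 ∨ w = 0 := by
  by_cases hu : u = 0
  · exact Or.inr (Or.inl hu)
  by_cases hw : w = 0
  · exact Or.inr (Or.inr hw)
  left
  unfold Pl.ord
  rw [min_neg_neg, neg_le_neg_iff, le_max_iff, WithZero.log_le_log (PlBasic_ne P h)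
    (PlBasic_ne P hu), WithZero.log_le_log (PlBasic_ne P h) (PlBasic_ne P hw), ← le_max_iff]
  exact P.v.map_add u w

/-- nonnegative order is a ring condition; the element `0` is allowed because `ord 0 = 0` -/
theorem Pl.ord_nonneg_iff (P : Pl K) (u : K) : 0 ≤ P.ord u ↔ P.v u ≤ 1 := by
  by_cases hu : u = 0
  · rw [hu, P.ord_zero, map_zero]
    exact ⟨fun _ => zero_le_one, fun _ => le_rfl⟩
  · unfold Pl.ord
    rw [neg_nonneg, WithZero.log_le_iff_le_exp (PlBasic_ne P hu), WithZero.exp_zero]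

theorem Pl.ord_pos_iff (P : Pl K) {u : K} (hu : u ≠ 0) : 0 < P.ord u ↔ P.v u < 1 := by
  unfold Pl.ord
  rw [neg_pos, WithZero.log_lt_iff_lt_exp (PlBasic_ne P hu), WithZero.exp_zero]

theorem Pl.ord_nonneg_add (P : Pl K) {u w : K} (hu : 0 ≤ P.ord u) (hw : 0 ≤ P.ord w) :
    0 ≤ P.ord (u + w) := by
  rw [P.ord_nonneg_iff] at *
  exact P.v.map_add_le hu hw

theorem Pl.ord_nonneg_sub (P : Pl K) {u w : K} (hu : 0 ≤ P.ord u) (hw : 0 ≤ P.ord w) :
    0 ≤ P.ord (u - w) := by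
  rw [P.ord_nonneg_iff] at *
  exact P.v.map_sub_le hu hw

theorem Pl.ord_nonneg_mul (P : Pl K) {u w : K} (hu : 0 ≤ P.ord u) (hw : 0 ≤ P.ord w) :
    0 ≤ P.ord (u * w) := by
  rw [P.ord_nonneg_iff] at *
  rw [map_mul]
  exact mul_le_one' hu hw

theorem Pl.ord_C (P : Pl K) (c : ℂ) : P.ord (algebraMap ℂ K c) = 0 := by
  by_cases hc : c = 0
  · rw [hc, map_zero, P.ord_zero]
  · unfold Pl.ord
    rw [P.triv c hc, WithZero.log_one, neg_zero]

/-- strict triangle: if `ord u < ord w` (and both are not zero) then `ord (u + w) = ord u` -/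
theorem Pl.ord_add_eq (P : Pl K) {u w : K} (hu : u ≠ 0) (h : w = 0 ∨ P.ord u < P.ord w) :
    u + w ≠ 0 ∧ P.ord (u + w) = P.ord u := by
  by_cases hw : w = 0
  · rw [hw, add_zero]
    exact ⟨hu, rfl⟩
  · have h1 : P.v w < P.v u := by
      rcases h with h | h
      · exact absurd h hw
      · unfold Pl.ord at h
        rwa [neg_lt_neg_iff, WithZero.log_lt_log (PlBasic_ne P hw) (PlBasic_ne P hu)] at h
    have h2 : P.v (u + w) = P.v u := P.v.map_add_eq_of_lt_left h1
    refine ⟨?_, ?_⟩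
    · intro h3
      rw [h3, map_zero] at h2
      exact PlBasic_ne P hu h2.symm
    · unfold Pl.ord
      rw [h2]

/-- a uniformizer -/
theorem Pl.exists_unif (P : Pl K) : ∃ t : K, t ≠ 0 ∧ P.ord t = 1 := by
  obtain ⟨t, ht⟩ := P.surj (WithZero.exp (-1))
  refine ⟨t, ?_, ?_⟩
  · rintro rfl
    rw [map_zero] at ht
    exact WithZero.exp_ne_zero ht.symm
  · unfold Pl.ord
    rw [ht, WithZero.log_exp, neg_neg]

/-- every element is a power of the uniformizer times a unit -/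
theorem Pl.exists_unit (P : Pl K) {t u : K} (ht : t ≠ 0) (h1 : P.ord t = 1) (hu : u ≠ 0) :
    ∃ w : K, w ≠ 0 ∧ P.ord w = 0 ∧ u = t ^ (P.ord u) * w := by
  have h2 : t ^ (P.ord u) ≠ 0 := zpow_ne_zero _ ht
  refine ⟨u / t ^ (P.ord u), div_ne_zero hu h2, ?_, ?_⟩
  · rw [P.ord_div hu h2, PlBasic_zpow, h1, mul_one, sub_self]
  · rw [mul_div_cancel₀ _ h2]

/-- if `u` has the value `a` at `P` then `u - b` is a unit for `b ≠ a` -/
theorem Pl.ord_sub_of_ne (P : Pl K) {u : K} {a b : ℂ} (ha : 0 < P.ord (u - algebraMap ℂ K a))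
    (h : a ≠ b) : u - algebraMap ℂ K b ≠ 0 ∧ P.ord (u - algebraMap ℂ K b) = 0 := by
  have h1 : algebraMap ℂ K (a - b) ≠ 0 := by
    rw [Ne, map_eq_zero]
    exact sub_ne_zero.2 h
  have h2 := P.ord_add_eq (u := algebraMap ℂ K (a - b)) (w := u - algebraMap ℂ K a) h1
    (Or.inr (by rw [P.ord_C]; exact ha))
  have h3 : algebraMap ℂ K (a - b) + (u - algebraMap ℂ K a) = u - algebraMap ℂ K b := by
    rw [map_sub]
    ring
  rw [h3, P.ord_C] at h2
  exact h2

/-- two different constants cannot be the value of `u` at the same place -/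
theorem Pl.value_unique (P : Pl K) {u : K} {a b : ℂ} (ha : 0 < P.ord (u - algebraMap ℂ K a))
    (hb : 0 < P.ord (u - algebraMap ℂ K b)) : a = b := by
  by_contra h
  have h1 := (P.ord_sub_of_ne ha h).2
  omega

/-- elements with a value have nonnegative order -/
theorem Pl.ord_nonneg_of_value (P : Pl K) {u : K} {a : ℂ}
    (ha : 0 < P.ord (u - algebraMap ℂ K a)) : 0 ≤ P.ord u := by
  have h1 := P.ord_nonneg_add ha.le (P.ord_C a).ge
  rwa [sub_add_cancel] at h1

/-- the order of `u - b` at a pole of `u` -/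
theorem Pl.ord_sub_of_pole (P : Pl K) {u : K} (hu : P.ord u < 0) (b : ℂ) :
    u - algebraMap ℂ K b ≠ 0 ∧ P.ord (u - algebraMap ℂ K b) = P.ord u := by
  have h0 : u ≠ 0 := by
    rintro rfl
    rw [P.ord_zero] at hu
    exact lt_irrefl _ hu
  have h1 := P.ord_add_eq (u := u) (w := -algebraMap ℂ K b) h0
    (Or.inr (by rw [P.ord_neg, P.ord_C]; exact hu))
  rwa [← sub_eq_add_neg] at h1

end WildS
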