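import Pool.Agent.helper21.WS.Fibre

/-! The product formula. -/

namespace WildS

open Polynomial WildRat

variable {K : Type} [Field K] [Algebra ℂ K]

/-- an element is nonnegative at a place if it satisfies a monic polynomial over `ℂ(φ x)` whose
coefficients are nonnegative at the place -/
theorem Product_integral (φ : E →ₐ[ℂ] K) (P : Pl K) {u : K} {p : E[X]} (hp : p.Monic)
    (hu : p.eval₂ φ.toRingHom u = 0) (h : ∀ i, 0 ≤ P.ord (φ (p.coeff i))) : 0 ≤ P.ord u := by
  have hc : (↑(p.map φ.toRingHom).coeffs : Set K) ⊆ P.v.integer := by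
    intro c hc
    obtain ⟨i, -, hi⟩ := mem_coeffs_iff.1 (Finset.mem_coe.1 hc)
    rw [hi, coeff_map]
    exact (P.ord_nonneg_iff _).1 (h i)
  have hI : IsIntegral P.v.integer u := by
    refine ⟨(p.map φ.toRingHom).toSubring P.v.integer hc,
      (monic_toSubring _ _ hc).2 (hp.map φ.toRingHom), ?_⟩
    have h1 : algebraMap P.v.integer K = P.v.integer.subtype := rfl
    rw [h1, ← eval_map, map_toSubring, eval_map]
    exact hu
  exact (P.ord_nonneg_iff u).2 ((Valuation.integer.integers P.v).mem_of_integral hI)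

/-- outside finitely many fibres an element is nonnegative -/
theorem Product_nonneg (φ : E →ₐ[ℂ] K) (hφ : FinC φ) (u : K) :
    ∃ A : Finset ℂ, ∀ a, a ∉ A → ∀ P ∈ fib φ a, 0 ≤ P.ord u := by
  classical
  obtain ⟨p, hp, hpu⟩ : φ.toRingHom.IsIntegralElem u := hφ.to_isIntegral u
  refine ⟨(Finset.range (p.natDegree + 1)).biUnion fun i =>
    if h : p.coeff i ≠ 0 then (plE_support (p.coeff i) h).toFinset else ∅, ?_⟩
  intro a ha P hP
  refine Product_integral φ P hp hpu ?_
  intro i
  by_cases h0 : p.coeff i = 0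
  · rw [h0, map_zero, P.ord_zero]
  · have hi : i ∈ Finset.range (p.natDegree + 1) := by
      rw [Finset.mem_range]
      have := le_natDegree_of_ne_zero h0
      omega
    have h1 : (plE a).ord (p.coeff i) = 0 := by
      by_contra h2
      apply ha
      rw [Finset.mem_biUnion]
      refine ⟨i, hi, ?_⟩
      rw [dif_pos h0, Set.Finite.mem_toFinset]
      exact h2
    rw [ord_coord hP h0, h1, zero_mul]

/-- the places over a finite set of points, and the poles of `φ x` -/
noncomputable def Product_set (φ : E →ₐ[ℂ] K) (hφ : FinC φ) (C : Finset ℂ) : Finset (Pl K) := by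
  classical
  exact (C.biUnion fun a => fibS φ hφ a) ∪ fibS (φ.comp invE) (finC_comp hφ finC_invE) 0

theorem Product_mem (φ : E →ₐ[ℂ] K) (hφ : FinC φ) (C : Finset ℂ) (P : Pl K) :
    P ∈ Product_set φ hφ C ↔ (∃ a ∈ C, P ∈ fib φ a) ∨ P ∈ fib (φ.comp invE) 0 := by
  classical
  unfold Product_set
  rw [Finset.mem_union, Finset.mem_biUnion, mem_fibS]
  simp only [mem_fibS]

theorem Product_sum (φ : E →ₐ[ℂ] K) (hφ : FinC φ) (C : Finset ℂ) {u : K} (hu : u ≠ 0)
    (hC : ∀ a, (plE a).ord (nrm φ u) ≠ 0 → a ∈ C) :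
    ∑ P ∈ Product_set φ hφ C, P.ord u = 0 := by
  classical
  unfold Product_set
  rw [Finset.sum_union, Finset.sum_biUnion]
  · rw [Finset.sum_congr rfl fun a _ => sum_fibS φ hφ a hu, plE_sum (nrm_ne_zero hφ hu) C hC,
      sum_fibS (φ.comp invE) (finC_comp hφ finC_invE) 0 hu, nrm_comp_invE]
    ring
  · intro a _ b _ hab
    rw [Function.onFun, Finset.disjoint_left]
    intro P hPa hPb
    rw [mem_fibS] at hPa hPb
    exact hab (P.value_unique hPa hPb)
  · rw [Finset.disjoint_left]
    intro P hPa hPb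
    rw [Finset.mem_biUnion] at hPa
    obtain ⟨a, _, hPa⟩ := hPa
    rw [mem_fibS] at hPa hPb
    rw [mem_fib_inv] at hPb
    have := P.ord_nonneg_of_value hPa
    omega

/-- Product formula: sum over the fibres of `φ` and the poles of `φ x`, norm formula and
`plE_sum`.  Finiteness of the support: `u` and `u⁻¹` satisfy a polynomial equation over `ℂ[φ x]`;
outside the zeros of the leading coefficients both have nonnegative order. -/
theorem product_formula (φ : E →ₐ[ℂ] K) (hφ : FinC φ) {u : K} (hu : u ≠ 0) :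
    {P : Pl K | P.ord u ≠ 0}.Finite ∧
      ∀ S : Finset (Pl K), (∀ P, P.ord u ≠ 0 → P ∈ S) → ∑ P ∈ S, P.ord u = 0 := by
  classical
  obtain ⟨A, hA⟩ := Product_nonneg φ hφ u
  obtain ⟨B, hB⟩ := Product_nonneg φ hφ u⁻¹
  set C := A ∪ B ∪ (plE_support (nrm φ u) (nrm_ne_zero hφ hu)).toFinset with hC
  have hsup : ∀ P : Pl K, P.ord u ≠ 0 → P ∈ Product_set φ hφ C := by
    intro P hP
    rw [Product_mem]
    by_cases h : P.ord (φ RatFunc.X) < 0
    · exact Or.inr ((mem_fib_inv φ P).2 h)
    · obtain ⟨a, ha⟩ := exists_value φ hφ P (not_lt.1 h)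
      refine Or.inl ⟨a, ?_, ha⟩
      by_contra haC
      rw [hC, Finset.mem_union, Finset.mem_union] at haC
      push Not at haC
      have h1 := hA a haC.1.1 P ha
      have h2 := hB a haC.1.2 P ha
      rw [P.ord_inv] at h2
      omega
  have hsum : ∑ P ∈ Product_set φ hφ C, P.ord u = 0 := by
    apply Product_sum φ hφ C hu
    intro a ha
    rw [hC, Finset.mem_union]
    right
    rw [Set.Finite.mem_toFinset]
    exact ha
  refine ⟨(Product_set φ hφ C).finite_toSet.subset fun P hP => hsup P hP, ?_⟩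
  intro S hS
  have h1 : ∑ P ∈ S, P.ord u = ∑ P ∈ S ∪ Product_set φ hφ C, P.ord u := by
    apply Finset.sum_subset Finset.subset_union_left
    intro P _ hP
    by_contra h
    exact hP (hS P h)
  have h2 : ∑ P ∈ Product_set φ hφ C, P.ord u = ∑ P ∈ S ∪ Product_set φ hφ C, P.ord u := by
    apply Finset.sum_subset Finset.subset_union_right
    intro P _ hP
    by_contra h
    exact hP (hsup P h)
  rw [h1, ← h2, hsum]

end WildS
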