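import Pool.Agent.helper21.WS.Product

/-! The Riemann-Hurwitz inequality from a regular derivation. -/

namespace WildS

open Polynomial WildRat

variable {K : Type} [Field K] [Algebra ℂ K]

/-- The order of an integer power. -/
theorem RH_ord_zpow (P : Pl K) (u : K) (k : ℤ) : P.ord (u ^ k) = k * P.ord u := by
  cases k with
  | ofNat n =>
    rw [Int.ofNat_eq_natCast, zpow_natCast, P.ord_pow]
  | negSucc n =>
    rw [zpow_negSucc, P.ord_inv, P.ord_pow, Int.negSucc_eq]
    push_cast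
    ring

/-- `ord (D z) ≥ ord z - 1`: write `z = t ^ k * w` with a uniformizer `t` and a unit `w`. -/
theorem ord_deriv (D : Derivation ℂ K K) (P : Pl K) (hD : ∀ u, 0 ≤ P.ord u → 0 ≤ P.ord (D u))
    {z : K} (hz : z ≠ 0) (hDz : D z ≠ 0) : P.ord z - 1 ≤ P.ord (D z) := by
  obtain ⟨t, ht0, ht1⟩ := P.exists_unif
  obtain ⟨w, hw0, hw, hzw⟩ := P.exists_unit ht0 ht1 hz
  generalize P.ord z = k at *
  have h1 : D z = t ^ (k - 1) * (algebraMap ℂ K (k : ℂ) * w * D t + t * D w) := by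
    have h2 : t ^ k = t ^ (k - 1) * t := by
      rw [← zpow_add_one₀ ht0, sub_add_cancel]
    rw [hzw, D.leibniz, D.leibniz_zpow]
    simp only [smul_eq_mul, zsmul_eq_mul]
    rw [h2]
    simp only [map_intCast]
    ring
  have hm0 : (algebraMap ℂ K (k : ℂ) * w * D t + t * D w) ≠ 0 := by
    intro h
    rw [h, mul_zero] at h1
    exact hDz h1
  have hm : 0 ≤ P.ord (algebraMap ℂ K (k : ℂ) * w * D t + t * D w) := by
    refine P.ord_nonneg_add (P.ord_nonneg_mul (P.ord_nonneg_mul ?_ hw.symm.le) (hD t ?_))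
      (P.ord_nonneg_mul ?_ (hD w hw.symm.le))
    · rw [P.ord_C]
    · rw [ht1]; norm_num
    · rw [ht1]; norm_num
  rw [h1, P.ord_mul (zpow_ne_zero _ ht0) hm0, RH_ord_zpow, ht1]
  omega

/-- Product formula for `D (ψ x)`: at `P ∈ T` the order is at least `e - 1`, at a pole of `ψ x` of
order `e` it is at least `- e - 1 ≥ - 2 e`, elsewhere it is nonnegative; `sum_poles`. -/
theorem rh_ineq (hK : ∀ φ : E →ₐ[ℂ] K, FinC φ) (D : Derivation ℂ K K)
    (hD : ∀ (P : Pl K) (u : K), 0 ≤ P.ord u → 0 ≤ P.ord (D u))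
    (hne : ∀ ψ : E →ₐ[ℂ] K, D (ψ RatFunc.X) ≠ 0) (ψ : E →ₐ[ℂ] K) (T : Finset (Pl K))
    (a : Pl K → ℂ) (hT : ∀ P ∈ T, P ∈ fib ψ (a P)) :
    ∑ P ∈ T, (P.ord (ψ RatFunc.X - algebraMap ℂ K (a P)) - 1) ≤ 2 * (deg ψ : ℤ) := by
  classical
  have hu := hne ψ
  obtain ⟨hfin, hsum⟩ := product_formula ψ (hK ψ) hu
  set Q : Finset (Pl K) := fibS (ψ.comp invE) (hK _) 0 with hQ
  have hQm : ∀ P, P ∈ Q ↔ P.ord (ψ RatFunc.X) < 0 := by
    intro P
    rw [hQ, mem_fibS, mem_fib_inv]
  set S : Finset (Pl K) := (hfin.toFinset ∪ T) ∪ Q with hS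
  have hz := hsum S (fun P hP => by
    rw [hS]
    simp only [Finset.mem_union, Set.Finite.mem_toFinset, Set.mem_ofPred_eq]
    exact Or.inl (Or.inl hP))
  have hle : ∀ P ∈ S, ((if P ∈ T then P.ord (ψ RatFunc.X - algebraMap ℂ K (a P)) - 1 else 0) +
      (if P ∈ Q then 2 * P.ord (ψ RatFunc.X) else 0)) ≤ P.ord (D (ψ RatFunc.X)) := by
    intro P _
    by_cases hPT : P ∈ T
    · have hval : 0 < P.ord (ψ RatFunc.X - algebraMap ℂ K (a P)) := hT P hPT
      have h0 := P.ord_nonneg_of_value hval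
      have hPQ : P ∉ Q := fun h => absurd ((hQm P).mp h) (not_lt.mpr h0)
      rw [if_pos hPT, if_neg hPQ, add_zero]
      have hD1 : D (ψ RatFunc.X - algebraMap ℂ K (a P)) = D (ψ RatFunc.X) := by
        rw [map_sub, D.map_algebraMap, sub_zero]
      have := ord_deriv D P (hD P) (z := ψ RatFunc.X - algebraMap ℂ K (a P))
        (coord_sub_ne ψ (a P)) (by rw [hD1]; exact hu)
      rwa [hD1] at this
    · rw [if_neg hPT, zero_add]
      by_cases hPQ : P ∈ Q
      · rw [if_pos hPQ]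
        have hneg := (hQm P).mp hPQ
        have h0 : ψ RatFunc.X ≠ 0 := by
          intro h
          rw [h, P.ord_zero] at hneg
          exact lt_irrefl _ hneg
        have := ord_deriv D P (hD P) h0 hu
        omega
      · rw [if_neg hPQ]
        exact hD P _ (not_lt.mp fun h => hPQ ((hQm P).mpr h))
  have hfinal := Finset.sum_le_sum hle
  rw [hz, Finset.sum_add_distrib, Finset.sum_ite_mem, Finset.sum_ite_mem] at hfinal
  have hST : S ∩ T = T := by
    apply Finset.inter_eq_right.mpr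
    intro P hP
    rw [hS]
    simp [hP]
  have hSQ : S ∩ Q = Q := by
    apply Finset.inter_eq_right.mpr
    intro P hP
    rw [hS]
    simp [hP]
  rw [hST, hSQ, ← Finset.mul_sum, hQ, sum_poles ψ (hK ψ) (hK _)] at hfinal
  linarith

end WildS
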