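import Pool.Agent.helper21.WS.DInt
import Pool.Agent.helper21.WS.RH

/-! The field `ℂ(x)`. -/

namespace WildS

open Polynomial WildRat

/-- integral over `ℂ[x]` in `ℂ(x)`: polynomials -/
theorem integ_X {u : E} (hu : Integ (RatFunc.X : E) u) : ∃ p : ℂ[X], u = algebraMap ℂ[X] E p := by
  have h1 : (aeval (RatFunc.X : E) : ℂ[X] →ₐ[ℂ] E).toRingHom = algebraMap ℂ[X] E := by
    ext p
    · simp
    · simp
  unfold Integ at hu
  rw [h1] at hu
  have h2 : IsIntegral ℂ[X] u := hu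
  obtain ⟨p, hp⟩ := IsIntegrallyClosed.isIntegral_iff.1 h2
  exact ⟨p, hp.symm⟩

theorem RatK_inv_aeval (p : ℂ[X]) :
    invE (aeval (RatFunc.X : E)⁻¹ p) = aeval (RatFunc.X : E) p := by
  rw [← aeval_algHom_apply, map_inv₀, invE_X, inv_inv]

theorem integ_X_inv {u : E} (hu : Integ (RatFunc.X : E)⁻¹ u) :
    ∃ p : ℂ[X], u = aeval (RatFunc.X : E)⁻¹ p := by
  have h1 : Integ (RatFunc.X : E) (invE u) := by
    obtain ⟨P, hP, hP0⟩ := hu
    refine ⟨P, hP, ?_⟩
    have h2 := congrArg invE.toRingHom hP0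
    rw [Polynomial.hom_eval₂, map_zero] at h2
    have h3 : invE.toRingHom.comp (aeval (RatFunc.X : E)⁻¹ : ℂ[X] →ₐ[ℂ] E).toRingHom =
        (aeval (RatFunc.X : E) : ℂ[X] →ₐ[ℂ] E).toRingHom := by
      apply RingHom.ext
      intro p
      exact RatK_inv_aeval p
    rw [h3] at h2
    exact h2
  obtain ⟨p, hp⟩ := integ_X h1
  refine ⟨p, ?_⟩
  rw [← invE_invE u, hp, coord_poly, invE_X]

theorem RatK_integ_aeval {K : Type} [Field K] [Algebra ℂ K] (z : K) (p : ℂ[X]) :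
    Integ z (aeval z p) := by
  unfold Integ
  exact RingHom.isIntegralElem_map (aeval z : ℂ[X] →ₐ[ℂ] K).toRingHom

theorem RatK_finC_id : FinC (AlgHom.id ℂ E) := RingHom.Finite.id E

theorem good_E : Good E := by
  have hfin : ∀ φ : E →ₐ[ℂ] E, FinC φ := fun φ => finC_all _ RatK_finC_id φ
  obtain ⟨D, hD1, hDne⟩ := exists_deriv (AlgHom.id ℂ E) RatK_finC_id
  have hD1' : D (RatFunc.X : E) = 1 := hD1
  refine ⟨hfin, fun ψ T a hT => rh_ineq hfin D ?_ hDne ψ T a hT⟩
  refine dInt (AlgHom.id ℂ E) RatK_finC_id D ?_ ?_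
  · intro u hu
    obtain ⟨p, rfl⟩ := integ_X hu
    have h : D (algebraMap ℂ[X] E p) = aeval (RatFunc.X : E) (derivative p) := by
      rw [← aeval_X_E, Derivation.map_aeval, hD1', smul_eq_mul, mul_one]
    rw [h]
    exact RatK_integ_aeval _ _
  · intro u hu
    obtain ⟨p, rfl⟩ := integ_X_inv hu
    have h : D (aeval (RatFunc.X : E)⁻¹ p) =
        aeval (RatFunc.X : E)⁻¹ (-(derivative p * X ^ 2)) := by
      rw [Derivation.map_aeval, Derivation.leibniz_inv, hD1', map_neg, map_mul, map_pow, aeval_X]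
      simp only [smul_eq_mul]
      ring
    rw [h]
    exact RatK_integ_aeval _ _

end WildS
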