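import Pool.Agent.helper21.WS.PlBasic

/-! The finite places of `ℂ(x)`, the inversion `x ↦ 1 / x`, and the product formula. -/

namespace WildS

open Polynomial WildRat

/-- The prime `(X - a)` of `ℂ[X]`. -/
private noncomputable def RatOrd_prime (a : ℂ) : IsDedekindDomain.HeightOneSpectrum ℂ[X] where
  asIdeal := Ideal.span {X - C a}
  isPrime := by
    rw [Ideal.span_singleton_prime (X_sub_C_ne_zero a)]
    exact prime_X_sub_C a
  ne_bot := by
    rw [ne_eq, Ideal.span_singleton_eq_bot]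
    exact X_sub_C_ne_zero a

private theorem RatOrd_val_X (a : ℂ) :
    (RatOrd_prime a).intValuation (X - C a) = WithZero.exp (-1 : ℤ) :=
  (RatOrd_prime a).intValuation_singleton (X_sub_C_ne_zero a) rfl

private theorem RatOrd_val_unit (a : ℂ) {p : ℂ[X]} (hp : p.eval a ≠ 0) :
    (RatOrd_prime a).intValuation p = 1 := by
  rw [IsDedekindDomain.HeightOneSpectrum.intValuation_eq_one_iff]
  intro h
  have h1 : X - C a ∣ p := Ideal.mem_span_singleton.1 h
  exact hp (dvd_iff_isRoot.1 h1)

private theorem RatOrd_val (a : ℂ) {p : ℂ[X]} (hp : p ≠ 0) :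
    (RatOrd_prime a).intValuation p = WithZero.exp (-1 : ℤ) ^ (p.rootMultiplicity a) := by
  obtain ⟨q, hq, hnd⟩ := exists_eq_pow_rootMultiplicity_mul_and_not_dvd p hp a
  have hqa : q.eval a ≠ 0 := fun h => hnd (dvd_iff_isRoot.2 h)
  conv_lhs => rw [hq]
  rw [map_mul, map_pow, RatOrd_val_X, RatOrd_val_unit a hqa, mul_one]

/-- The place of `ℂ(x)` at the point `a`.  (For instance the valuation of
`IsDedekindDomain.HeightOneSpectrum ℂ[X]` at the prime `(X - C a)`; surjective by
`HeightOneSpectrum.valuation_surjective`; on polynomials `intValuation` and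
`rootMultiplicity`.) -/
theorem exists_plE (a : ℂ) : ∃ P : Pl E, ∀ p : ℂ[X], p ≠ 0 →
    P.ord (algebraMap ℂ[X] E p) = p.rootMultiplicity a := by
  refine ⟨⟨(RatOrd_prime a).valuation E, (RatOrd_prime a).valuation_surjective E, ?_⟩, ?_⟩
  · intro c hc
    rw [algC_E, IsDedekindDomain.HeightOneSpectrum.valuation_of_algebraMap]
    exact RatOrd_val_unit a (by simpa using hc)
  · intro p hp
    unfold Pl.ord
    rw [IsDedekindDomain.HeightOneSpectrum.valuation_of_algebraMap, RatOrd_val a hp,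
      WithZero.log_pow, WithZero.log_exp]
    simp

/-- The place of `ℂ(x)` at the point `a`. -/
noncomputable def plE (a : ℂ) : Pl E := (exists_plE a).choose

theorem plE_poly (a : ℂ) {p : ℂ[X]} (hp : p ≠ 0) :
    (plE a).ord (algebraMap ℂ[X] E p) = p.rootMultiplicity a :=
  (exists_plE a).choose_spec p hp

private theorem RatOrd_alg_ne {p : ℂ[X]} (hp : p ≠ 0) : algebraMap ℂ[X] E p ≠ 0 := by
  intro h
  exact hp (RatFunc.algebraMap_injective ℂ (h.trans (map_zero _).symm))

private theorem RatOrd_ord (a : ℂ) {u : E} (hu : u ≠ 0) :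
    (plE a).ord u = u.num.rootMultiplicity a - u.denom.rootMultiplicity a := by
  have hn : u.num ≠ 0 := RatFunc.num_ne_zero hu
  have hd : u.denom ≠ 0 := RatFunc.denom_ne_zero u
  conv_lhs => rw [← RatFunc.num_div_denom u]
  rw [Pl.ord_div _ (RatOrd_alg_ne hn) (RatOrd_alg_ne hd), plE_poly a hn, plE_poly a hd]

theorem plE_support (u : E) (hu : u ≠ 0) : {a : ℂ | (plE a).ord u ≠ 0}.Finite := by
  have hn : u.num ≠ 0 := RatFunc.num_ne_zero hu
  have hd : u.denom ≠ 0 := RatFunc.denom_ne_zero u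
  refine (u.num.roots.toFinset ∪ u.denom.roots.toFinset).finite_toSet.subset ?_
  intro a ha
  rw [Set.mem_ofPred_eq, RatOrd_ord a hu] at ha
  rw [Finset.mem_coe, Finset.mem_union, Multiset.mem_toFinset, Multiset.mem_toFinset,
    mem_roots hn, mem_roots hd]
  by_contra hcon
  push Not at hcon
  rw [rootMultiplicity_eq_zero hcon.1, rootMultiplicity_eq_zero hcon.2] at ha
  simp at ha

/-- The substitution `x ↦ 1 / x`. -/
theorem exists_invE : ∃ s : E →ₐ[ℂ] E, s RatFunc.X = (RatFunc.X : E)⁻¹ := by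
  have hX : NonConst ((RatFunc.X : E)⁻¹) := by
    intro c hc
    apply ratFuncX_nonConst c⁻¹
    rw [← inv_inv (RatFunc.X : RatFunc ℂ), hc, map_inv₀]
  have hinj : Function.Injective (aeval ((RatFunc.X : E)⁻¹) : ℂ[X] →ₐ[ℂ] E) := by
    rw [injective_iff_map_eq_zero]
    intro p hp
    by_contra hne
    exact hX.aeval_ne_zero hne hp
  refine ⟨RatFunc.liftAlgHom (aeval ((RatFunc.X : E)⁻¹) : ℂ[X] →ₐ[ℂ] E)
    (nonZeroDivisors_le_comap_nonZeroDivisors_of_injective _ hinj), ?_⟩
  have h := RatFunc.liftAlgHom_apply_div (φ := (aeval ((RatFunc.X : E)⁻¹) : ℂ[X] →ₐ[ℂ] E))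
    (nonZeroDivisors_le_comap_nonZeroDivisors_of_injective _ hinj) X 1
  rw [map_one, div_one, map_one, div_one, RatFunc.algebraMap_X, aeval_X] at h
  exact h

/-- The substitution `x ↦ 1 / x`. -/
noncomputable def invE : E →ₐ[ℂ] E := exists_invE.choose

theorem invE_X : invE RatFunc.X = (RatFunc.X : E)⁻¹ := exists_invE.choose_spec

theorem invE_invE (u : E) : invE (invE u) = u := by
  have h : invE.comp invE = AlgHom.id ℂ E := by
    apply coord_ext
    rw [AlgHom.comp_apply, invE_X, map_inv₀, invE_X, inv_inv, AlgHom.id_apply]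
  have := congrArg (fun f : E →ₐ[ℂ] E => f u) h
  simpa using this

private theorem RatOrd_inv_poly {p : ℂ[X]} (hp : p ≠ 0) :
    invE (algebraMap ℂ[X] E p) ≠ 0 ∧
    (plE 0).ord (invE (algebraMap ℂ[X] E p)) = - (p.natDegree : ℤ) := by
  have hX0 : (RatFunc.X : E) ≠ 0 := RatFunc.X_ne_zero
  let _ : Invertible ((RatFunc.X : E)⁻¹) := ⟨RatFunc.X, mul_inv_cancel₀ hX0, inv_mul_cancel₀ hX0⟩
  have h1 := eval₂_reverse_mul_pow (algebraMap ℂ E) ((RatFunc.X : E)⁻¹) p
  have h2 : (⅟((RatFunc.X : E)⁻¹) : E) = RatFunc.X := rfl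
  rw [h2, ← aeval_def, ← aeval_def, aeval_X_E] at h1
  have hr : p.reverse ≠ 0 := by
    intro h
    exact hp (reverse_eq_zero.mp h)
  have h3 : invE (algebraMap ℂ[X] E p)
      = algebraMap ℂ[X] E p.reverse * (RatFunc.X : E)⁻¹ ^ p.natDegree := by
    rw [coord_poly, invE_X, h1]
  have hXi : (RatFunc.X : E)⁻¹ ^ p.natDegree ≠ 0 := pow_ne_zero _ (inv_ne_zero hX0)
  refine ⟨by rw [h3]; exact mul_ne_zero (RatOrd_alg_ne hr) hXi, ?_⟩
  have h4 : (plE 0).ord (RatFunc.X : E) = 1 := by
    rw [← RatFunc.algebraMap_X, plE_poly 0 X_ne_zero]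
    have := rootMultiplicity_X_sub_C_self (x := (0 : ℂ))
    rw [C_0, sub_zero] at this
    rw [this]
    rfl
  rw [h3, Pl.ord_mul _ (RatOrd_alg_ne hr) hXi, plE_poly 0 hr, Pl.ord_pow, Pl.ord_inv, h4]
  rw [rootMultiplicity_eq_zero]
  · simp
  · rw [IsRoot, ← coeff_zero_eq_eval_zero, coeff_zero_reverse]
    exact leadingCoeff_ne_zero.2 hp

private theorem RatOrd_sum_poly {p : ℂ[X]} (hp : p ≠ 0) (S : Finset ℂ)
    (hS : ∀ a, p.IsRoot a → a ∈ S) : ∑ a ∈ S, p.rootMultiplicity a = p.natDegree := by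
  have h1 : Multiset.card p.roots = p.natDegree :=
    splits_iff_card_roots.1 (IsAlgClosed.splits p)
  rw [← h1, ← Multiset.toFinset_sum_count_eq]
  symm
  simp_rw [count_roots]
  apply Finset.sum_subset
  · intro a ha
    rw [Multiset.mem_toFinset, mem_roots hp] at ha
    exact hS a ha
  · intro a _ ha
    rw [Multiset.mem_toFinset, mem_roots hp] at ha
    exact rootMultiplicity_eq_zero ha

/-- The product formula on the projective line; the place at infinity is the place `0` after the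
substitution `x ↦ 1 / x`.  Reduce to polynomials `u = p / q`; for a polynomial `p` the sum of the
multiplicities is `p.natDegree`, and `invE p = x ^ (- natDegree p) * (reverse polynomial of p)`,
whose value at `0` is the leading coefficient of `p`. -/
theorem plE_sum {u : E} (hu : u ≠ 0) (S : Finset ℂ) (hS : ∀ a, (plE a).ord u ≠ 0 → a ∈ S) :
    ∑ a ∈ S, (plE a).ord u = - (plE 0).ord (invE u) := by
  have hn : u.num ≠ 0 := RatFunc.num_ne_zero hu
  have hd : u.denom ≠ 0 := RatFunc.denom_ne_zero u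
  set S' := S ∪ (u.num.roots.toFinset ∪ u.denom.roots.toFinset) with hS'
  have h1 : ∑ a ∈ S, (plE a).ord u = ∑ a ∈ S', (plE a).ord u := by
    apply Finset.sum_subset Finset.subset_union_left
    intro a _ ha
    by_contra h
    exact ha (hS a h)
  have h2 : ∑ a ∈ S', (plE a).ord u = (u.num.natDegree : ℤ) - u.denom.natDegree := by
    have e : ∀ a ∈ S', (plE a).ord u
        = (u.num.rootMultiplicity a : ℤ) - u.denom.rootMultiplicity a := fun a _ => RatOrd_ord a hu
    rw [Finset.sum_congr rfl e, Finset.sum_sub_distrib]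
    have e1 := RatOrd_sum_poly hn S' (fun a ha => by
      rw [hS', Finset.mem_union, Finset.mem_union, Multiset.mem_toFinset, mem_roots hn]
      exact Or.inr (Or.inl ha))
    have e2 := RatOrd_sum_poly hd S' (fun a ha => by
      rw [hS', Finset.mem_union, Finset.mem_union, Multiset.mem_toFinset, Multiset.mem_toFinset,
        mem_roots hd]
      exact Or.inr (Or.inr ha))
    rw [← e1, ← e2]
    push_cast
    rfl
  have h3 : (plE 0).ord (invE u) = - (u.num.natDegree : ℤ) + u.denom.natDegree := by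
    conv_lhs => rw [← RatFunc.num_div_denom u]
    rw [map_div₀, Pl.ord_div _ (RatOrd_inv_poly hn).1 (RatOrd_inv_poly hd).1,
      (RatOrd_inv_poly hn).2, (RatOrd_inv_poly hd).2]
    ring
  rw [h1, h2, h3]
  ring

end WildS
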