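import Pool.Agent.helper21.WS.Gauss

/-! The polynomial `P(T) - A(x) Q(T)` is separable. -/

namespace WildS

open Polynomial WildRat

/-- The Wronskian of a nonconstant rational function does not vanish. -/
private theorem Sep_wronskian (A : RF) (hn : 1 ≤ A.n) :
    derivative A.P * A.Q - A.P * derivative A.Q ≠ 0 := by
  intro h
  have h1 : derivative A.P * A.Q = A.P * derivative A.Q := sub_eq_zero.mp h
  have hP : A.P ∣ derivative A.P := A.cop.dvd_of_dvd_mul_right ⟨_, h1⟩
  have hQ : A.Q ∣ derivative A.Q :=
    A.cop.symm.dvd_of_dvd_mul_left ⟨_, by rw [← h1]; ring⟩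
  have key : ∀ p : ℂ[X], p ∣ derivative p → p.natDegree = 0 := by
    intro p hp
    by_contra h0
    have hd : derivative p ≠ 0 := fun hd => h0 (natDegree_eq_zero_of_derivative_eq_zero hd)
    have := natDegree_le_of_dvd hp hd
    have := natDegree_derivative_lt h0
    omega
  have hP0 := key _ hP
  have hQ0 := key _ hQ
  unfold RF.n at hn
  rw [hP0, hQ0] at hn
  simp at hn

/-- `P(T) - A(x) Q(T)` has no multiple root `z`: otherwise `(P' Q - P Q')(z) = 0`, so `z ∈ ℂ` and
`A(x) ∈ ℂ`. -/
theorem GG_separable (A : RF) (hn : 1 ≤ A.n) : (GG A).Separable := by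
  unfold Polynomial.Separable
  rw [Polynomial.isCoprime_iff_aeval_ne_zero_of_isAlgClosed E (AlgebraicClosure E)]
  intro z
  by_contra hcon
  push Not at hcon
  obtain ⟨h1, h2⟩ := hcon
  set a : AlgebraicClosure E := algebraMap E (AlgebraicClosure E) (elt A) with ha
  have h1' : aeval z A.P = a * aeval z A.Q := by
    rw [GG, map_sub, map_mul, aeval_map_algebraMap, aeval_map_algebraMap, aeval_C] at h1
    exact sub_eq_zero.mp h1
  have h2' : aeval z (derivative A.P) = a * aeval z (derivative A.Q) := by
    rw [GG, derivative_sub, derivative_C_mul, derivative_map, derivative_map, map_sub, map_mul,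
      aeval_map_algebraMap, aeval_map_algebraMap, aeval_C] at h2
    exact sub_eq_zero.mp h2
  have hW : aeval z (derivative A.P * A.Q - A.P * derivative A.Q) = 0 := by
    rw [map_sub, map_mul, map_mul, h1', h2']
    ring
  have hz : ¬ NonConst z := fun hz => hz.aeval_ne_zero (Sep_wronskian A hn) hW
  unfold NonConst at hz
  push Not at hz
  obtain ⟨c, hc⟩ := hz
  have hev : ∀ p : ℂ[X], aeval z p = algebraMap ℂ (AlgebraicClosure E) (p.eval c) := by
    intro p
    rw [hc, aeval_algebraMap_apply]
    simp
  have hinj : Function.Injective (algebraMap ℂ (AlgebraicClosure E)) :=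
    (algebraMap ℂ (AlgebraicClosure E)).injective
  have hQc : A.Q.eval c ≠ 0 := by
    intro hQc
    have hPc : A.P.eval c = 0 := by
      apply hinj
      rw [← hev, h1', hev, hQc]
      simp
    obtain ⟨u, v, huv⟩ := A.cop
    have := congrArg (Polynomial.eval c) huv
    rw [eval_add, eval_mul, eval_mul, hPc, hQc] at this
    simp at this
  have h3 : algebraMap E (AlgebraicClosure E) (elt A) =
      algebraMap E (AlgebraicClosure E) (algebraMap ℂ E (A.P.eval c / A.Q.eval c)) := by
    rw [← IsScalarTower.algebraMap_apply, map_div₀, ← hev, ← hev, h1', ← ha]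
    have : aeval z A.Q ≠ 0 := by
      rw [hev]
      intro h0
      exact hQc (hinj (by rw [h0, map_zero]))
    field_simp
  exact elt_nonConst A hn _ ((algebraMap E (AlgebraicClosure E)).injective h3)

end WildS
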