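import Pool.Agent.helper21.WS.Sep
import Pool.Agent.helper21.WS.Finite

/-! The transposition which exchanges `φ x` and `ψ x`. -/

namespace WildS

open Polynomial WildRat

open Classical in
/-- Step 1: residues of the roots -/
theorem Transp_count {L : Type} [Field L] [Algebra ℂ L] {A : RF} {c : ℂ} {t : L}
    (s : Finset L)
    (hs : A.P.map (algebraMap ℂ L) - C t * A.Q.map (algebraMap ℂ L) = ∏ z ∈ s, (X - C z))
    (O : ValuationSubring L) (hC : ∀ c : ℂ, algebraMap ℂ L c ∈ O)
    (ht : t - algebraMap ℂ L c ∈ O.nonunits) :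
    (∀ z ∈ s, z ∈ O) ∧
    (∀ a : ℂ, (A.P - C c * A.Q).rootMultiplicity a =
      (s.filter fun z => z - algebraMap ℂ L a ∈ O.nonunits).card) ∧
    ∀ z ∈ s, ∃ a : ℂ, z - algebraMap ℂ L a ∈ O.nonunits := by
  have htO : t ∈ O := by
    have h1 := O.nonunits_le ht
    have h2 : t - algebraMap ℂ L c ∈ O := h1
    have h3 := O.add_mem _ _ h2 (hC c)
    rwa [sub_add_cancel] at h3
  let i : ℂ →+* O := (algebraMap ℂ L).codRestrict O.toSubring hC
  have hi : ∀ x, ((i x : O) : L) = algebraMap ℂ L x := fun x => rfl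
  have hic : (algebraMap O L).comp i = algebraMap ℂ L := by
    ext x; rfl
  let tO : O := ⟨t, htO⟩
  let fO : O[X] := A.P.map i - C tO * A.Q.map i
  have hfO : fO.map (algebraMap O L) = ∏ z ∈ s, (X - C z) := by
    rw [← hs]
    simp only [fO, Polynomial.map_sub, Polynomial.map_mul, Polynomial.map_map, hic, map_C]
    rfl
  have hinj : Function.Injective (algebraMap O L) := Subtype.coe_injective
  have hzO : ∀ z ∈ s, z ∈ O := by
    intro z hz
    have hmon : fO.Monic := by
      apply Polynomial.monic_of_injective hinj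
      rw [hfO]
      exact monic_prod_of_monic _ _ fun z _ => monic_X_sub_C z
    have hroot : eval₂ (algebraMap O L) z fO = 0 := by
      rw [eval₂_eq_eval_map, hfO, eval_prod]
      exact Finset.prod_eq_zero hz (by simp)
    obtain ⟨y, hy⟩ := IsIntegrallyClosed.isIntegral_iff.1 (⟨fO, hmon, hroot⟩ : IsIntegral O z)
    rw [← hy]
    exact y.2
  have hfO' : fO = ∏ z ∈ s.attach, (X - C (⟨z.1, hzO z.1 z.2⟩ : O)) := by
    apply Polynomial.map_injective _ hinj
    rw [hfO, Polynomial.map_prod]
    rw [← Finset.prod_attach]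
    refine Finset.prod_congr rfl fun z _ => ?_
    simp
  let π := IsLocalRing.residue O
  have hπ : ∀ x : O, π x = 0 ↔ (x : L) ∈ O.nonunits := by
    intro x
    rw [O.coe_mem_nonunits_iff, IsLocalRing.residue_eq_zero_iff]
  have hπt : π tO = π (i c) := by
    rw [← sub_eq_zero, ← map_sub, hπ]
    exact ht
  have hprod : (A.P - C c * A.Q).map (π.comp i) =
      ∏ z ∈ s.attach, (X - C (π ⟨z.1, hzO z.1 z.2⟩)) := by
    have h1 := congrArg (Polynomial.map π) hfO'
    rw [Polynomial.map_prod] at h1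
    have h2 : fO.map π = (A.P - C c * A.Q).map (π.comp i) := by
      simp only [fO, Polynomial.map_sub, Polynomial.map_mul, Polynomial.map_map, map_C, hπt,
        RingHom.comp_apply]
    rw [← h2, h1]
    refine Finset.prod_congr rfl fun z _ => ?_
    simp
  have hinj2 : Function.Injective (π.comp i) := (π.comp i).injective
  have hroots : ((A.P - C c * A.Q).map (π.comp i)).roots =
      s.attach.val.map fun z => π ⟨z.1, hzO z.1 z.2⟩ := by
    rw [hprod]
    have := Polynomial.roots_multiset_prod_X_sub_C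
      (s.attach.val.map fun z => π (⟨z.1, hzO z.1 z.2⟩ : O))
    rw [Multiset.map_map] at this
    exact this
  refine ⟨hzO, ?_, ?_⟩
  · intro a
    rw [eq_rootMultiplicity_map hinj2 a, ← count_roots, hroots, Multiset.count_map]
    have h1 : (Multiset.filter (fun z => (π.comp i) a = π ⟨z.1, hzO z.1 z.2⟩) s.attach.val).card =
        (s.attach.filter fun z => z.1 - algebraMap ℂ L a ∈ O.nonunits).card := by
      rw [Finset.card, Finset.filter_val]
      congr 1
      refine Multiset.filter_congr fun z _ => ?_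
      rw [eq_comm, ← sub_eq_zero, RingHom.comp_apply, ← map_sub, hπ]
      rfl
    rw [h1]
    refine Finset.card_bij (fun z _ => z.1) ?_ ?_ ?_
    · intro z hz
      rw [Finset.mem_filter] at hz ⊢
      exact ⟨z.2, hz.2⟩
    · intro z _ w _ h
      exact Subtype.ext h
    · intro z hz
      rw [Finset.mem_filter] at hz
      exact ⟨⟨z, hz.1⟩, by rw [Finset.mem_filter]; exact ⟨Finset.mem_attach _ _, hz.2⟩, rfl⟩
  · intro z hz
    have h1 : π ⟨z, hzO z hz⟩ ∈ ((A.P - C c * A.Q).map (π.comp i)).roots := by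
      rw [hroots]
      exact Multiset.mem_map.2 ⟨⟨z, hz⟩, Finset.mem_attach _ _, rfl⟩
    rw [(IsAlgClosed.splits (A.P - C c * A.Q)).roots_map (π.comp i)] at h1
    obtain ⟨a, _, ha⟩ := Multiset.mem_map.1 h1
    refine ⟨a, ?_⟩
    have h2 : π (⟨z, hzO z hz⟩ - i a) = 0 := by
      rw [map_sub, ← ha]
      exact sub_self _
    rw [hπ] at h2
    exact h2

/-- Step 2: the only two congruent roots are `u` and `w`. -/
theorem Transp_collide {L : Type} [Field L] [Algebra ℂ L] {A : RF} {c q : ℂ} {t : L}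
    (s : Finset L)
    (hs : A.P.map (algebraMap ℂ L) - C t * A.Q.map (algebraMap ℂ L) = ∏ z ∈ s, (X - C z))
    (O : ValuationSubring L) (hC : ∀ c : ℂ, algebraMap ℂ L c ∈ O)
    (ht : t - algebraMap ℂ L c ∈ O.nonunits)
    (h2 : (A.P - C c * A.Q).rootMultiplicity q = 2)
    (h1 : ∀ a, a ≠ q → (A.P - C c * A.Q).rootMultiplicity a ≤ 1)
    {u w : L} (hu : u ∈ s) (hw : w ∈ s) (huw : u ≠ w) (huq : u - algebraMap ℂ L q ∈ O.nonunits)
    (hwq : w - algebraMap ℂ L q ∈ O.nonunits) {Z Z' : L} (hZ : Z ∈ s) (hZ' : Z' ∈ s)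
    (hne : Z ≠ Z') (hZZ : Z - Z' ∈ O.nonunits) : (Z = u ∧ Z' = w) ∨ (Z = w ∧ Z' = u) := by
  classical
  obtain ⟨_, hcount, hres⟩ := Transp_count s hs O hC ht
  obtain ⟨a, ha⟩ := hres Z hZ
  have ha' : Z' - algebraMap ℂ L a ∈ O.nonunits := by
    have h3 := O.nonunits.sub_mem ha hZZ
    rwa [show Z - algebraMap ℂ L a - (Z - Z') = Z' - algebraMap ℂ L a by ring] at h3
  have haq : a = q := by
    by_contra hcon
    have h3 := h1 a hcon
    rw [hcount a] at h3
    have h4 : ({Z, Z'} : Finset L) ⊆ s.filter fun z => z - algebraMap ℂ L a ∈ O.nonunits := by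
      intro x hx
      rw [Finset.mem_insert, Finset.mem_singleton] at hx
      rw [Finset.mem_filter]
      rcases hx with rfl | rfl
      · exact ⟨hZ, ha⟩
      · exact ⟨hZ', ha'⟩
    have h5 := Finset.card_le_card h4
    rw [Finset.card_pair hne] at h5
    omega
  subst haq
  have h3 : ({u, w} : Finset L) = s.filter fun z => z - algebraMap ℂ L a ∈ O.nonunits := by
    apply Finset.eq_of_subset_of_card_le
    · intro x hx
      rw [Finset.mem_insert, Finset.mem_singleton] at hx
      rw [Finset.mem_filter]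
      rcases hx with rfl | rfl
      · exact ⟨hu, huq⟩
      · exact ⟨hw, hwq⟩
    · rw [← hcount a, h2, Finset.card_pair huw]
  have h4 : Z ∈ ({u, w} : Finset L) := by
    rw [h3, Finset.mem_filter]; exact ⟨hZ, ha⟩
  have h5 : Z' ∈ ({u, w} : Finset L) := by
    rw [h3, Finset.mem_filter]; exact ⟨hZ', ha'⟩
  rw [Finset.mem_insert, Finset.mem_singleton] at h4 h5
  rcases h4 with rfl | rfl <;> rcases h5 with rfl | rfl
  · exact absurd rfl hne
  · exact Or.inl ⟨rfl, rfl⟩
  · exact Or.inr ⟨rfl, rfl⟩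
  · exact absurd rfl hne


theorem Transp_integral {L : Type} [Field L] [Algebra ℂ L] [Algebra E L] [Algebra ℂ[X] L]
    [IsScalarTower ℂ E L] [IsScalarTower ℂ[X] E L]
    (O : ValuationSubring L) (hC : ∀ c : ℂ, algebraMap ℂ L c ∈ O)
    (ht : algebraMap ℂ[X] L X ∈ O) {z : L} (hz : IsIntegral ℂ[X] z) : z ∈ O := by
  have hp : ∀ p : ℂ[X], algebraMap ℂ[X] L p ∈ O := by
    intro p
    induction p using Polynomial.induction_on' with
    | add p q hp hq => rw [map_add]; exact O.add_mem _ _ hp hq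
    | monomial n a =>
      rw [← C_mul_X_pow_eq_monomial, map_mul, map_pow]
      refine O.mul_mem _ _ ?_ (pow_mem ht n)
      have h1 : algebraMap ℂ[X] L (C a) = algebraMap ℂ L a := by
        rw [IsScalarTower.algebraMap_apply ℂ[X] E L, ← algC_E, ← IsScalarTower.algebraMap_apply]
      rw [h1]
      exact hC a
  obtain ⟨f, hf, hfz⟩ := hz
  let i : ℂ[X] →+* O := (algebraMap ℂ[X] L).codRestrict O.toSubring hp
  have h2 : IsIntegral O z := by
    refine ⟨f.map i, hf.map i, ?_⟩
    rw [eval₂_map]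
    exact hfz
  obtain ⟨y, hy⟩ := IsIntegrallyClosed.isIntegral_iff.1 h2
  rw [← hy]
  exact y.2

/-- Step 3: a nontrivial element of the inertia group. -/
theorem Transp_inertia {L : Type} [Field L] [Algebra ℂ L] [Algebra E L] [Algebra ℂ[X] L]
    [IsScalarTower ℂ E L] [IsScalarTower ℂ[X] E L] [FiniteDimensional E L] [IsGalois E L]
    (O : ValuationSubring L) (hC : ∀ c : ℂ, algebraMap ℂ L c ∈ O) {c : ℂ}
    (ht : algebraMap ℂ[X] L X - algebraMap ℂ L c ∈ O.nonunits) {y d e : L}
    (hy : IsIntegral ℂ[X] y) (hd : IsIntegral ℂ[X] d) (he : IsIntegral ℂ[X] e)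
    (hyO : y ∈ O.nonunits) (hdO : d ∉ O.nonunits)
    (hyde : (algebraMap ℂ[X] L X - algebraMap ℂ L c) * d = y ^ 2 * e) :
    ∃ g : L ≃ₐ[E] L, g ≠ 1 ∧ ∀ z : L, IsIntegral ℂ[X] z → g z - z ∈ O.nonunits := by
  classical
  have hX : algebraMap ℂ[X] L X ∈ O := by
    have h1 : algebraMap ℂ[X] L X - algebraMap ℂ L c ∈ O := O.nonunits_le ht
    have h3 := O.add_mem _ _ h1 (hC c)
    rwa [sub_add_cancel] at h3
  have hCC : ∀ a : ℂ, algebraMap ℂ[X] L (C a) = algebraMap ℂ L a := fun a => by
    rw [IsScalarTower.algebraMap_apply ℂ[X] E L, ← algC_E, ← IsScalarTower.algebraMap_apply]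
  let S := integralClosure ℂ[X] L
  have hS : ∀ s : S, (s : L) ∈ O := fun s => Transp_integral O hC hX s.2
  let 𝔔 : Ideal S :=
    { carrier := {s | (s : L) ∈ O.nonunits}
      zero_mem' := O.nonunits.zero_mem
      add_mem' := fun {a b} ha hb => O.nonunits.add_mem ha hb
      smul_mem' := by
        intro a b hb
        show ((a * b : S) : L) ∈ O.nonunits
        have h1 := (IsLocalRing.maximalIdeal O).mul_mem_left ⟨a, hS a⟩
          (O.coe_mem_nonunits_iff.1 (show ((⟨b, hS b⟩ : O) : L) ∈ O.nonunits from hb))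
        exact O.coe_mem_nonunits_iff.2 h1 }
  have hmem : ∀ s : S, s ∈ 𝔔 ↔ (s : L) ∈ O.nonunits := fun s => Iff.rfl
  have hprime : 𝔔.IsPrime := by
    refine ⟨?_, ?_⟩
    · intro h
      have h1 : (1 : S) ∈ 𝔔 := by rw [h]; trivial
      rw [hmem] at h1
      rw [O.mem_nonunits_iff] at h1
      simp at h1
    · intro a b hab
      rw [hmem] at hab
      have h1 : (⟨a, hS a⟩ * ⟨b, hS b⟩ : O) ∈ IsLocalRing.maximalIdeal O :=
        O.coe_mem_nonunits_iff.1 hab
      rcases (IsLocalRing.maximalIdeal.isMaximal O).isPrime.mem_or_mem h1 with h2 | h2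
      · exact Or.inl (O.coe_mem_nonunits_iff.2 h2)
      · exact Or.inr (O.coe_mem_nonunits_iff.2 h2)
  have hmax : (Ideal.span {(X - C c : ℂ[X])}).IsMaximal :=
    PrincipalIdealRing.isMaximal_of_irreducible (irreducible_X_sub_C c)
  have hle : Ideal.span {(X - C c : ℂ[X])} ≤ 𝔔.under ℂ[X] := by
    rw [Ideal.span_singleton_le_iff_mem, Ideal.under_def, Ideal.mem_comap, hmem]
    have h1 : ((algebraMap ℂ[X] S (X - C c) : S) : L) = algebraMap ℂ[X] L X - algebraMap ℂ L c := by
      show algebraMap ℂ[X] L (X - C c) = _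
      rw [map_sub, hCC]
    rw [h1]
    exact ht
  have hover : 𝔔.LiesOver (Ideal.span {(X - C c : ℂ[X])}) := by
    refine ⟨hmax.eq_of_le ?_ hle⟩
    exact (Ideal.IsPrime.under ℂ[X] 𝔔).ne_top
  have : IsDedekindDomain S := integralClosure.isDedekindDomain ℂ[X] E L
  have : Module.Finite ℂ[X] S := IsIntegralClosure.finite ℂ[X] E L S
  have : IsFractionRing S L := integralClosure.isFractionRing_of_finite_extension E L
  have : IsGaloisGroup (L ≃ₐ[E] L) ℂ[X] S := IsGaloisGroup.of_isFractionRing _ _ _ E L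
  have hinjL : Function.Injective (algebraMap ℂ[X] L) := by
    rw [IsScalarTower.algebraMap_eq ℂ[X] E L]
    exact (algebraMap E L).injective.comp (IsFractionRing.injective ℂ[X] E)
  have : FaithfulSMul ℂ[X] L := (faithfulSMul_iff_algebraMap_injective ℂ[X] L).2 hinjL
  have : Module.IsTorsionFree ℂ[X] S := inferInstance
  have : Module.Free ℂ[X] S := inferInstance
  have : Module.Flat ℂ[X] S := inferInstance
  have hpm0 : Ideal.map (algebraMap ℂ[X] S) (Ideal.span {(X - C c : ℂ[X])}) ≠ ⊥ := by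
    rw [Ideal.map_span, Set.image_singleton, Ne, Ideal.span_singleton_eq_bot]
    intro h2
    have h3 : algebraMap ℂ[X] L (X - C c) = 0 := congrArg Subtype.val h2
    exact X_sub_C_ne_zero c (hinjL (h3.trans (map_zero _).symm))
  have : CharZero (Ideal.span {(X - C c : ℂ[X])}).ResidueField :=
    charZero_of_injective_algebraMap (algebraMap ℂ _).injective
  have : Finite (L ≃ₐ[E] L) := inferInstance
  have hcard := Ideal.card_inertia_eq_ramificationIdxIn (G := L ≃ₐ[E] L)
    (Ideal.span {(X - C c : ℂ[X])}) 𝔔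
  rw [Ideal.ramificationIdxIn_eq_ramificationIdx _ 𝔔 (L ≃ₐ[E] L),
    Ideal.IsDedekindDomain.ramificationIdx_eq_multiplicity (Ideal.span {(X - C c : ℂ[X])}) 𝔔] at hcard
  · have hpm : Ideal.map (algebraMap ℂ[X] S) (Ideal.span {(X - C c : ℂ[X])}) =
        Ideal.span {algebraMap ℂ[X] S (X - C c)} := by
      rw [Ideal.map_span, Set.image_singleton]
    have hrel : algebraMap ℂ[X] S (X - C c) * ⟨d, hd⟩ = (⟨y, hy⟩ : S) ^ 2 * ⟨e, he⟩ := by
      apply Subtype.ext
      show algebraMap ℂ[X] L (X - C c) * d = y ^ 2 * e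
      rw [map_sub, hCC]
      exact hyde
    have hQ0 : 𝔔 ≠ ⊥ := by
      intro h0
      have h1 : algebraMap ℂ[X] S (X - C c) ∈ 𝔔 := by
        have := hle (Ideal.mem_span_singleton_self (X - C c))
        exact this
      rw [h0, Ideal.mem_bot] at h1
      have h2 : algebraMap ℂ[X] L (X - C c) = 0 := congrArg Subtype.val h1
      exact X_sub_C_ne_zero c (hinjL (h2.trans (map_zero _).symm))
    have hQmax : 𝔔.IsMaximal := hprime.isMaximal hQ0
    have hdvd : 𝔔 ^ 2 ∣ Ideal.span {algebraMap ℂ[X] S (X - C c)} * Ideal.span {(⟨d, hd⟩ : S)} := by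
      rw [Ideal.span_singleton_mul_span_singleton, hrel, Ideal.dvd_span_singleton]
      exact Ideal.mul_mem_right _ _ (Ideal.pow_mem_pow hyO 2)
    have hcop : IsCoprime (𝔔 ^ 2) (Ideal.span {(⟨d, hd⟩ : S)}) := by
      apply IsCoprime.pow_left
      rw [Ideal.isCoprime_iff_sup_eq]
      by_contra hne
      have h1 := hQmax.eq_of_le hne le_sup_left
      have h2 : (⟨d, hd⟩ : S) ∈ 𝔔 := by
        rw [h1]
        exact Ideal.mem_sup_right (Ideal.mem_span_singleton_self _)
      exact hdO h2
    have hdvd2 := hcop.dvd_of_dvd_mul_right hdvd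
    rw [← hpm] at hdvd2
    have hfin : FiniteMultiplicity 𝔔
        (Ideal.map (algebraMap ℂ[X] S) (Ideal.span {(X - C c : ℂ[X])})) := by
      refine FiniteMultiplicity.of_not_isUnit ?_ hpm0
      rw [Ideal.isUnit_iff]
      exact hprime.ne_top
    have h2le := hfin.le_multiplicity_of_pow_dvd hdvd2
    rw [← hcard] at h2le
    by_contra hcon
    push Not at hcon
    have h3 : 𝔔.inertia (L ≃ₐ[E] L) = ⊥ := by
      rw [eq_bot_iff]
      intro g hg
      rw [Subgroup.mem_bot]
      by_contra hg1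
      obtain ⟨z, hz, hzn⟩ := hcon g hg1
      exact hzn (hg ⟨z, hz⟩)
    rw [h3, Subgroup.card_bot] at h2le
    omega
  · exact hpm0


/-- polynomials at an element congruent to `q` -/
theorem Transp_eval {L : Type} [Field L] [Algebra ℂ L] (O : ValuationSubring L)
    (hC : ∀ c : ℂ, algebraMap ℂ L c ∈ O) {u : L} {q : ℂ} (hu : u - algebraMap ℂ L q ∈ O.nonunits)
    (p : ℂ[X]) : aeval u p ∈ O ∧ aeval u p - algebraMap ℂ L (p.eval q) ∈ O.nonunits := by
  have huO : u ∈ O := by
    have h1 : u - algebraMap ℂ L q ∈ O := O.nonunits_le hu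
    have h3 := O.add_mem _ _ h1 (hC q)
    rwa [sub_add_cancel] at h3
  have key : ∀ r : ℂ[X], aeval u r ∈ O := by
    intro r
    induction r using Polynomial.induction_on' with
    | add p q hp hq => rw [map_add]; exact O.add_mem _ _ hp hq
    | monomial n a =>
      rw [aeval_monomial]
      exact O.mul_mem _ _ (hC a) (pow_mem huO n)
  refine ⟨key p, ?_⟩
  obtain ⟨r, hr⟩ : X - C q ∣ p - C (p.eval q) := by
    rw [dvd_iff_isRoot, IsRoot.def]
    simp
  have h1 := congrArg (aeval u) hr
  simp only [map_sub, map_mul, aeval_C, aeval_X] at h1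
  rw [h1]
  have h2 := (IsLocalRing.maximalIdeal O).mul_mem_right ⟨aeval u r, key r⟩
    (O.coe_mem_nonunits_iff.1
      (show ((⟨u - algebraMap ℂ L q, O.nonunits_le hu⟩ : O) : L) ∈ O.nonunits from hu))
  exact O.coe_mem_nonunits_iff.2 h2

theorem Transp_const {L : Type} [Field L] [Algebra ℂ L] (O : ValuationSubring L)
    (hC : ∀ c : ℂ, algebraMap ℂ L c ∈ O) {a : ℂ} (h : algebraMap ℂ L a ∈ O.nonunits) : a = 0 := by
  by_contra ha
  have h1 := (O.mem_nonunits_iff_or).1 h
  rcases h1 with h1 | h1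
  · exact ha ((map_eq_zero _).1 h1)
  · apply h1
    rw [← map_inv₀]
    exact hC a⁻¹

theorem Transp_swapL {L : Type} [Field L] [Algebra ℂ L] [Algebra E L] [Algebra ℂ[X] L]
    [IsScalarTower ℂ E L] [IsScalarTower ℂ[X] E L] [FiniteDimensional E L] [IsGalois E L]
    {A : RF} (hm : A.P.Monic) (hlt : A.Q.natDegree < A.P.natDegree) {c q : ℂ} (s : Finset L)
    (hs : A.P.map (algebraMap ℂ L) - C (algebraMap ℂ[X] L X) * A.Q.map (algebraMap ℂ L) =
      ∏ z ∈ s, (X - C z))
    (hgen : ∀ g : L ≃ₐ[E] L, (∀ z ∈ s, g z = z) → g = 1)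
    (O : ValuationSubring L) (hC : ∀ c : ℂ, algebraMap ℂ L c ∈ O)
    (ht : algebraMap ℂ[X] L X - algebraMap ℂ L c ∈ O.nonunits)
    (hq : A.P.eval q = c * A.Q.eval q)
    (h2 : (A.P - C c * A.Q).rootMultiplicity q = 2)
    (h1 : ∀ a, a ≠ q → (A.P - C c * A.Q).rootMultiplicity a ≤ 1)
    {u w : L} (hu : u ∈ s) (hw : w ∈ s) (huw : u ≠ w) (huq : u - algebraMap ℂ L q ∈ O.nonunits)
    (hwq : w - algebraMap ℂ L q ∈ O.nonunits) :
    ∃ g : L ≃ₐ[E] L, g u = w ∧ g w = u ∧ ∀ z ∈ s, z ≠ u → z ≠ w → g z = z := by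
  have hCC : ∀ a : ℂ, algebraMap ℂ[X] L (C a) = algebraMap ℂ L a := fun a => by
    rw [IsScalarTower.algebraMap_apply ℂ[X] E L, ← algC_E, ← IsScalarTower.algebraMap_apply]
  have hroot : ∀ z : L, z ∈ s ↔ aeval z A.P = algebraMap ℂ[X] L X * aeval z A.Q := by
    intro z
    have h3 := congrArg (eval z) hs
    rw [eval_sub, eval_mul, eval_C, eval_map_algebraMap, eval_map_algebraMap, eval_prod] at h3
    constructor
    · intro hz
      rw [Finset.prod_eq_zero hz (by simp)] at h3
      exact sub_eq_zero.1 h3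
    · intro hz
      rw [hz, sub_self, eq_comm, Finset.prod_eq_zero_iff] at h3
      obtain ⟨a, ha, ha'⟩ := h3
      rw [eval_sub, eval_X, eval_C, sub_eq_zero] at ha'
      rw [ha']; exact ha
  have hint : ∀ z ∈ s, IsIntegral ℂ[X] z := by
    intro z hz
    refine ⟨A.P.map C - C X * A.Q.map C, ?_, ?_⟩
    · refine (hm.map C).sub_of_left ?_
      rw [degree_eq_natDegree (hm.map C).ne_zero, natDegree_map]
      refine (degree_mul_le _ _).trans_lt ?_
      rw [degree_C X_ne_zero, zero_add]
      refine (degree_map_le (f := C) (p := A.Q)).trans_lt ?_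
      exact (degree_le_natDegree).trans_lt (by exact_mod_cast hlt)
    · rw [eval₂_sub, eval₂_mul, eval₂_C, eval₂_map, eval₂_map]
      have h4 : (algebraMap ℂ[X] L).comp C = algebraMap ℂ L := by
        ext a
        exact hCC a
      rw [h4, ← aeval_def, ← aeval_def, (hroot z).1 hz, sub_self]
  have hintC : ∀ a : ℂ, IsIntegral ℂ[X] (algebraMap ℂ L a) := by
    intro a
    rw [← hCC]
    exact isIntegral_algebraMap
  have hintp : ∀ p : ℂ[X], IsIntegral ℂ[X] (aeval u p) := by
    intro p
    induction p using Polynomial.induction_on' with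
    | add p q hp hq => rw [map_add]; exact hp.add hq
    | monomial n a =>
      rw [aeval_monomial]
      exact (hintC a).mul ((hint u hu).pow n)
  have hQq : A.Q.eval q ≠ 0 := by
    intro h0
    obtain ⟨a, b, hab⟩ := A.cop
    have h4 := congrArg (eval q) hab
    rw [eval_add, eval_mul, eval_mul, hq, h0] at h4
    simp at h4
  obtain ⟨H, hH⟩ : (X - C q) ^ 2 ∣ A.P - C c * A.Q := by
    rw [← h2]
    exact pow_rootMultiplicity_dvd _ _
  obtain ⟨g, hg1, hg⟩ := Transp_inertia O hC ht (y := u - algebraMap ℂ L q) (d := aeval u A.Q)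
    (e := aeval u H) ((hint u hu).sub (hintC q)) (hintp _) (hintp _) huq (by
      intro h4
      have h5 := (Transp_eval O hC huq A.Q).2
      have h6 := O.nonunits.sub_mem h4 h5
      rw [sub_sub_cancel] at h6
      exact hQq (Transp_const O hC h6)) (by
      have h4 := congrArg (aeval u) hH
      simp only [map_sub, map_mul, aeval_C, aeval_X, map_pow] at h4
      rw [← h4, (hroot u).1 hu]
      ring)
  have hgs : ∀ z ∈ s, g z ∈ s := by
    intro z hz
    rw [hroot] at hz ⊢
    have h4 := congrArg g hz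
    have hgX : g (algebraMap ℂ[X] L X) = algebraMap ℂ[X] L X := by
      rw [IsScalarTower.algebraMap_apply ℂ[X] E L]
      exact g.commutes _
    have hgp : ∀ p : ℂ[X], g (aeval z p) = aeval (g z) p := by
      intro p
      have h5 := aeval_algHom_apply ((g : L →ₐ[E] L).restrictScalars ℂ) z p
      exact h5.symm
    rw [map_mul, hgX, hgp, hgp] at h4
    exact h4
  have claim : ∀ z ∈ s, g z ≠ z → (g z = u ∧ z = w) ∨ (g z = w ∧ z = u) := by
    intro z hz hne
    exact Transp_collide s hs O hC ht h2 h1 hu hw huw huq hwq (hgs z hz) hz hne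
      (hg z (hint z hz))
  have hex : ∃ z ∈ s, g z ≠ z := by
    by_contra hcon
    push Not at hcon
    exact hg1 (hgen g hcon)
  obtain ⟨z0, hz0, hne0⟩ := hex
  have hboth : g u = w ∧ g w = u := by
    rcases claim z0 hz0 hne0 with ⟨ha, hb⟩ | ⟨ha, hb⟩
    · rw [hb] at ha
      refine ⟨?_, ha⟩
      rcases claim u hu (fun h => huw (g.injective (h.trans ha.symm))) with ⟨hc, hd⟩ | ⟨hc, hd⟩
      · exact absurd hd huw
      · exact hc
    · rw [hb] at ha
      refine ⟨ha, ?_⟩
      rcases claim w hw (fun h => huw (g.injective (ha.trans h.symm))) with ⟨hc, hd⟩ | ⟨hc, hd⟩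
      · exact hc
      · exact absurd hd.symm huw
  refine ⟨g, hboth.1, hboth.2, ?_⟩
  intro z hz hzu hzw
  by_contra hne
  rcases claim z hz hne with ⟨_, hb⟩ | ⟨_, hb⟩
  · exact hzw hb
  · exact hzu hb

/-- The valuation ring of a place extends to the algebraic closure. -/
theorem Transp_extend {K : Type} [Field K] [Algebra ℂ K] (P : Pl K) :
    ∃ O : ValuationSubring (AlgebraicClosure K),
      (∀ z : K, 0 ≤ P.ord z → algebraMap K (AlgebraicClosure K) z ∈ O) ∧
      ∀ z : K, 0 < P.ord z → algebraMap K (AlgebraicClosure K) z ∈ O.nonunits := by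
  let V := P.v.valuationSubring
  let j : V →+* AlgebraicClosure K := (algebraMap K (AlgebraicClosure K)).comp V.subtype
  let R : Subring (AlgebraicClosure K) := j.range
  let j' : V →+* R := j.rangeRestrict
  have hj' : Function.Surjective j' := j.rangeRestrict_surjective
  have hinj : Function.Injective j' := by
    intro a b hab
    have h1 := congrArg Subtype.val hab
    exact Subtype.ext ((algebraMap K (AlgebraicClosure K)).injective h1)
  let I : Ideal R := (IsLocalRing.maximalIdeal V).map j'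
  have hI : I ≠ ⊤ := by
    intro h
    have h1 : (1 : R) ∈ I := by rw [h]; trivial
    obtain ⟨x, hx, hx1⟩ := (Ideal.mem_map_iff_of_surjective j' hj').1 h1
    have h2 : x = 1 := hinj (hx1.trans (map_one j').symm)
    rw [h2] at hx
    exact (Ideal.ne_top_iff_one _).1 (IsLocalRing.maximalIdeal.isMaximal V).ne_top hx
  obtain ⟨O, hO1, hO2⟩ := Ideal.image_subset_nonunits_valuationSubring I hI
  refine ⟨O, ?_, ?_⟩
  · intro z hz
    have hzV : z ∈ V := (Valuation.mem_valuationSubring_iff _ _).2 ((P.ord_nonneg_iff z).1 hz)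
    exact hO1 ⟨⟨z, hzV⟩, rfl⟩
  · intro z hz
    have hz0 : z ≠ 0 := by
      rintro rfl
      rw [P.ord_zero] at hz
      exact lt_irrefl _ hz
    have hv := (P.ord_pos_iff hz0).1 hz
    have hzV : z ∈ V := (Valuation.mem_valuationSubring_iff _ _).2 hv.le
    have hmem : (⟨z, hzV⟩ : V) ∈ IsLocalRing.maximalIdeal V :=
      (Valuation.mem_maximalIdeal_iff K P.v).2 hv
    exact hO2 ⟨j' ⟨z, hzV⟩, Ideal.mem_map_of_mem j' hmem, rfl⟩

variable {K : Type} [Field K] [Algebra ℂ K]

/-- Let `t = A(φ x) = A(ψ x)` in the algebraic closure `Ω` of `K`, `f = P - t Q ∈ ℂ[t][T]`, monic,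
with `n` different roots in `Ω`.  Let `L` be the subfield of `Ω` generated by `ℂ(t)` and the roots
(finite Galois over `ℂ(t)`), `G` its Galois group, `S` the integral closure of `ℂ[t]` in `L`.
The valuation ring of the place `P` extends to a valuation ring `O` of `Ω`; let `Q` be the prime
ideal of `S` given by `O`.  Modulo `Q` the polynomial `f` becomes `P - c Q`, which has exactly
`n - 1` roots, and `φ x`, `ψ x` is the only pair of roots congruent modulo `Q`.  The inertia group
of `Q` is not trivial: its order is the ramification index of `Q`, which is at least two because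
`t - c = (φ x - q) ^ 2 * (...)`.  Extend to `Ω` by `AlgEquiv.liftNormal`. -/
theorem exists_transp {A : RF} (hm : A.P.Monic) (hlt : A.Q.natDegree < A.P.natDegree) {q c : ℂ}
    (hq : A.P.eval q = c * A.Q.eval q) (h2 : (A.P - C c * A.Q).rootMultiplicity q = 2)
    (h1 : ∀ w, w ≠ q → A.P.eval w = c * A.Q.eval w →
      (A.P - C c * A.Q).rootMultiplicity w = 1)
    {φ ψ : E →ₐ[ℂ] K} (hφ : FinC φ) (hne : φ ≠ ψ) (h : φ (elt A) = ψ (elt A)) {P : Pl K}
    (hP : P ∈ fib φ q) (hP' : P ∈ fib ψ q) :
    ∃ τ : AlgebraicClosure K →ₐ[ℂ] AlgebraicClosure K,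
      τ (algebraMap K _ (φ RatFunc.X)) = algebraMap K _ (ψ RatFunc.X) ∧
      τ (algebraMap K _ (ψ RatFunc.X)) = algebraMap K _ (φ RatFunc.X) ∧
      ∀ z : AlgebraicClosure K, z ≠ algebraMap K _ (φ RatFunc.X) →
        z ≠ algebraMap K _ (ψ RatFunc.X) →
        aeval z A.P = algebraMap K _ (φ (elt A)) * aeval z A.Q → τ z = z := by
  classical
  have hn : 1 ≤ A.n := by
    have h3 : A.n = max A.P.natDegree A.Q.natDegree := rfl
    omega
  have hQ0 := A.Q_ne_zero hn
  obtain ⟨α, hα⟩ := exists_subst (elt_nonConst A hn)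
  let _ : Algebra E K := (φ.comp α).toRingHom.toAlgebra
  have hEK : ∀ r : E, algebraMap E K r = φ (α r) := fun r => rfl
  have i1 : IsScalarTower ℂ E K := IsScalarTower.of_algebraMap_eq fun a =>
    ((φ.comp α).commutes a).symm
  let _ : Algebra ℂ[X] K := ((algebraMap E K).comp (algebraMap ℂ[X] E)).toAlgebra
  have i2 : IsScalarTower ℂ[X] E K := IsScalarTower.of_algebraMap_eq fun _ => rfl
  have i3 : Module.Finite E K := finC_all φ hφ (φ.comp α)
  have i4 : Algebra.IsAlgebraic E (AlgebraicClosure K) := Algebra.IsAlgebraic.trans E K _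
  have i5 : IsAlgClosure E (AlgebraicClosure K) := ⟨inferInstance, i4⟩
  have i6 : Normal E (AlgebraicClosure K) := IsAlgClosure.normal E _
  let g0 : E[X] := A.P.map (algebraMap ℂ E) - C RatFunc.X * A.Q.map (algebraMap ℂ E)
  have hg0 : g0.map α.toRingHom = GG A := by
    have h3 : α.toRingHom.comp (algebraMap ℂ E) = algebraMap ℂ E := by
      ext a
      exact α.commutes a
    have h4 : α.toRingHom RatFunc.X = elt A := hα
    simp only [g0, GG, Polynomial.map_sub, Polynomial.map_mul, map_C, Polynomial.map_map, h3, h4]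
  have hg0m : g0.Monic := by
    refine (hm.map _).sub_of_left ?_
    rw [degree_eq_natDegree (hm.map _).ne_zero, natDegree_map]
    refine (degree_mul_le _ _).trans_lt ?_
    rw [degree_C RatFunc.X_ne_zero, zero_add]
    refine (degree_map_le).trans_lt ?_
    exact (degree_le_natDegree).trans_lt (by exact_mod_cast hlt)
  have hg0sep : g0.Separable := by
    have h3 := GG_separable A hn
    rw [← hg0] at h3
    exact separable_map _ |>.1 h3
  let L := IntermediateField.adjoin E (g0.rootSet (AlgebraicClosure K))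
  have i7 : g0.IsSplittingField E L :=
    IntermediateField.adjoin_rootSet_isSplittingField (IsAlgClosed.splits _)
  have i8 : IsGalois E L := IsGalois.of_separable_splitting_field hg0sep
  have i9 : FiniteDimensional E L := Polynomial.IsSplittingField.finiteDimensional L g0
  have i10 : IsScalarTower ℂ L (AlgebraicClosure K) := IsScalarTower.of_algebraMap_eq fun a => by
    rw [IsScalarTower.algebraMap_apply ℂ E (AlgebraicClosure K),
      IsScalarTower.algebraMap_apply ℂ E L]
    rfl
  -- roots in `Ω`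
  set t : AlgebraicClosure K := algebraMap K _ (φ (elt A)) with ht_def
  have htE : algebraMap E (AlgebraicClosure K) RatFunc.X = t := by
    rw [IsScalarTower.algebraMap_apply E K (AlgebraicClosure K), hEK, hα]
  have hrootΩ : ∀ z : AlgebraicClosure K, z ∈ g0.rootSet (AlgebraicClosure K) ↔
      aeval z A.P = t * aeval z A.Q := by
    intro z
    rw [mem_rootSet_of_ne hg0m.ne_zero]
    have h3 : aeval z g0 = aeval z A.P - t * aeval z A.Q := by
      simp only [g0, map_sub, map_mul, aeval_C, aeval_map_algebraMap, htE]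
    rw [h3, sub_eq_zero]
  have hPQ : algebraMap ℂ[X] E A.P = elt A * algebraMap ℂ[X] E A.Q := by
    rw [elt_eq, div_mul_cancel₀]
    exact (map_ne_zero_iff _ (IsFractionRing.injective ℂ[X] E)).2 hQ0
  have hu : aeval (algebraMap K (AlgebraicClosure K) (φ RatFunc.X)) A.P =
      t * aeval (algebraMap K (AlgebraicClosure K) (φ RatFunc.X)) A.Q := by
    rw [aeval_algebraMap_apply, aeval_algebraMap_apply, ← coord_poly, ← coord_poly, ht_def,
      ← map_mul, ← map_mul, hPQ]
  have hw : aeval (algebraMap K (AlgebraicClosure K) (ψ RatFunc.X)) A.P =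
      t * aeval (algebraMap K (AlgebraicClosure K) (ψ RatFunc.X)) A.Q := by
    rw [aeval_algebraMap_apply, aeval_algebraMap_apply, ← coord_poly, ← coord_poly, ht_def, h,
      ← map_mul, ← map_mul, hPQ]
  let u : L := ⟨algebraMap K _ (φ RatFunc.X), IntermediateField.subset_adjoin _ _ ((hrootΩ _).2 hu)⟩
  let w : L := ⟨algebraMap K _ (ψ RatFunc.X), IntermediateField.subset_adjoin _ _ ((hrootΩ _).2 hw)⟩
  have huw : u ≠ w := by
    intro h3
    have h4 := congrArg Subtype.val h3
    exact coord_ne hne ((algebraMap K (AlgebraicClosure K)).injective h4)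
  -- roots in `L`
  have hsplit : (g0.map (algebraMap E L)).Splits := i7.splits
  let s : Finset L := (g0.map (algebraMap E L)).roots.toFinset
  have htL : algebraMap ℂ[X] L X = algebraMap E L RatFunc.X := by
    rw [IsScalarTower.algebraMap_apply ℂ[X] E L, RatFunc.algebraMap_X]
  have hs : A.P.map (algebraMap ℂ L) - C (algebraMap ℂ[X] L X) * A.Q.map (algebraMap ℂ L) =
      ∏ z ∈ s, (X - C z) := by
    have h3 : g0.map (algebraMap E L) = A.P.map (algebraMap ℂ L) -
        C (algebraMap ℂ[X] L X) * A.Q.map (algebraMap ℂ L) := by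
      simp only [g0, Polynomial.map_sub, Polynomial.map_mul, map_C, Polynomial.map_map,
        ← IsScalarTower.algebraMap_eq, htL]
    rw [← h3]
    have h4 := hsplit.eq_prod_roots_of_monic (hg0m.map _)
    have h5 : (g0.map (algebraMap E L)).roots.Nodup := nodup_roots (hg0sep.map)
    conv_lhs => rw [h4]
    rw [Finset.prod, Multiset.toFinset_val, h5.dedup]
  have hmems : ∀ z : L, z ∈ s ↔ aeval (z : AlgebraicClosure K) A.P =
      t * aeval (z : AlgebraicClosure K) A.Q := by
    intro z
    rw [← hrootΩ, mem_rootSet_of_ne hg0m.ne_zero]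
    have h3 : aeval (z : AlgebraicClosure K) g0 = algebraMap L (AlgebraicClosure K) (aeval z g0) :=
      aeval_algebraMap_apply _ z g0
    rw [h3, map_eq_zero, Multiset.mem_toFinset, mem_roots (hg0m.map _).ne_zero, IsRoot.def,
      eval_map_algebraMap]
  have hgen : ∀ g : L ≃ₐ[E] L, (∀ z ∈ s, g z = z) → g = 1 := by
    intro g hg
    have h3 : (g : L →ₐ[E] L) = AlgHom.id E L := by
      refine AlgHom.ext_of_adjoin_eq_top i7.adjoin_rootSet ?_
      intro z hz
      refine hg z ?_
      rw [mem_rootSet_of_ne hg0m.ne_zero] at hz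
      rw [Multiset.mem_toFinset, mem_roots (hg0m.map _).ne_zero, IsRoot.def, eval_map_algebraMap]
      exact hz
    ext z
    exact congrArg Subtype.val (AlgHom.congr_fun h3 z)
  obtain ⟨OΩ, hO1, hO2⟩ := Transp_extend P
  let O : ValuationSubring L := OΩ.comap (algebraMap L (AlgebraicClosure K))
  have hOn : ∀ z : L, z ∈ O.nonunits ↔ (z : AlgebraicClosure K) ∈ OΩ.nonunits := by
    intro z
    rw [O.mem_nonunits_iff_or, OΩ.mem_nonunits_iff_or]
    have h3 : z = 0 ↔ (z : AlgebraicClosure K) = 0 := by simp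
    have h4 : z⁻¹ ∈ O ↔ (z : AlgebraicClosure K)⁻¹ ∈ OΩ := by
      rw [ValuationSubring.mem_comap, map_inv₀]
      rfl
    rw [h3, h4]
  have hcL : ∀ a : ℂ, ((algebraMap ℂ L a : L) : AlgebraicClosure K) =
      algebraMap K (AlgebraicClosure K) (algebraMap ℂ K a) := by
    intro a
    rw [← IsScalarTower.algebraMap_apply ℂ K (AlgebraicClosure K)]
    exact (IsScalarTower.algebraMap_apply ℂ L (AlgebraicClosure K) a).symm
  have hC : ∀ a : ℂ, algebraMap ℂ L a ∈ O := by
    intro a
    show ((algebraMap ℂ L a : L) : AlgebraicClosure K) ∈ OΩ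
    rw [hcL]
    exact hO1 _ (by rw [P.ord_C])
  have huq : u - algebraMap ℂ L q ∈ O.nonunits := by
    rw [hOn]
    have h3 : ((u - algebraMap ℂ L q : L) : AlgebraicClosure K) =
        algebraMap K (AlgebraicClosure K) (φ RatFunc.X - algebraMap ℂ K q) := by
      rw [map_sub, ← hcL]
      rfl
    rw [h3]
    exact hO2 _ hP
  have hwq : w - algebraMap ℂ L q ∈ O.nonunits := by
    rw [hOn]
    have h3 : ((w - algebraMap ℂ L q : L) : AlgebraicClosure K) =
        algebraMap K (AlgebraicClosure K) (ψ RatFunc.X - algebraMap ℂ K q) := by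
      rw [map_sub, ← hcL]
      rfl
    rw [h3]
    exact hO2 _ hP'
  have hQq : A.Q.eval q ≠ 0 := by
    intro h0
    obtain ⟨a, b, hab⟩ := A.cop
    have h4 := congrArg (eval q) hab
    rw [eval_add, eval_mul, eval_mul, hq, h0] at h4
    simp at h4
  have ht : algebraMap ℂ[X] L X - algebraMap ℂ L c ∈ O.nonunits := by
    have h3 : (algebraMap ℂ[X] L X - algebraMap ℂ L c) * aeval u A.Q =
        aeval u (A.P - C c * A.Q) := by
      have h4 : aeval u A.P = algebraMap ℂ[X] L X * aeval u A.Q := by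
        apply Subtype.val_injective
        have h5 : ∀ p : ℂ[X], ((aeval u p : L) : AlgebraicClosure K) =
            aeval (algebraMap K (AlgebraicClosure K) (φ RatFunc.X)) p := by
          intro p
          exact (aeval_algebraMap_apply (AlgebraicClosure K) u p).symm
        have h6 : ((algebraMap ℂ[X] L X : L) : AlgebraicClosure K) = t := by
          rw [htL]
          exact htE
        rw [h5, MulMemClass.coe_mul, h5, h6, hu]
      simp only [map_sub, map_mul, aeval_C, h4]
      ring
    have h5 := (Transp_eval O hC huq (A.P - C c * A.Q)).2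
    have h6 : (A.P - C c * A.Q).eval q = 0 := by
      rw [eval_sub, eval_mul, eval_C, hq, sub_self]
    rw [h6, map_zero, sub_zero, ← h3] at h5
    have h7 : aeval u A.Q ∉ O.nonunits := by
      intro h8
      have h9 := (Transp_eval O hC huq A.Q).2
      have h10 := O.nonunits.sub_mem h8 h9
      rw [sub_sub_cancel] at h10
      exact hQq (Transp_const O hC h10)
    rw [O.mem_nonunits_iff] at h5 h7 ⊢
    rw [map_mul] at h5
    by_contra h8
    rw [not_lt] at h7 h8
    exact absurd h5 (not_lt.2 (one_le_mul h8 h7))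
  obtain ⟨g, hgu, hgw, hgz⟩ := Transp_swapL hm hlt s hs hgen O hC ht hq h2 (by
    intro a haq
    by_cases ha : A.P.eval a = c * A.Q.eval a
    · exact (h1 a haq ha).le
    · rw [rootMultiplicity_eq_zero]
      · exact Nat.zero_le _
      · rw [IsRoot.def, eval_sub, eval_mul, eval_C]
        exact fun h0 => ha (sub_eq_zero.1 h0)) ((hmems u).2 hu) ((hmems w).2 hw) huw huq hwq
  let τ := g.liftNormal (AlgebraicClosure K)
  have hτ : ∀ z : L, τ (z : AlgebraicClosure K) = (g z : L) := fun z =>
    g.liftNormal_commutes (AlgebraicClosure K) z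
  refine ⟨(τ : AlgebraicClosure K →ₐ[E] AlgebraicClosure K).restrictScalars ℂ, ?_, ?_, ?_⟩
  · exact (hτ u).trans (congrArg Subtype.val hgu)
  · exact (hτ w).trans (congrArg Subtype.val hgw)
  · intro z hz1 hz2 hz
    have hzL : z ∈ L := IntermediateField.subset_adjoin _ _ ((hrootΩ z).2 hz)
    have h3 := hgz ⟨z, hzL⟩ ((hmems _).2 hz) (fun h4 => hz1 (congrArg Subtype.val h4))
      (fun h4 => hz2 (congrArg Subtype.val h4))
    exact (hτ ⟨z, hzL⟩).trans (congrArg Subtype.val h3)

end WildS
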